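import Pool.Agent.Lib.MP_38fd99_co.Assembly

/-!
# `e_k(n) ≤ C_ε k n^(1+ε)` for all `k`, `n`
-/

set_option autoImplicit false

namespace Pool.Agent.Results.MP_38fd99_co.AlmostLinear

noncomputable section

/-- a placement of the vertices `0, …, n-1` in general position: distinct points of the plane, no three
collinear -/
def GenPos {n : ℕ} (pos : Fin n → ℝ × ℝ) : Prop :=
  Function.Injective pos ∧
    ∀ i j k : Fin n, i ≠ j → i ≠ k → j ≠ k → ¬ Collinear ℝ ({pos i, pos j, pos k} : Set (ℝ × ℝ))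

/-- the closed segment drawn for the edge `e` (convex hull of its two end points) -/
def seg {n : ℕ} (pos : Fin n → ℝ × ℝ) (e : Sym2 (Fin n)) : Set (ℝ × ℝ) :=
  convexHull ℝ (pos '' {i | i ∈ e})

/-- the geometric graph `(G, pos)` has `k` pairwise disjoint edges -/
def HasDisjointEdges {n : ℕ} (k : ℕ) (G : SimpleGraph (Fin n)) (pos : Fin n → ℝ × ℝ) : Prop :=
  ∃ S : Finset (Sym2 (Fin n)), (S : Set (Sym2 (Fin n))) ⊆ G.edgeSet ∧ S.card = k ∧
    (S : Set (Sym2 (Fin n))).Pairwise (fun e f => Disjoint (seg pos e) (seg pos f))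

/-- `e_k(n)`: the maximal number of edges of a geometric graph on `n` vertices without `k` pairwise
disjoint edges -/
def ek (k n : ℕ) : ℕ :=
  sSup {m : ℕ | ∃ (G : SimpleGraph (Fin n)) (pos : Fin n → ℝ × ℝ), GenPos pos ∧
    ¬ HasDisjointEdges k G pos ∧ G.edgeSet.ncard = m}

/-- For every `ε > 0` there is `C` such that `e_k(n) ≤ C k n^(1+ε)` for all `k` and `n`. -/
theorem result : ∀ ε : ℝ, 0 < ε → ∃ C : ℝ, 0 < C ∧
    ∀ k n : ℕ, (ek k n : ℝ) ≤ C * k * (n : ℝ) ^ (1 + ε) :=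
  Pool.Agent.GG38.stmtFinal.1

end

end Pool.Agent.Results.MP_38fd99_co.AlmostLinear
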