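import Pool.Agent.Lib.MP_38fd99_co.Spec

/-! # The block lemma -/

set_option autoImplicit false

namespace Pool.Agent.GG38

open Finset Classical

namespace Block

variable {α : Type}

/-- a maximal element -/
theorem exists_max (lt : α → α → Prop) : ∀ V : Finset α, V.Nonempty → (∀ b ∈ V, ¬ lt b b) →
    (∀ b ∈ V, ∀ d ∈ V, ∀ c ∈ V, lt b d → lt d c → lt b c) → ∃ m ∈ V, ∀ x ∈ V, ¬ lt m x := by
  intro V
  induction V using Finset.induction_on with
  | empty => intro h; exact absurd h (by simp)
  | insert a s ha ih =>
    intro _ hirr htr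
    rcases s.eq_empty_or_nonempty with h | h
    · subst h
      refine ⟨a, by simp, fun x hx => ?_⟩
      have : x = a := by simpa using hx
      subst this
      exact hirr x (by simp)
    · obtain ⟨m, hm, hmax⟩ := ih h (fun b hb => hirr b (mem_insert_of_mem hb))
        (fun b hb d hd c hc => htr b (mem_insert_of_mem hb) d (mem_insert_of_mem hd) c
          (mem_insert_of_mem hc))
      by_cases hma : lt m a
      · refine ⟨a, mem_insert_self a s, fun x hx hax => ?_⟩
        rcases mem_insert.1 hx with rfl | hx
        · exact hirr x (mem_insert_self x s) hax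
        · exact hmax x hx (htr m (mem_insert_of_mem hm) a (mem_insert_self a s) x
            (mem_insert_of_mem hx) hma hax)
      · refine ⟨m, mem_insert_of_mem hm, fun x hx hmx => ?_⟩
        rcases mem_insert.1 hx with rfl | hx
        · exact hma hmx
        · exact hmax x hx hmx

/-- a linear extension -/
theorem exists_ext (lt : α → α → Prop) : ∀ (n : ℕ) (V : Finset α), V.card = n →
    (∀ b ∈ V, ¬ lt b b) → (∀ b ∈ V, ∀ d ∈ V, ∀ c ∈ V, lt b d → lt d c → lt b c) →
    ∃ π : α → ℕ, (∀ b ∈ V, ∀ c ∈ V, π b = π c → b = c) ∧ (∀ b ∈ V, π b < n) ∧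
      ∀ b ∈ V, ∀ c ∈ V, lt b c → π b < π c := by
  intro n
  induction n with
  | zero =>
    intro V hV _ _
    rw [card_eq_zero] at hV
    subst hV
    exact ⟨fun _ => 0, by simp, by simp, by simp⟩
  | succ n ih =>
    intro V hV hirr htr
    have hne : V.Nonempty := card_pos.1 (by omega)
    obtain ⟨m, hm, hmax⟩ := exists_max lt V hne hirr htr
    have hcard : (V.erase m).card = n := by rw [card_erase_of_mem hm, hV]; rfl
    obtain ⟨π, h1, h2, h3⟩ := ih (V.erase m) hcard (fun b hb => hirr b (mem_of_mem_erase hb))
      (fun b hb d hd c hc => htr b (mem_of_mem_erase hb) d (mem_of_mem_erase hd) c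
        (mem_of_mem_erase hc))
    refine ⟨Function.update π m n, ?_, ?_, ?_⟩
    · intro b hb c hc hbc
      by_cases hbm : b = m <;> by_cases hcm : c = m
      · rw [hbm, hcm]
      · subst hbm
        rw [Function.update_self, Function.update_of_ne hcm] at hbc
        have := h2 c (mem_erase.2 ⟨hcm, hc⟩)
        omega
      · subst hcm
        rw [Function.update_self, Function.update_of_ne hbm] at hbc
        have := h2 b (mem_erase.2 ⟨hbm, hb⟩)
        omega
      · rw [Function.update_of_ne hbm, Function.update_of_ne hcm] at hbc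
        exact h1 b (mem_erase.2 ⟨hbm, hb⟩) c (mem_erase.2 ⟨hcm, hc⟩) hbc
    · intro b hb
      by_cases hbm : b = m
      · rw [hbm, Function.update_self]; omega
      · rw [Function.update_of_ne hbm]
        have := h2 b (mem_erase.2 ⟨hbm, hb⟩)
        omega
    · intro b hb c hc hbc
      by_cases hbm : b = m
      · subst hbm
        exact absurd hbc (hmax c hc)
      · by_cases hcm : c = m
        · subst hcm
          rw [Function.update_self, Function.update_of_ne hbm]
          exact h2 b (mem_erase.2 ⟨hbm, hb⟩)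
        · rw [Function.update_of_ne hbm, Function.update_of_ne hcm]
          exact h3 b (mem_erase.2 ⟨hbm, hb⟩) c (mem_erase.2 ⟨hcm, hc⟩) hbc

end Block

theorem block : StmtBlock := by
  intro α V lt hirr htr Δ l hΔ hl hinc
  obtain ⟨π, h1, h2, h3⟩ := Block.exists_ext lt V.card V rfl hirr htr
  have himg : V.image π = range V.card := by
    apply eq_of_subset_of_card_le
    · intro m hm
      obtain ⟨b, hb, rfl⟩ := mem_image.1 hm
      exact mem_range.2 (h2 b hb)
    · rw [card_range, card_image_of_injOn (fun b hb c hc h => h1 b hb c hc h)]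
  have hsurj : ∀ m < V.card, ∃ b ∈ V, π b = m := by
    intro m hm
    have : m ∈ V.image π := by rw [himg]; exact mem_range.2 hm
    simpa using this
  have key : ∀ b ∈ V, ∀ c ∈ V, π b + 2 * Δ ≤ π c → b ≠ c → lt b c := by
    intro b hb c hc hbc hne
    by_contra hlt
    have hlt' : ¬ lt c b := by
      intro h
      have := h3 c hc b hb h
      omega
    have e1 : c ∈ V.filter (fun z => z ≠ b ∧ ¬ lt b z ∧ ¬ lt z b) :=
      mem_filter.2 ⟨hc, hne.symm, hlt, hlt'⟩
    have e2 : b ∈ V.filter (fun z => z ≠ c ∧ ¬ lt c z ∧ ¬ lt z c) :=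
      mem_filter.2 ⟨hb, hne, hlt', hlt⟩
    have f1 := hinc b hb
    have f2 := hinc c hc
    have g1 := card_erase_of_mem e1
    have g2 := card_erase_of_mem e2
    have p1 : 0 < (V.filter (fun z => z ≠ b ∧ ¬ lt b z ∧ ¬ lt z b)).card := card_pos.2 ⟨c, e1⟩
    have p2 : 0 < (V.filter (fun z => z ≠ c ∧ ¬ lt c z ∧ ¬ lt z c)).card := card_pos.2 ⟨b, e2⟩
    have hsub : Ioo (π b) (π c) ⊆
        (((V.filter (fun z => z ≠ b ∧ ¬ lt b z ∧ ¬ lt z b)).erase c) ∪
          ((V.filter (fun z => z ≠ c ∧ ¬ lt c z ∧ ¬ lt z c)).erase b)).image π := by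
      intro m hm
      rw [mem_Ioo] at hm
      obtain ⟨z, hz, rfl⟩ := hsurj m (lt_trans hm.2 (h2 c hc))
      refine mem_image.2 ⟨z, ?_, rfl⟩
      have hzb : z ≠ b := by rintro rfl; omega
      have hzc : z ≠ c := by rintro rfl; omega
      have q1 : ¬ lt z b := fun h => by
        have := h3 z hz b hb h
        omega
      have q2 : ¬ lt c z := fun h => by
        have := h3 c hc z hz h
        omega
      rw [mem_union, mem_erase, mem_erase, mem_filter, mem_filter]
      by_cases q3 : lt b z
      · right
        exact ⟨hzb, hz, hzc, q2, fun h => hlt (htr b hb z hz c hc q3 h)⟩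
      · left
        exact ⟨hzc, hz, hzb, q3, q1⟩
    have r1 := card_le_card hsub
    have r2 := r1.trans (card_image_le.trans (card_union_le _ _))
    rw [Nat.card_Ioo, g1, g2] at r2
    omega
  have hblock : ∀ j, (V.filter (fun b => π b / l = j)).image π ⊆ Ico (l * j) (l * j + l) := by
    intro j m hm
    obtain ⟨b, hb, rfl⟩ := mem_image.1 hm
    rw [mem_filter] at hb
    rw [mem_Ico]
    have q1 := Nat.div_add_mod (π b) l
    have q2 := Nat.mod_lt (π b) (show 0 < l by omega)
    rw [hb.2] at q1
    omega
  have hinj : ∀ j, ((V.filter (fun b => π b / l = j)).image π).card =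
      (V.filter (fun b => π b / l = j)).card := fun j =>
    card_image_of_injOn (fun b hb c hc h => h1 b (mem_filter.1 hb).1 c (mem_filter.1 hc).1 h)
  have hle : ∀ j, (V.filter (fun b => π b / l = j)).card ≤ l := by
    intro j
    rw [← hinj]
    have := card_le_card (hblock j)
    rw [Nat.card_Ico] at this
    omega
  refine ⟨fun b => π b / l, ?_, hle, ?_⟩
  · intro b hb c hc hbc
    have q1 := Nat.div_add_mod (π b) l
    have q2 := Nat.mod_lt (π b) (show 0 < l by omega)
    have q3 := Nat.div_add_mod (π c) l
    have q4 : l * (π b / l + 2) ≤ l * (π c / l) := Nat.mul_le_mul_left l hbc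
    rw [mul_add] at q4
    have q5 : π b + 2 * Δ ≤ π c := by omega
    refine key b hb c hc q5 ?_
    rintro rfl
    omega
  · intro c hc j hj
    apply le_antisymm (hle j)
    have hsub : Ico (l * j) (l * j + l) ⊆ (V.filter (fun b => π b / l = j)).image π := by
      intro m hm
      rw [mem_Ico] at hm
      have q3 := Nat.div_add_mod (π c) l
      have q4 : l * (j + 1) ≤ l * (π c / l) := Nat.mul_le_mul_left l hj
      rw [mul_add] at q4
      have q5 : m < V.card := by
        have := h2 c hc
        omega
      obtain ⟨b, hb, rfl⟩ := hsurj m q5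
      refine mem_image.2 ⟨b, mem_filter.2 ⟨hb, ?_⟩, rfl⟩
      have : π b = l * j + (π b - l * j) := by omega
      rw [this, Nat.mul_add_div (by omega), Nat.div_eq_of_lt (by omega)]
      omega
    have := card_le_card hsub
    rw [Nat.card_Ico, hinj] at this
    omega

end Pool.Agent.GG38
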