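import Pool.Agent.Lib.MP_38fd99_co.Spec

/-!
# Cleaning of a system of cells
-/

set_option autoImplicit false

namespace Pool.Agent.GG38

open Finset Classical

namespace Clean

variable {ι : Type}

/-- removing vertices of small degree -/
theorem count (E1 : Finset (ι × ι)) (V' : Finset ι) (m : ℕ)
    (hm : ∀ b ∈ B E1, degB E1 b ≤ 2 * m) :
    E1.card ≤ (E1.filter (fun p => p.2 ∈ V')).card + 2 * m * (B E1 \ V').card := by
  have h1 := Finset.card_filter_add_card_filter_not (s := E1) (fun p : ι × ι => p.2 ∈ V')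
  have h2 : (E1.filter (fun p => ¬ p.2 ∈ V')).card ≤ 2 * m * (B E1 \ V').card := by
    have h3 : (E1.filter (fun p => ¬ p.2 ∈ V')).card =
        ∑ b ∈ B E1 \ V', ((E1.filter (fun p => ¬ p.2 ∈ V')).filter (fun p => p.2 = b)).card := by
      apply Finset.card_eq_sum_card_fiberwise
      intro p hp
      have hp' := Finset.mem_filter.1 (Finset.mem_coe.1 hp)
      exact Finset.mem_coe.2 (Finset.mem_sdiff.2 ⟨snd_mem_B hp'.1, hp'.2⟩)
    rw [h3]
    calc _ ≤ ∑ b ∈ B E1 \ V', 2 * m := by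
          apply Finset.sum_le_sum
          intro b hb
          refine le_trans ?_ (hm b (Finset.mem_sdiff.1 hb).1)
          unfold degB
          apply Finset.card_le_card
          intro p hp
          rw [Finset.mem_filter, Finset.mem_filter] at hp
          exact Finset.mem_filter.2 ⟨hp.1.1, hp.2⟩
      _ = 2 * m * (B E1 \ V').card := by rw [Finset.sum_const, smul_eq_mul, mul_comm]
  omega

end Clean

theorem clean (hFS : StmtFanSum) (hReg : StmtRegular) (hRem : StmtRemoval) : StmtClean := by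
  intro ι L E0 κ K R E hS w s δ lg M hM hw hs hlg ih hδ1 hδw hgap
  -- regularisation
  have hreg : ∀ k, ∃ (E1 : Finset (ι × ι)) (m : ℕ), k ∈ K → (E1 ⊆ E k ∧ 1 ≤ m ∧
      (E k).card ≤ lg * E1.card ∧ ∀ b ∈ B E1, m ≤ degB E1 b ∧ degB E1 b ≤ 2 * m) := by
    intro k
    by_cases hk : k ∈ K
    · have h1 : (A (E k)).card < 2 ^ lg :=
        lt_of_le_of_lt (Finset.card_le_card (A_mono (hS.sub k hk))) hlg
      obtain ⟨E1, h2, m, h3, h4, h5⟩ := hReg ι (E k) lg h1
      exact ⟨E1, m, fun _ => ⟨h2, h3, h4, h5⟩⟩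
    · exact ⟨∅, 0, fun h => absurd h hk⟩
  choose E1 m hE1 using hreg
  have hS1 : Sys L E0 K R E1 :=
    ⟨fun k hk => (hE1 k hk).1.trans (hS.sub k hk), fun k hk => (hS.ok k hk).mono (hE1 k hk).1,
      hS.disj⟩
  have hw1 : ∀ k ∈ K, ∀ b ∈ B (E1 k),
      ((A (E1 k)).filter (fun a => L.Meet (R k) a b)).card ≤ w := by
    intro k hk b hb
    refine le_trans (Finset.card_le_card ?_) (hw k hk b (B_mono (hE1 k hk).1 hb))
    exact Finset.filter_subset_filter _ (A_mono (hE1 k hk).1)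
  have hfs := hFS ι L E0 κ K R E1 hS1 w s M hM hw1 hs ih m
    (fun k hk b hb => ((hE1 k hk).2.2.2 b hb).1)
  -- removal
  have hrem := fun k => hRem ι (B (E1 k)) (fun b c => L.v c < L.v b ∧ L.Meet (R k) b c) w δ hδ1 hδw
  choose V' hV1 hV2 hV3 using hrem
  refine ⟨fun k => (E1 k).filter (fun p => p.2 ∈ V' k), ?_, ?_, ?_⟩
  · intro k hk
    exact (Finset.filter_subset _ _).trans (hE1 k hk).1
  · -- counting
    have hT : tot K E ≤ lg * ∑ k ∈ K, (E1 k).card := by
      unfold tot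
      rw [Finset.mul_sum]
      exact Finset.sum_le_sum fun k hk => (hE1 k hk).2.2.1
    have hq : ∀ k ∈ K, δ * (E1 k).card ≤ δ * ((E1 k).filter (fun p => p.2 ∈ V' k)).card +
        4 * (m k * ∑ b ∈ B (E1 k), min (slow L (R k) (E1 k) b).card w) := by
      intro k hk
      have h1 := Clean.count (E1 k) (V' k) (m k) (fun b hb => ((hE1 k hk).2.2.2 b hb).2)
      have h2 : δ * (B (E1 k) \ V' k).card ≤
          2 * ∑ b ∈ B (E1 k), min (slow L (R k) (E1 k) b).card w := by
        convert hV2 k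
        ext c
        simp only [slow, Finset.mem_filter]
      calc δ * (E1 k).card ≤ δ * (((E1 k).filter (fun p => p.2 ∈ V' k)).card +
            2 * m k * (B (E1 k) \ V' k).card) := Nat.mul_le_mul_left _ h1
        _ = δ * ((E1 k).filter (fun p => p.2 ∈ V' k)).card +
            2 * m k * (δ * (B (E1 k) \ V' k).card) := by ring
        _ ≤ δ * ((E1 k).filter (fun p => p.2 ∈ V' k)).card +
            2 * m k * (2 * ∑ b ∈ B (E1 k), min (slow L (R k) (E1 k) b).card w) :=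
            Nat.add_le_add_left (Nat.mul_le_mul_left _ h2) _
        _ = _ := by ring
    have hsum : δ * ∑ k ∈ K, (E1 k).card ≤
        δ * ∑ k ∈ K, ((E1 k).filter (fun p => p.2 ∈ V' k)).card +
        4 * ∑ k ∈ K, m k * ∑ b ∈ B (E1 k), min (slow L (R k) (E1 k) b).card w := by
      rw [Finset.mul_sum, Finset.mul_sum, Finset.mul_sum, ← Finset.sum_add_distrib]
      exact Finset.sum_le_sum hq
    have hT' : (tot K E : ℝ) ≤ lg * ((∑ k ∈ K, (E1 k).card : ℕ) : ℝ) := by exact_mod_cast hT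
    have hsum' : (δ : ℝ) * ((∑ k ∈ K, (E1 k).card : ℕ) : ℝ) ≤
        δ * ((∑ k ∈ K, ((E1 k).filter (fun p => p.2 ∈ V' k)).card : ℕ) : ℝ) +
        4 * ((∑ k ∈ K, m k * ∑ b ∈ B (E1 k), min (slow L (R k) (E1 k) b).card w : ℕ) : ℝ) := by
      exact_mod_cast hsum
    have hδ0 : (0 : ℝ) < δ := by exact_mod_cast hδ1
    have hlg0 : (0 : ℝ) ≤ lg := Nat.cast_nonneg _
    have key : (tot K E : ℝ) ≤
        2 * lg * ((∑ k ∈ K, ((E1 k).filter (fun p => p.2 ∈ V' k)).card : ℕ) : ℝ) := by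
      have h1 : (δ : ℝ) * tot K E ≤ lg * (δ * ((∑ k ∈ K, (E1 k).card : ℕ) : ℝ)) := by
        calc (δ : ℝ) * tot K E ≤ δ * (lg * ((∑ k ∈ K, (E1 k).card : ℕ) : ℝ)) :=
              mul_le_mul_of_nonneg_left hT' hδ0.le
          _ = _ := by ring
      have h2 : (lg : ℝ) * (δ * ((∑ k ∈ K, (E1 k).card : ℕ) : ℝ)) ≤
          lg * (δ * ((∑ k ∈ K, ((E1 k).filter (fun p => p.2 ∈ V' k)).card : ℕ) : ℝ) +
            4 * (s * M * L.nu E0)) := by
        apply mul_le_mul_of_nonneg_left _ hlg0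
        linarith
      have h3 : (δ : ℝ) * tot K E ≤
          δ * (2 * lg * ((∑ k ∈ K, ((E1 k).filter (fun p => p.2 ∈ V' k)).card : ℕ) : ℝ)) := by
        nlinarith
      exact le_of_mul_le_mul_left h3 hδ0
    have : tot K (fun k => (E1 k).filter (fun p => p.2 ∈ V' k)) =
        ∑ k ∈ K, ((E1 k).filter (fun p => p.2 ∈ V' k)).card := rfl
    rw [this]
    exact_mod_cast key
  · intro k hk b hb
    have hBV : ∀ c ∈ B ((E1 k).filter (fun p => p.2 ∈ V' k)), c ∈ V' k ∧ c ∈ B (E1 k) := by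
      intro c hc
      obtain ⟨a, ha⟩ := mem_B.1 hc
      have ha' := Finset.mem_filter.1 ha
      exact ⟨ha'.2, mem_B.2 ⟨a, ha'.1⟩⟩
    have hbb := hBV b hb
    refine le_trans (Finset.card_le_card ?_) (hV3 k b hbb.1)
    intro c hc
    unfold cr at hc
    rw [Finset.mem_filter] at hc
    obtain ⟨hc1, hcb, hmeet⟩ := hc
    have hcc := hBV c hc1
    simp only [Finset.mem_filter]
    refine ⟨hcc.1, ?_⟩
    have hv : L.v b ≠ L.v c := by
      intro h
      apply hcb
      exact (hS1.ok k hk).inj (by simp [hcc.2]) (by simp [hbb.2]) h.symm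
    rcases lt_or_gt_of_ne hv with h | h
    · exact Or.inr ⟨h, (L.Meet_comm hv).1 hmeet⟩
    · exact Or.inl ⟨h, hmeet⟩

end Pool.Agent.GG38
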