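import Pool.Agent.Lib.MP_38fd99_co.Spec

/-!
# Cleaning, slow lines
-/

set_option autoImplicit false

namespace Pool.Agent.GG38

open Finset Classical

noncomputable section

theorem cleanA (hC : StmtClean) : StmtCleanA := by
  intro ι L E0 κ K R E hS w s δ lg M hM hw hs hlg ih hδ hδw hbig
  have c1 : ∀ k ∈ K, ∀ b ∈ B (Esw (E k)),
      ((A (Esw (E k))).filter (fun a => L.rev.Meet (Rrev (R k)) a b)).card ≤ w := by
    intro k hk b hb
    rw [B_Esw] at hb
    rw [A_Esw]
    refine le_trans (Finset.card_le_card ?_) (hw k hk b hb)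
    intro a ha
    rw [Finset.mem_filter] at ha ⊢
    refine ⟨ha.1, ?_⟩
    rw [Lines.rev_Meet] at ha
    have hv := (hS.ok k hk).sep b hb a ha.1
    exact (L.Meet_comm hv.ne').1 ha.2
  have c4 : ∀ E' ⊆ Esw E0, (A E').card ≤ w → (B E').card ≤ w →
      (E'.card : ℝ) ≤ M * L.rev.nu E' := by
    intro E' hE' hA hB
    have hsub : Esw E' ⊆ E0 := by
      have := Esw_mono hE'
      rwa [Esw_Esw] at this
    have h1 := ih (Esw E') hsub (by rw [A_Esw]; exact hB) (by rw [B_Esw]; exact hA)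
    rw [card_Esw] at h1
    have h2 := L.nu_rev (Esw E')
    rw [Esw_Esw] at h2
    rw [h2]
    exact h1
  have c5 : 8 * (lg : ℝ) * s * M * L.rev.nu (Esw E0) ≤
      δ * tot K (fun k => Esw (E k)) := by
    rw [L.nu_rev, tot_Esw]
    exact hbig
  obtain ⟨E', h1, h2, h3⟩ := hC ι L.rev (Esw E0) κ K (fun k => Rrev (R k))
    (fun k => Esw (E k)) hS.rev w s δ lg M hM c1 (by rw [B_Esw]; exact hs)
    (by rw [A_Esw]; exact hlg) c4 hδ hδw c5
  refine ⟨fun k => Esw (E' k), ?_, ?_, ?_⟩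
  · intro k hk
    have := Esw_mono (h1 k hk)
    rwa [Esw_Esw] at this
  · rw [tot_Esw]
    rw [tot_Esw] at h2
    exact h2
  · intro k hk a ha
    rw [A_Esw] at ha
    have h4 := h3 k hk a ha
    rw [rev_cr] at h4
    rw [A_Esw]
    exact h4

end

end Pool.Agent.GG38
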