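import Pool.Agent.Lib.MP_38fd99_co.Spec

/-! The core estimate: from the balanced system and the rounds. -/

set_option autoImplicit false

namespace Pool.Agent.GG38

open Finset Classical

namespace Core

/-- pigeonhole -/
theorem pigeon (J : ℕ) (hJ : 2 ≤ J) (T : ℕ) (f : ℕ → ℕ) (h : T = ∑ j ∈ Finset.Icc 1 (J - 1), f j) :
    ∃ j, 1 ≤ j ∧ j ≤ J - 1 ∧ T ≤ J * f j := by
  by_contra hcon
  push Not at hcon
  have h1 : ∑ j ∈ Finset.Icc 1 (J - 1), J * f j ≤ ∑ _j ∈ Finset.Icc 1 (J - 1), T := by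
    apply Finset.sum_le_sum
    intro j hj
    rw [Finset.mem_Icc] at hj
    exact (hcon j hj.1 hj.2).le
  rw [← Finset.mul_sum, ← h, Finset.sum_const, Nat.card_Icc, smul_eq_mul] at h1
  have h2 := hcon 1 le_rfl (by omega)
  obtain ⟨n, rfl⟩ : ∃ n, J = n + 1 := ⟨J - 1, by omega⟩
  have h3 : n + 1 - 1 + 1 - 1 = n := by omega
  rw [h3] at h1
  nlinarith

theorem num1 (J lg r j : ℕ) (hJ : 1 ≤ J) (hlg : 1 ≤ lg) (c : ℕ) (hc : c ≤ 192) (hj : j ≤ J)
    (big : (400 * J * lg) ^ (2 * J + 8) ≤ r) : 384 * lg ^ 3 * J * (c * lg ^ 2) ^ j ≤ r := by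
  have hx : 1 ≤ 400 * J * lg := by
    have : 0 < 400 * J * lg := by positivity
    omega
  have hJ3 : J ≤ J ^ 3 := by
    calc J = J ^ 1 := (pow_one J).symm
      _ ≤ J ^ 3 := Nat.pow_le_pow_right hJ (by norm_num)
  have hJ2 : 1 ≤ J ^ 2 := Nat.one_le_pow _ _ hJ
  have h1 : 384 * lg ^ 3 * J ≤ (400 * J * lg) ^ 3 := by
    calc 384 * lg ^ 3 * J ≤ 64000000 * lg ^ 3 * J ^ 3 := by
          apply Nat.mul_le_mul _ hJ3
          apply Nat.mul_le_mul_right
          norm_num
      _ = (400 * J * lg) ^ 3 := by ring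
  have h2 : c * lg ^ 2 ≤ (400 * J * lg) ^ 2 := by
    calc c * lg ^ 2 ≤ 160000 * lg ^ 2 * 1 := by
          rw [mul_one]
          apply Nat.mul_le_mul_right
          omega
      _ ≤ 160000 * lg ^ 2 * J ^ 2 := Nat.mul_le_mul_left _ hJ2
      _ = (400 * J * lg) ^ 2 := by ring
  calc 384 * lg ^ 3 * J * (c * lg ^ 2) ^ j ≤ (400 * J * lg) ^ 3 * ((400 * J * lg) ^ 2) ^ j :=
        Nat.mul_le_mul h1 (Nat.pow_le_pow_left h2 j)
    _ = (400 * J * lg) ^ (2 * j + 3) := by rw [← pow_mul, ← pow_add]; congr 1; ring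
    _ ≤ (400 * J * lg) ^ (2 * J + 8) := Nat.pow_le_pow_right hx (by omega)
    _ ≤ r := big

end Core

theorem core (hT : StmtTop) (hR : StmtRounds) : StmtCore := by
  intro ι L E0 r s lg J q M ctx
  obtain ⟨κ, K, R, E, hS, hsz, hcard, hsum⟩ := hT ι L E0 r s lg J q M ctx
  have hJ3 := ctx.J3
  have hlg : 1 ≤ lg := by
    by_contra h
    have h0 : lg = 0 := by omega
    have h1 := ctx.lg2
    have h2 := ctx.s1
    rw [h0] at h1
    simp at h1
    omega
  have hr : 1 ≤ r := by
    refine le_trans ?_ ctx.big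
    apply Nat.one_le_pow
    have : 0 < J := by omega
    positivity
  -- the level of a cell
  set m : κ → ℕ := fun k => max (A (E k)).card (B (E k)).card with hm
  have hex : ∀ k, ∃ j, k ∈ K → (1 ≤ j ∧ j ≤ J - 1 ∧ m k ≤ r ^ j ∧ (1 < j → r ^ (j - 1) < m k)) := by
    intro k
    by_cases hk : k ∈ K
    · have h1 : ∃ j, 1 ≤ j ∧ m k ≤ r ^ j :=
        ⟨J - 1, by omega, max_le (hsz k hk).1 (hsz k hk).2⟩
      refine ⟨Nat.find h1, fun _ => ⟨(Nat.find_spec h1).1, ?_, (Nat.find_spec h1).2, ?_⟩⟩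
      · exact Nat.find_min' h1 ⟨by omega, max_le (hsz k hk).1 (hsz k hk).2⟩
      · intro h2
        have h3 := Nat.find_min h1 (m := Nat.find h1 - 1) (by omega)
        push Not at h3
        exact h3 (by omega)
    · exact ⟨0, fun h => absurd h hk⟩
  choose lv hlv using hex
  set K' : ℕ → Finset κ := fun j => K.filter (fun k => lv k = j ∧ (E k).Nonempty) with hK'
  have hsubK : ∀ j, K' j ⊆ K := fun j => Finset.filter_subset _ _
  have htot : tot K E = ∑ j ∈ Finset.Icc 1 (J - 1), tot (K' j) E := by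
    unfold tot
    have h1 : ∀ j, ∑ k ∈ K' j, (E k).card = ∑ k ∈ K, if lv k = j then (E k).card else 0 := by
      intro j
      rw [hK', Finset.sum_filter]
      apply Finset.sum_congr rfl
      intro k _
      by_cases h2 : lv k = j
      · by_cases h3 : (E k).Nonempty
        · simp [h2, h3]
        · rw [Finset.not_nonempty_iff_eq_empty] at h3
          simp [h3]
      · simp [h2]
    simp only [h1]
    rw [Finset.sum_comm]
    apply Finset.sum_congr rfl
    intro k hk
    rw [Finset.sum_ite_eq]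
    have h2 := hlv k hk
    rw [if_pos (Finset.mem_Icc.2 ⟨h2.1, h2.2.1⟩)]
  obtain ⟨j, hj1, hj2, hj⟩ := Core.pigeon J (by omega) _ _ htot
  -- the system of level `j`
  have hS' : Sys L E0 (K' j) R E :=
    ⟨fun k hk => hS.sub k (hsubK j hk), fun k hk => hS.ok k (hsubK j hk),
      fun k hk l hl hkl => hS.disj k (hsubK j hk) l (hsubK j hl) hkl⟩
  have hmem : ∀ k ∈ K' j, k ∈ K ∧ lv k = j ∧ (E k).Nonempty := by
    intro k hk
    exact Finset.mem_filter.1 hk
  have hE0 : E0.card ≤ 384 * lg ^ 3 * J * tot (K' j) E := by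
    calc E0.card ≤ 384 * lg ^ 3 * tot K E := hcard
      _ ≤ 384 * lg ^ 3 * (J * tot (K' j) E) := Nat.mul_le_mul_left _ hj
      _ = _ := by ring
  have hP : 1 ≤ 384 * lg ^ 3 * J := by
    have : 0 < J := by omega
    have : 0 < 384 * lg ^ 3 * J := by positivity
    omega
  have hround := hR ι L E0 r s lg J q M ctx j (384 * lg ^ 3 * J) hj1 (by omega) hP
    (Core.num1 J lg r j (by omega) hlg 64 (by norm_num) (by omega) ctx.big) κ (K' j) R E hS'
    (by
      intro k hk
      obtain ⟨h1, h2, -⟩ := hmem k hk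
      have h3 := (hlv k h1).2.2.1
      rw [h2] at h3
      exact ⟨(le_max_left _ _).trans h3, (le_max_right _ _).trans h3⟩)
    hE0
  -- the number of cells of level `j`
  have hnum : (K' j).card * r ^ (j - 1) ≤ s * r ^ (q + 2) := by
    calc (K' j).card * r ^ (j - 1) = ∑ _k ∈ K' j, r ^ (j - 1) := by
          rw [Finset.sum_const, smul_eq_mul]
      _ ≤ ∑ k ∈ K' j, ((A (E k)).card + (B (E k)).card) := by
          apply Finset.sum_le_sum
          intro k hk
          obtain ⟨h1, h2, h3⟩ := hmem k hk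
          have h4 : m k ≤ (A (E k)).card + (B (E k)).card := by
            apply max_le <;> omega
          refine le_trans ?_ h4
          rcases Nat.lt_or_ge 1 j with h5 | h5
          · have h6 := (hlv k h1).2.2.2
            rw [h2] at h6
            exact (h6 h5).le
          · have h6 : j - 1 = 0 := by omega
            rw [h6, pow_zero]
            obtain ⟨p, hp⟩ := h3
            exact le_trans (Finset.card_pos.2 ⟨p.1, fst_mem_A hp⟩) (le_max_left _ _)
      _ ≤ ∑ k ∈ K, ((A (E k)).card + (B (E k)).card) :=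
          Finset.sum_le_sum_of_subset (hsubK j)
      _ ≤ s * r ^ (q + 2) := hsum
  have hnu : ∑ k ∈ K' j, L.nu (E k) ≤ (K' j).card * L.nu E0 := by
    calc ∑ k ∈ K' j, L.nu (E k) ≤ ∑ _k ∈ K' j, L.nu E0 := by
          apply Finset.sum_le_sum
          intro k hk
          exact L.nu_mono (hS.sub k (hsubK j hk))
      _ = _ := by rw [Finset.sum_const, smul_eq_mul]
  have hjj : r ^ (j + 1) = r ^ 2 * r ^ (j - 1) := by
    rw [← pow_add]
    congr 1
    omega
  calc E0.card ≤ 384 * lg ^ 3 * J * tot (K' j) E := hE0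
    _ ≤ 384 * lg ^ 3 * J * ((192 * lg ^ 2) ^ (j - 1) * r ^ (j + 1) *
          ((K' j).card * L.nu E0)) :=
        Nat.mul_le_mul_left _ (hround.trans (Nat.mul_le_mul_left _ hnu))
    _ = (384 * lg ^ 3 * J * (192 * lg ^ 2) ^ (j - 1)) *
          (r ^ 2 * ((K' j).card * r ^ (j - 1)) * L.nu E0) := by
        rw [hjj]; ring
    _ ≤ r * (r ^ 2 * (s * r ^ (q + 2)) * L.nu E0) := by
        apply Nat.mul_le_mul
        · exact Core.num1 J lg r (j - 1) (by omega) hlg 192 le_rfl (by omega) ctx.big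
        · exact Nat.mul_le_mul_right _ (Nat.mul_le_mul_left _ hnum)
    _ = s * r ^ (q + 5) * L.nu E0 := by ring

end Pool.Agent.GG38
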