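import Pool.Agent.Lib.MP_38fd99_co.Spec

/-! Cutting along the slow lines, by time reversal. -/

set_option autoImplicit false

namespace Pool.Agent.GG38

open Finset Classical

namespace CutA

variable {ι : Type}

theorem blocks_rev {L : Lines ι} {R : Set (ℝ × ℝ)} {E : Finset (ι × ι)} {l : ℕ} {x : ι → ℕ}
    (h : Blocks (A E) (L.Lt R) l x) : Blocks (B (Esw E)) (L.rev.Lt (Rrev R)) l x := by
  rw [B_Esw]
  exact ⟨fun b hb c hc hbc => (L.rev_Lt R b c).2 (h.lt b hb c hc hbc), h.le, h.full⟩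

theorem Esw_filter (E : Finset (ι × ι)) (x : ι → ℕ) (j : ℕ) :
    Esw ((Esw E).filter (fun p => x p.2 = j)) = E.filter (fun p => x p.1 = j) := by
  ext p
  rw [mem_Esw, Finset.mem_filter, Finset.mem_filter, mem_Esw]

theorem image_eq (E : Finset (ι × ι)) (x : ι → ℕ) (b : ι) :
    ((Esw E).filter (fun p => p.1 = b)).image (fun p => x p.2) =
      (E.filter (fun p => p.2 = b)).image (fun p => x p.1) := by
  ext n
  simp only [Finset.mem_image, Finset.mem_filter]
  constructor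
  · rintro ⟨p, ⟨h1, h2⟩, h3⟩
    exact ⟨(p.2, p.1), ⟨mem_Esw.1 h1, h2⟩, h3⟩
  · rintro ⟨p, ⟨h1, h2⟩, h3⟩
    exact ⟨(p.2, p.1), ⟨mem_Esw.2 h1, h2⟩, h3⟩

end CutA

open CutA

theorem cutA (h1 : StmtCutB1) (h3 : StmtCutB3) : StmtCutA := by
  intro ι L R E hc l x hl hB
  have hr := hc.rev
  have hBr := blocks_rev hB
  refine ⟨fun j => ?_, fun i b hb => ?_⟩
  · have h4 := (h1 ι L.rev (Rrev R) (Esw E) hr l x hl hBr j).rev
    rw [Esw_filter, Lines.rev_rev, Rrev_inter, Rrev_Rrev, rev_bstrip, Rrev_Rrev, B_Esw] at h4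
    exact h4
  · have h4 := h3 ι L.rev (Rrev R) (Esw E) hr l x hl hBr i b (by rw [A_Esw]; exact hb)
    rw [image_eq, B_Esw] at h4
    simp only [Lines.rev_Meet] at h4
    exact h4

end Pool.Agent.GG38
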