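import Pool.Agent.Lib.MP_38fd99_co.Spec

/-! Cutting along both families, (a). -/

set_option autoImplicit false

namespace Pool.Agent.GG38

open Finset Classical

theorem cutAB1 (hI : StmtInhA) (hC : StmtCutB1) : StmtCutAB1 := by
  intro ι L R E hcell l xA xB hl hA hB z
  have h1 := hC ι L R E hcell l xB hl hB z.2
  have hsub : cutE E xA xB z ⊆ E.filter (fun p => xB p.2 = z.2) := by
    intro p hp
    have hp' := Finset.mem_filter.1 hp
    exact Finset.mem_filter.2 ⟨hp'.1, hp'.2.2⟩
  have hsub' : cutE E xA xB z ⊆ E := Finset.filter_subset _ _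
  have h2 := hI ι L (R ∩ bstrip L (B E) xB z.2) (E.filter (fun p => xB p.2 = z.2))
    (cutE E xA xB z) ((A E).filter (fun σ => xA σ + 2 ≤ z.1))
    ((A E).filter (fun σ => z.1 + 2 ≤ xA σ)) h1 hsub ?_ ?_
  · have e : cutR L R E xA xB z = (R ∩ bstrip L (B E) xB z.2) ∩
        L.strip ((A E).filter (fun σ => xA σ + 2 ≤ z.1))
          ((A E).filter (fun σ => z.1 + 2 ≤ xA σ)) := by
      unfold cutR
      rw [Set.inter_comm (bstrip L (A E) xA z.1), Set.inter_assoc]
      rfl
    rw [e]
    exact h2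
  · intro σ hσ b hb
    have hσA : σ ∈ A E := by
      rcases Finset.mem_union.1 hσ with h | h
      · exact (Finset.mem_filter.1 h).1
      · exact (Finset.mem_filter.1 h).1
    exact hcell.sep σ hσA b (B_mono hsub' hb)
  · intro a ha t ht
    have haA : a ∈ A E := A_mono hsub' ha
    have hxa : xA a = z.1 := by
      obtain ⟨b, hb⟩ := mem_A.1 ha
      exact (Finset.mem_filter.1 hb).2.1
    have ht' : t ∈ L.I R a := L.I_mono Set.inter_subset_left a ht
    refine ⟨fun σ hσ => ?_, fun σ hσ => ?_⟩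
    · obtain ⟨hσA, hσx⟩ := Finset.mem_filter.1 hσ
      exact hA.lt σ hσA a haA (by omega) t (Or.inr ht')
    · obtain ⟨hσA, hσx⟩ := Finset.mem_filter.1 hσ
      exact hA.lt a haA σ hσA (by omega) t (Or.inl ht')

end Pool.Agent.GG38
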