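import Pool.Agent.Lib.MP_38fd99_co.Spec

/-!
# Cutting along both families, (b)
-/

set_option autoImplicit false

namespace Pool.Agent.GG38

open Finset Classical

namespace CutAB2

variable {ι : Type}

theorem disj_of_ne (hD : StmtCutDisj) (L : Lines ι) (V : Finset ι) (lt : ι → ι → Prop) (l : ℕ)
    (x : ι → ℕ) (hl : 1 ≤ l) (hB : Blocks V lt l x) {j j' i : ℕ} (hj : j % 4 = i)
    (hj' : j' % 4 = i) (hne : j ≠ j') (h : ∃ b ∈ V, x b = j) (h' : ∃ b ∈ V, x b = j') :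
    Disjoint (bstrip L V x j) (bstrip L V x j') := by
  rcases Nat.lt_or_gt_of_ne hne with h1 | h1
  · exact hD ι L V lt l x hl hB j j' (by omega) h'
  · exact (hD ι L V lt l x hl hB j' j (by omega) h).symm

end CutAB2

open CutAB2 in
theorem cutAB2 (hD : StmtCutDisj) : StmtCutAB2 := by
  intro ι L R E l xA xB hl hA hB i i' z hz z' hz' hne
  unfold cutJ at hz hz'
  rw [Finset.mem_filter, Finset.mem_image] at hz hz'
  obtain ⟨⟨p, hp, hpz⟩, hz1, hz2⟩ := hz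
  obtain ⟨⟨p', hp', hpz'⟩, hz1', hz2'⟩ := hz'
  subst hpz
  subst hpz'
  unfold cutR
  by_cases h1 : xA p.1 = xA p'.1
  · have h2 : xB p.2 ≠ xB p'.2 := fun h2 => hne (Prod.ext h1 h2)
    have h3 := disj_of_ne hD L (B E) (L.Lt R) l xB hl hB hz2 hz2' h2
      ⟨p.2, snd_mem_B hp, rfl⟩ ⟨p'.2, snd_mem_B hp', rfl⟩
    exact h3.mono (fun q hq => hq.2.2) (fun q hq => hq.2.2)
  · have h3 := disj_of_ne hD L (A E) (L.Lt R) l xA hl hA hz1 hz1' h1
      ⟨p.1, fst_mem_A hp, rfl⟩ ⟨p'.1, fst_mem_A hp', rfl⟩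
    exact h3.mono (fun q hq => hq.2.1) (fun q hq => hq.2.1)

end Pool.Agent.GG38
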