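import Pool.Agent.Lib.MP_38fd99_co.Spec

/-!
# Cutting along both families: the diagonals
-/

set_option autoImplicit false

namespace Pool.Agent.GG38

open Finset Classical

namespace CutAB3

theorem block_le {α : Type} {V : Finset α} {lt : α → α → Prop} {l r : ℕ} {x : α → ℕ} (hl : 1 ≤ l)
    (hb : Blocks V lt l x) (hV : V.card ≤ r * l) : ∀ c ∈ V, x c ≤ r := by
  intro c hc
  have h1 : ∑ j ∈ Finset.range (x c), (V.filter (fun b => x b = j)).card = x c * l := by
    rw [Finset.sum_congr rfl (fun j hj => hb.full c hc j (Finset.mem_range.1 hj))]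
    simp
  have h2 : ∑ j ∈ Finset.range (x c), (V.filter (fun b => x b = j)).card ≤ V.card := by
    have h3 : ∑ j ∈ Finset.range (x c), (V.filter (fun b => x b = j)).card =
        ((Finset.range (x c)).biUnion (fun j => V.filter (fun b => x b = j))).card := by
      rw [Finset.card_biUnion]
      intro i _ j _ hij
      show Disjoint (V.filter (fun b => x b = i)) (V.filter (fun b => x b = j))
      rw [Finset.disjoint_left]
      intro b hb1 hb2
      exact hij ((Finset.mem_filter.1 hb1).2.symm.trans (Finset.mem_filter.1 hb2).2)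
    rw [h3]
    apply Finset.card_le_card
    intro b hb1
    obtain ⟨j, _, hj⟩ := Finset.mem_biUnion.1 hb1
    exact (Finset.mem_filter.1 hj).1
  have h4 : x c * l ≤ r * l := by
    rw [← h1]
    exact h2.trans hV
  exact Nat.le_of_mul_le_mul_right h4 hl

theorem below {ι : Type} {L : Lines ι} {R : Set (ℝ × ℝ)} {E : Finset (ι × ι)}
    (hc : CellOK L R E) {l : ℕ} {xA xB : ι → ℕ} (bA : Blocks (A E) (L.Lt R) l xA)
    (bB : Blocks (B E) (L.Lt R) l xB) {z z' : ℕ × ℕ} (h1 : z.1 + 2 ≤ z'.1) (h2 : z.2 + 2 ≤ z'.2)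
    {p p' : ι × ι} (hp : p ∈ cutE E xA xB z) (hp' : p' ∈ cutE E xA xB z') : L.Below p p' := by
  obtain ⟨hpE, hp1, hp2⟩ := Finset.mem_filter.1 hp
  obtain ⟨hpE', hp1', hp2'⟩ := Finset.mem_filter.1 hp'
  have hv : L.v p.1 ≠ L.v p.2 := (hc.sep _ (fst_mem_A hpE) _ (snd_mem_B hpE)).ne
  have hm := hc.mem p hpE
  have t1 : L.tm p.1 p.2 ∈ L.I R p.1 := L.mem_I_of_Meet hm
  have t2 : L.tm p.1 p.2 ∈ L.I R p.2 := L.mem_I_of_Meet' hv hm
  have e : L.H p.1 (L.tm p.1 p.2) = L.H p.2 (L.tm p.1 p.2) := L.H_tm hv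
  have la := bA.lt p.1 (fst_mem_A hpE) p'.1 (fst_mem_A hpE') (by omega) _ (Or.inl t1)
  have lb := bB.lt p.2 (snd_mem_B hpE) p'.2 (snd_mem_B hpE') (by omega) _ (Or.inl t2)
  exact ⟨L.tm p.1 p.2, la, by rw [e]; exact lb, by rw [← e]; exact la, lb⟩

end CutAB3

theorem cutAB3 : StmtCutAB3 := by
  intro ι L R E hc l r xA xB hl bA bB cA cB i i'
  have hle : ∀ z ∈ cutJ E xA xB i i', z.1 ≤ r ∧ z.2 ≤ r := by
    intro z hz
    obtain ⟨hz1, _⟩ := Finset.mem_filter.1 hz
    obtain ⟨p, hp, rfl⟩ := Finset.mem_image.1 hz1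
    exact ⟨CutAB3.block_le hl bA cA _ (fst_mem_A hp), CutAB3.block_le hl bB cB _ (snd_mem_B hp)⟩
  have hmaps : ∀ z ∈ cutJ E xA xB i i', z.2 + r - z.1 ∈ Finset.range (2 * r + 1) := by
    intro z hz
    have := hle z hz
    rw [Finset.mem_range]
    omega
  rw [← Finset.sum_fiberwise_of_maps_to hmaps]
  have hgroup : ∀ d ∈ Finset.range (2 * r + 1),
      ∑ z ∈ (cutJ E xA xB i i').filter (fun z => z.2 + r - z.1 = d), L.nu (cutE E xA xB z) ≤
        L.nu E := by
    intro d _
    apply L.sum_nu_le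
    · intro z _
      exact Finset.filter_subset _ _
    · intro z hz z' hz' hne p hp p' hp'
      obtain ⟨hzJ, hzd⟩ := Finset.mem_filter.1 hz
      obtain ⟨hzJ', hzd'⟩ := Finset.mem_filter.1 hz'
      have l1 := hle z hzJ
      have l2 := hle z' hzJ'
      have m1 := (Finset.mem_filter.1 hzJ).2
      have m2 := (Finset.mem_filter.1 hzJ').2
      rcases lt_trichotomy z.1 z'.1 with h | h | h
      · exact Or.inl (CutAB3.below hc bA bB (by omega) (by omega) hp hp')
      · exact absurd (Prod.ext h (by omega)) hne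
      · exact Or.inr (CutAB3.below hc bA bB (by omega) (by omega) hp' hp)
  refine (Finset.sum_le_sum hgroup).trans ?_
  simp

end Pool.Agent.GG38
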