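import Pool.Agent.Lib.MP_38fd99_co.Spec

/-!
# MP_38fd99_co : cutting along both families, pigeonhole
-/

set_option autoImplicit false

namespace Pool.Agent.GG38

open Finset Classical

namespace CutAB4

theorem card_class {ι : Type} (E : Finset (ι × ι)) (xA xB : ι → ℕ) (i i' : ℕ) :
    (E.filter (fun p => (xA p.1 % 4, xB p.2 % 4) = (i, i'))).card =
      ∑ z ∈ cutJ E xA xB i i', (cutE E xA xB z).card := by
  rw [Finset.card_eq_sum_card_fiberwise (f := fun p : ι × ι => (xA p.1, xB p.2))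
    (t := cutJ E xA xB i i')]
  · refine Finset.sum_congr rfl fun z hz => ?_
    congr 1
    ext p
    simp only [cutE, Finset.mem_filter, cutJ, Finset.mem_image, Prod.mk.injEq] at hz ⊢
    constructor
    · rintro ⟨⟨h1, h2, h3⟩, h4⟩
      exact ⟨h1, by rw [← h4], by rw [← h4]⟩
    · rintro ⟨h1, h2, h3⟩
      refine ⟨⟨h1, ?_, ?_⟩, ?_⟩
      · rw [h2]; exact hz.2.1
      · rw [h3]; exact hz.2.2
      · exact Prod.ext h2 h3
  · intro p hp
    have hp' := Finset.mem_filter.1 (Finset.mem_coe.1 hp)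
    simp only [Prod.mk.injEq] at hp'
    simp only [Finset.coe_filter, cutJ, Set.mem_setOf_eq, Finset.mem_image]
    exact ⟨⟨p, hp'.1, rfl⟩, hp'.2.1, hp'.2.2⟩

end CutAB4

theorem cutAB4 : StmtCutAB4 := by
  intro ι E xA xB
  by_contra hcon
  push Not at hcon
  have h1 : E.card = ∑ c ∈ Finset.range 4 ×ˢ Finset.range 4,
      (E.filter (fun p => (xA p.1 % 4, xB p.2 % 4) = c)).card := by
    refine Finset.card_eq_sum_card_fiberwise (f := fun p : ι × ι => (xA p.1 % 4, xB p.2 % 4)) ?_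
    intro p _
    simp only [Finset.coe_product, Finset.coe_range, Set.mem_prod, Set.mem_Iio]
    exact ⟨Nat.mod_lt _ (by norm_num), Nat.mod_lt _ (by norm_num)⟩
  have h2 : 16 * ∑ c ∈ Finset.range 4 ×ˢ Finset.range 4,
      (E.filter (fun p => (xA p.1 % 4, xB p.2 % 4) = c)).card <
      ∑ c ∈ Finset.range 4 ×ˢ Finset.range 4, E.card := by
    rw [Finset.mul_sum]
    refine Finset.sum_lt_sum_of_nonempty ⟨(0, 0), by simp⟩ fun c _ => ?_
    obtain ⟨i, i'⟩ := c
    rw [CutAB4.card_class E xA xB i i']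
    exact hcon i i'
  rw [← h1] at h2
  simp at h2

end Pool.Agent.GG38
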