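import Pool.Agent.Lib.MP_38fd99_co.Spec

set_option autoImplicit false

namespace Pool.Agent.GG38

open Finset Classical

namespace CutB3

variable {ι : Type}

/-- a fast line between two blocks visited by a slow line meets the slow line -/
theorem meet (L : Lines ι) (R : Set (ℝ × ℝ)) (E : Finset (ι × ι)) (hC : CellOK L R E)
    {a b b' σ : ι} (hb : (a, b) ∈ E) (hb' : (a, b') ∈ E) (hσ : σ ∈ B E)
    (h1 : L.Lt R b σ) (h2 : L.Lt R σ b') : L.Meet R a σ := by
  have ha : a ∈ A E := fst_mem_A hb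
  have hbB : b ∈ B E := snd_mem_B hb
  have hbB' : b' ∈ B E := snd_mem_B hb'
  have v1 := hC.sep a ha b hbB
  have v2 := hC.sep a ha b' hbB'
  have v3 := hC.sep a ha σ hσ
  have m1 : L.Meet R a b := hC.mem _ hb
  have m2 : L.Meet R a b' := hC.mem _ hb'
  have t1 : L.tm a b ∈ L.I R a := L.mem_I_of_Meet m1
  have t2 : L.tm a b' ∈ L.I R a := L.mem_I_of_Meet m2
  have t1' : L.tm a b ∈ L.I R b := L.mem_I_of_Meet' v1.ne m1
  have t2' : L.tm a b' ∈ L.I R b' := L.mem_I_of_Meet' v2.ne m2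
  have e1 : L.H b (L.tm a b) < L.H σ (L.tm a b) := h1 _ (Or.inl t1')
  have e2 : L.H σ (L.tm a b') < L.H b' (L.tm a b') := h2 _ (Or.inr t2')
  rw [← L.H_tm v1.ne] at e1
  rw [← L.H_tm v2.ne] at e2
  have f1 : L.tm a σ < L.tm a b := (L.lt_iff v3 _).1 e1
  have f2 : L.tm a b' < L.tm a σ := (L.gt_iff v3 _).1 e2
  have h3 : L.tm a σ ∈ L.I R a :=
    (hC.conn a (Finset.mem_union_left _ ha)).out t2 t1 ⟨f2.le, f1.le⟩
  exact h3

end CutB3

theorem cutB3 : StmtCutB3 := by
  intro ι L R E hC l x hl hx i a ha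
  set J : Finset ℕ := ((E.filter (fun p => p.1 = a)).image (fun p => x p.2)).filter
    (fun j => j % 4 = i) with hJ
  set T : Finset ι := (B E).filter (fun b => L.Meet R a b) with hT
  rcases J.eq_empty_or_nonempty with h0 | h0
  · rw [h0]; simp
  have hmem : ∀ j ∈ J, j % 4 = i ∧ ∃ b, (a, b) ∈ E ∧ x b = j := by
    intro j hj
    rw [hJ, Finset.mem_filter, Finset.mem_image] at hj
    obtain ⟨⟨p, hp, hpj⟩, hji⟩ := hj
    rw [Finset.mem_filter] at hp
    obtain ⟨hp1, hp2⟩ := hp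
    refine ⟨hji, p.2, ?_, hpj⟩
    rw [← hp2]
    exact hp1
  set m : ℕ := J.max' h0 with hm
  have hmJ : m ∈ J := J.max'_mem h0
  obtain ⟨hmi, b', hb', hxb'⟩ := hmem m hmJ
  have hsub : (J.erase m).biUnion (fun j => (B E).filter (fun b => x b = j + 2)) ⊆ T := by
    intro σ hσ
    rw [Finset.mem_biUnion] at hσ
    obtain ⟨j, hj, hσj⟩ := hσ
    rw [Finset.mem_erase] at hj
    rw [Finset.mem_filter] at hσj
    obtain ⟨hjm, hjJ⟩ := hj
    obtain ⟨hσB, hxσ⟩ := hσj
    obtain ⟨hji, b, hb, hxb⟩ := hmem j hjJ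
    have hlt : j < m := lt_of_le_of_ne (J.le_max' j hjJ) hjm
    have h4 : j + 4 ≤ m := by omega
    rw [hT, Finset.mem_filter]
    refine ⟨hσB, CutB3.meet L R E hC hb hb' hσB ?_ ?_⟩
    · exact hx.lt b (snd_mem_B hb) σ hσB (by omega)
    · exact hx.lt σ hσB b' (snd_mem_B hb') (by omega)
  have hcard : ((J.erase m).biUnion (fun j => (B E).filter (fun b => x b = j + 2))).card =
      (J.card - 1) * l := by
    rw [Finset.card_biUnion]
    · rw [Finset.sum_congr rfl (g := fun _ => l), Finset.sum_const, Finset.card_erase_of_mem hmJ,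
        smul_eq_mul]
      intro j hj
      rw [Finset.mem_erase] at hj
      obtain ⟨hjm, hjJ⟩ := hj
      obtain ⟨hji, b, hb, hxb⟩ := hmem j hjJ
      have hlt : j < m := lt_of_le_of_ne (J.le_max' j hjJ) hjm
      exact hx.full b' (snd_mem_B hb') (j + 2) (by omega)
    · intro j _ k _ hjk
      rw [Function.onFun, Finset.disjoint_left]
      intro b hb hb2
      rw [Finset.mem_filter] at hb hb2
      exact hjk (by omega)
  have hle := Finset.card_le_card hsub
  rw [hcard] at hle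
  have hJpos : 1 ≤ J.card := Finset.card_pos.2 h0
  have h5 : l * J.card = (J.card - 1) * l + l := by
    obtain ⟨n, hn⟩ : ∃ n, J.card = n + 1 := ⟨J.card - 1, by omega⟩
    rw [hn, Nat.add_sub_cancel]
    ring
  rw [h5]
  omega

end Pool.Agent.GG38
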