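import Pool.Agent.Lib.MP_38fd99_co.Spec

set_option autoImplicit false

namespace Pool.Agent.GG38

open Finset Classical

theorem cutDisj : StmtCutDisj := by
  intro ι L V lt l x hl hB j j' hj hb
  obtain ⟨b, hb, hxb⟩ := hb
  have h1 : (V.filter (fun c => x c = j + 2)).card = l := hB.full b hb (j + 2) (by omega)
  have h2 : (V.filter (fun c => x c = j + 2)).Nonempty := by
    rw [← Finset.card_pos, h1]
    omega
  obtain ⟨σ, hσ⟩ := h2
  obtain ⟨hσV, hσx⟩ := Finset.mem_filter.1 hσ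
  rw [Set.disjoint_left]
  rintro p ⟨-, h3⟩ ⟨h4, -⟩
  have h5 := h3 σ (Finset.mem_filter.2 ⟨hσV, by omega⟩)
  have h6 := h4 σ (Finset.mem_filter.2 ⟨hσV, by omega⟩)
  exact lt_asymm h5 h6

end Pool.Agent.GG38
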