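import Pool.Agent.Lib.MP_38fd99_co.Spec

/-! Weighted count of crossings: `StmtFanSum`. -/

set_option autoImplicit false

namespace Pool.Agent.GG38

open Finset Classical

namespace FanSum

variable {ι : Type}

theorem card_filter_ge (E : Finset (ι × ι)) (W : Finset ι) (m : ℕ)
    (h : ∀ c ∈ W, m ≤ degB E c) : m * W.card ≤ (E.filter (fun p => p.2 ∈ W)).card := by
  have h1 : (E.filter (fun p => p.2 ∈ W)).card =
      ∑ c ∈ W, ((E.filter (fun p => p.2 ∈ W)).filter (fun p => p.2 = c)).card := by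
    apply Finset.card_eq_sum_card_fiberwise
    intro p hp
    exact (Finset.mem_filter.1 (Finset.mem_coe.1 hp)).2
  rw [h1, mul_comm, ← smul_eq_mul]
  apply Finset.card_nsmul_le_sum
  intro c hc
  refine (h c hc).trans ?_
  apply Finset.card_le_card
  intro p hp
  have := Finset.mem_filter.1 hp
  refine Finset.mem_filter.2 ⟨Finset.mem_filter.2 ⟨this.1, ?_⟩, this.2⟩
  rw [this.2]
  exact hc

end FanSum

open FanSum in
theorem fanSum (hFan : StmtFan) : StmtFanSum := by
  intro ι L E0 κ K R E hS w s M hM hw hs ih m hm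
  have key : ∀ b₀ ∈ B E0, ((∑ k ∈ K.filter (fun k => b₀ ∈ B (E k)),
      m k * min (slow L (R k) (E k) b₀).card w : ℕ) : ℝ) ≤ M * L.nu E0 := by
    intro b₀ hb₀
    have hex : ∀ k, ∃ W ⊆ slow L (R k) (E k) b₀,
        W.card = min (slow L (R k) (E k) b₀).card w := fun k =>
      Finset.exists_subset_card_eq (min_le_left _ _)
    choose W hW1 hW2 using hex
    let F : κ → Finset (ι × ι) := fun k =>
      if b₀ ∈ B (E k) then (E k).filter (fun p => p.2 ∈ W k) else ∅
    have hF1 : ∀ k, b₀ ∈ B (E k) → F k = (E k).filter (fun p => p.2 ∈ W k) := fun k hk => if_pos hk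
    have hF2 : ∀ k, b₀ ∉ B (E k) → F k = ∅ := fun k hk => if_neg hk
    have hslow : ∀ k, ∀ c ∈ W k, c ∈ B (E k) ∧ L.v c < L.v b₀ ∧ L.Meet (R k) b₀ c := by
      intro k c hc
      have := Finset.mem_filter.1 (hW1 k hc)
      exact ⟨this.1, this.2.1, this.2.2⟩
    have hsub : ∀ k, F k ⊆ E k := by
      intro k
      by_cases hk : b₀ ∈ B (E k)
      · rw [hF1 k hk]
        exact Finset.filter_subset _ _
      · rw [hF2 k hk]
        exact Finset.empty_subset _
    have hcond : ∀ k ∈ K, ∀ p ∈ F k, b₀ ∈ B (E k) ∧ L.v p.2 < L.v b₀ ∧ L.Meet (R k) b₀ p.2 := by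
      intro k _ p hp
      by_cases hk : b₀ ∈ B (E k)
      · rw [hF1 k hk] at hp
        have h2 := (Finset.mem_filter.1 hp).2
        exact ⟨hk, (hslow k _ h2).2.1, (hslow k _ h2).2.2⟩
      · rw [hF2 k hk] at hp
        exact absurd hp (Finset.notMem_empty p)
    have hfan := hFan ι L E0 κ K R E hS b₀ F (fun k _ => hsub k) hcond
    have hcard : ∀ k ∈ K.filter (fun k => b₀ ∈ B (E k)),
        ((m k * min (slow L (R k) (E k) b₀).card w : ℕ) : ℝ) ≤ M * L.nu (F k) := by
      intro k hk
      obtain ⟨hkK, hkb⟩ := Finset.mem_filter.1 hk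
      have h1 : m k * (W k).card ≤ (F k).card := by
        rw [hF1 k hkb]
        exact card_filter_ge (E k) (W k) (m k) (fun c hc => hm k hkK c (hslow k c hc).1)
      rw [hW2 k] at h1
      have hA : (A (F k)).card ≤ w := by
        refine le_trans (Finset.card_le_card ?_) (hw k hkK b₀ hkb)
        intro a ha
        obtain ⟨b, hab⟩ := mem_A.1 ha
        have hc := hcond k hkK _ hab
        refine Finset.mem_filter.2 ⟨A_mono (hsub k) ha, ?_⟩
        exact (hS.ok k hkK).cloB (a, b) (hsub k hab) b₀ hkb hc.2.1 hc.2.2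
      have hB : (B (F k)).card ≤ w := by
        refine le_trans (Finset.card_le_card (t := W k) ?_) ?_
        · intro b hb
          obtain ⟨a, hab⟩ := mem_B.1 hb
          rw [hF1 k hkb] at hab
          exact (Finset.mem_filter.1 hab).2
        · rw [hW2 k]
          exact min_le_right _ _
      have h2 := ih (F k) ((hsub k).trans (hS.sub k hkK)) hA hB
      exact le_trans (by exact_mod_cast h1) h2
    calc ((∑ k ∈ K.filter (fun k => b₀ ∈ B (E k)),
          m k * min (slow L (R k) (E k) b₀).card w : ℕ) : ℝ)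
        = ∑ k ∈ K.filter (fun k => b₀ ∈ B (E k)),
          ((m k * min (slow L (R k) (E k) b₀).card w : ℕ) : ℝ) := by push_cast; rfl
      _ ≤ ∑ k ∈ K.filter (fun k => b₀ ∈ B (E k)), M * (L.nu (F k) : ℝ) :=
          Finset.sum_le_sum hcard
      _ ≤ ∑ k ∈ K, M * (L.nu (F k) : ℝ) := by
          apply Finset.sum_le_sum_of_subset_of_nonneg (Finset.filter_subset _ _)
          intro k _ _
          positivity
      _ = M * ((∑ k ∈ K, L.nu (F k) : ℕ) : ℝ) := by
          rw [← Finset.mul_sum]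
          push_cast
          rfl
      _ ≤ M * L.nu E0 := by
          apply mul_le_mul_of_nonneg_left _ hM
          exact_mod_cast hfan
  have hswap : (∑ k ∈ K, m k * ∑ b ∈ B (E k), min (slow L (R k) (E k) b).card w : ℕ) =
      ∑ b ∈ B E0, ∑ k ∈ K.filter (fun k => b ∈ B (E k)),
        m k * min (slow L (R k) (E k) b).card w := by
    simp only [Finset.mul_sum]
    apply Finset.sum_comm'
    intro k b
    constructor
    · rintro ⟨hk, hb⟩
      exact ⟨Finset.mem_filter.2 ⟨hk, hb⟩, B_mono (hS.sub k hk) hb⟩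
    · rintro ⟨hk, -⟩
      exact ⟨(Finset.mem_filter.1 hk).1, (Finset.mem_filter.1 hk).2⟩
  rw [hswap]
  calc ((∑ b ∈ B E0, ∑ k ∈ K.filter (fun k => b ∈ B (E k)),
        m k * min (slow L (R k) (E k) b).card w : ℕ) : ℝ)
      = ∑ b ∈ B E0, ((∑ k ∈ K.filter (fun k => b ∈ B (E k)),
        m k * min (slow L (R k) (E k) b).card w : ℕ) : ℝ) := by push_cast; rfl
    _ ≤ ∑ _b ∈ B E0, M * (L.nu E0 : ℝ) := Finset.sum_le_sum key
    _ = (B E0).card * (M * L.nu E0) := by rw [Finset.sum_const, nsmul_eq_mul]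
    _ ≤ s * (M * L.nu E0) := by
        apply mul_le_mul_of_nonneg_right _ (by positivity)
        exact_mod_cast hs
    _ = s * M * L.nu E0 := by ring

end Pool.Agent.GG38
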