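import Pool.Agent.Lib.MP_38fd99_co.Plane

/-!
# The final theorem from the main theorem for geometric graphs
-/

set_option autoImplicit false

namespace Pool.Agent.GG38

open Finset Classical

namespace Final

/-- a bound for all geometric graphs is a bound for `ek` -/
theorem ek_le (k n : ℕ) (X : ℝ) (hX : 0 ≤ X)
    (h : ∀ (G : SimpleGraph (Fin n)) (pos : Fin n → ℝ × ℝ), GenPos pos →
      ¬ HasDisjointEdges k G pos → (G.edgeSet.ncard : ℝ) ≤ X) : (ek k n : ℝ) ≤ X := by
  unfold ek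
  rcases Set.eq_empty_or_nonempty {m : ℕ | ∃ (G : SimpleGraph (Fin n)) (pos : Fin n → ℝ × ℝ),
      GenPos pos ∧ ¬ HasDisjointEdges k G pos ∧ G.edgeSet.ncard = m} with h0 | h0
  · rw [h0]
    simpa using hX
  · have h1 : sSup {m : ℕ | ∃ (G : SimpleGraph (Fin n)) (pos : Fin n → ℝ × ℝ),
        GenPos pos ∧ ¬ HasDisjointEdges k G pos ∧ G.edgeSet.ncard = m} ≤ ⌊X⌋₊ := by
      apply csSup_le h0
      rintro m ⟨G, pos, hg, hd, rfl⟩
      exact Nat.le_floor (h G pos hg hd)
    calc ((sSup {m : ℕ | ∃ (G : SimpleGraph (Fin n)) (pos : Fin n → ℝ × ℝ),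
        GenPos pos ∧ ¬ HasDisjointEdges k G pos ∧ G.edgeSet.ncard = m} : ℕ) : ℝ)
        ≤ (⌊X⌋₊ : ℝ) := by exact_mod_cast h1
      _ ≤ X := Nat.floor_le hX

end Final

theorem final (hM : StmtMain) : StmtFinal := by
  constructor
  · intro ε hε
    obtain ⟨C, hC, h⟩ := hM (min ε 1) (lt_min hε one_pos) (min_le_right _ _)
    refine ⟨C, by linarith, ?_⟩
    intro k n
    apply Final.ek_le
    · positivity
    · intro G pos hg hd
      refine (h n k G pos hg hd).trans ?_
      apply mul_le_mul_of_nonneg_left _ (by positivity)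
      rcases Nat.eq_zero_or_pos n with hn | hn
      · subst hn
        have e1 : ((0 : ℕ) : ℝ) ^ (1 + min ε 1) = 0 := by
          rw [Nat.cast_zero]
          apply Real.zero_rpow
          have : 0 < min ε 1 := lt_min hε one_pos
          linarith
        rw [e1]
        positivity
      · apply Real.rpow_le_rpow_of_exponent_le
        · exact_mod_cast hn
        · have := min_le_left ε 1
          linarith
  · intro ε c hε hc
    have hη : 0 < min 1 (ε / (2 * c)) := lt_min one_pos (by positivity)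
    obtain ⟨C, hC, h⟩ := hM (min 1 (ε / (2 * c))) hη (min_le_left _ _)
    have ht : Filter.Tendsto (fun k : ℕ => (k : ℝ) ^ (ε / 2)) Filter.atTop Filter.atTop :=
      (tendsto_rpow_atTop (half_pos hε)).comp tendsto_natCast_atTop_atTop
    obtain ⟨k₀, hk₀⟩ := Filter.eventually_atTop.1 (ht.eventually_ge_atTop C)
    refine ⟨max k₀ 1, ?_⟩
    intro k hk n hn hnk
    have hk1 : 1 ≤ k := (le_max_right _ _).trans hk
    have hkr : (1 : ℝ) ≤ k := by exact_mod_cast hk1
    have hk0 : (0 : ℝ) < k := by linarith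
    have hn1 : (1 : ℝ) ≤ n := by exact_mod_cast hn
    have hn0 : (0 : ℝ) < n := by linarith
    have hCk : C ≤ (k : ℝ) ^ (ε / 2) := hk₀ k ((le_max_left _ _).trans hk)
    have e1 : (n : ℝ) ^ (min 1 (ε / (2 * c))) ≤ (k : ℝ) ^ (ε / 2) := by
      calc (n : ℝ) ^ (min 1 (ε / (2 * c))) ≤ ((k : ℝ) ^ c) ^ (min 1 (ε / (2 * c))) :=
            Real.rpow_le_rpow hn0.le hnk hη.le
        _ = (k : ℝ) ^ (c * min 1 (ε / (2 * c))) := by rw [← Real.rpow_mul hk0.le]
        _ ≤ (k : ℝ) ^ (ε / 2) := by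
          apply Real.rpow_le_rpow_of_exponent_le hkr
          calc c * min 1 (ε / (2 * c)) ≤ c * (ε / (2 * c)) :=
                mul_le_mul_of_nonneg_left (min_le_right _ _) hc.le
            _ = ε / 2 := by field_simp
    apply Final.ek_le
    · positivity
    · intro G pos hg hd
      refine (h n k G pos hg hd).trans ?_
      have e2 : (n : ℝ) ^ (1 + min 1 (ε / (2 * c))) = n * (n : ℝ) ^ (min 1 (ε / (2 * c))) := by
        rw [Real.rpow_add hn0, Real.rpow_one]
      have e3 : (k : ℝ) ^ (1 + ε) = k * ((k : ℝ) ^ (ε / 2) * (k : ℝ) ^ (ε / 2)) := by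
        rw [← Real.rpow_add hk0, add_halves, Real.rpow_add hk0, Real.rpow_one]
      rw [e2, e3]
      have e4 : C * (n : ℝ) ^ (min 1 (ε / (2 * c))) ≤ (k : ℝ) ^ (ε / 2) * (k : ℝ) ^ (ε / 2) :=
        mul_le_mul hCk e1 (by positivity) (by positivity)
      calc C * k * (n * (n : ℝ) ^ (min 1 (ε / (2 * c))))
          = (k * n) * (C * (n : ℝ) ^ (min 1 (ε / (2 * c)))) := by ring
        _ ≤ (k * n) * ((k : ℝ) ^ (ε / 2) * (k : ℝ) ^ (ε / 2)) :=
            mul_le_mul_of_nonneg_left e4 (by positivity)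
        _ = k * ((k : ℝ) ^ (ε / 2) * (k : ℝ) ^ (ε / 2)) * n := by ring

end Pool.Agent.GG38
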