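import Pool.Agent.Lib.MP_38fd99_co.Spec

/-! From the separated case to all geometric graphs, by halving. -/

set_option autoImplicit false

namespace Pool.Agent.GG38

open Finset Classical

variable {ι : Type}

namespace Halving

theorem exists_theta (V : Finset ι) (v : ι → ℝ) (hinj : Set.InjOn v V) (m : ℕ)
    (hm : m < V.card) : ∃ θ : ℝ, (V.filter (fun x => v x < θ)).card = m := by
  have hW : (V.image v).card = V.card := Finset.card_image_of_injOn hinj
  let f := (V.image v).orderEmbOfFin hW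
  refine ⟨f ⟨m, hm⟩, ?_⟩
  have h1 : (V.filter (fun x => v x < f ⟨m, hm⟩)).card =
      ((V.image v).filter (fun w => w < f ⟨m, hm⟩)).card := by
    rw [Finset.filter_image]
    symm
    apply Finset.card_image_of_injOn
    apply hinj.mono
    intro x hx
    exact (Finset.mem_filter.1 (Finset.mem_coe.1 hx)).1
  have h2 : (V.image v).filter (fun w => w < f ⟨m, hm⟩) =
      (Finset.Iio (⟨m, hm⟩ : Fin V.card)).image f := by
    ext w
    constructor
    · intro hw
      obtain ⟨hw, hlt⟩ := Finset.mem_filter.1 hw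
      have h3 : w ∈ Set.range f := by
        rw [Finset.range_orderEmbOfFin]
        exact Finset.mem_coe.2 hw
      obtain ⟨i, rfl⟩ := h3
      exact Finset.mem_image.2 ⟨i, Finset.mem_Iio.2 (f.lt_iff_lt.1 hlt), rfl⟩
    · intro hw
      obtain ⟨i, hi, rfl⟩ := Finset.mem_image.1 hw
      exact Finset.mem_filter.2
        ⟨Finset.orderEmbOfFin_mem _ _ _, f.lt_iff_lt.2 (Finset.mem_Iio.1 hi)⟩
  rw [h1, h2, Finset.card_image_of_injective _ f.injective, Fin.card_Iio]

theorem disj_of_theta (L : Lines ι) (θ : ℝ) {e f : ι × ι} (h1 : L.v e.1 < θ) (h2 : L.v e.2 < θ)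
    (h3 : θ ≤ L.v f.1) (h4 : θ ≤ L.v f.2) : L.Disj e f := by
  left
  let t := max (max (L.tm e.1 f.1) (L.tm e.1 f.2)) (max (L.tm e.2 f.1) (L.tm e.2 f.2)) + 1
  have g1 : L.tm e.1 f.1 < t := lt_of_le_of_lt ((le_max_left _ _).trans (le_max_left _ _)) (lt_add_one _)
  have g2 : L.tm e.1 f.2 < t := lt_of_le_of_lt ((le_max_right _ _).trans (le_max_left _ _)) (lt_add_one _)
  have g3 : L.tm e.2 f.1 < t := lt_of_le_of_lt ((le_max_left _ _).trans (le_max_right _ _)) (lt_add_one _)
  have g4 : L.tm e.2 f.2 < t := lt_of_le_of_lt ((le_max_right _ _).trans (le_max_right _ _)) (lt_add_one _)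
  exact ⟨t, (L.lt_iff (by linarith) t).2 g1, (L.lt_iff (by linarith) t).2 g2,
    (L.lt_iff (by linarith) t).2 g3, (L.lt_iff (by linarith) t).2 g4⟩

theorem nu_add_le (L : Lines ι) (θ : ℝ) (E : Finset (ι × ι)) (hE : ∀ p ∈ E, L.v p.1 < L.v p.2) :
    L.nu (E.filter (fun p => L.v p.2 < θ)) + L.nu (E.filter (fun p => θ ≤ L.v p.1)) ≤ L.nu E := by
  let F : Bool → Finset (ι × ι) := fun b =>
    if b then E.filter (fun p => L.v p.2 < θ) else E.filter (fun p => θ ≤ L.v p.1)
  have hT : F true = E.filter (fun p => L.v p.2 < θ) := rfl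
  have hF : F false = E.filter (fun p => θ ≤ L.v p.1) := rfl
  have key : ∀ e ∈ F true, ∀ f ∈ F false, L.Disj e f := by
    intro e he f hf
    rw [hT, Finset.mem_filter] at he
    rw [hF, Finset.mem_filter] at hf
    have h1 := hE e he.1
    have h2 := hE f hf.1
    exact disj_of_theta L θ (h1.trans he.2) he.2 hf.2 (hf.2.trans h2.le)
  have h := L.sum_nu_le (Finset.univ : Finset Bool) F E
    (by
      intro b _
      cases b
      · rw [hF]; exact Finset.filter_subset _ _
      · rw [hT]; exact Finset.filter_subset _ _)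
    (by
      intro k _ l _ hkl e he f hf
      cases k <;> cases l
      · exact absurd rfl hkl
      · exact L.Disj_symm (key f hf e he)
      · exact key e he f hf
      · exact absurd rfl hkl)
  rw [Fintype.sum_bool, hT, hF] at h
  exact h

theorem rpow_aux {η : ℝ} (hη : 0 < η) {a n : ℕ} (h : 3 * a ≤ 2 * n) :
    (a : ℝ) ^ (1 + η) ≤ 2 / 3 * (n : ℝ) ^ (1 + η) := by
  have h1 : (a : ℝ) ≤ 2 / 3 * n := by
    have : ((3 * a : ℕ) : ℝ) ≤ ((2 * n : ℕ) : ℝ) := by exact_mod_cast h
    push_cast at this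
    linarith
  calc (a : ℝ) ^ (1 + η) ≤ (2 / 3 * (n : ℝ)) ^ (1 + η) :=
        Real.rpow_le_rpow (by positivity) h1 (by linarith)
    _ = (2 / 3 : ℝ) ^ (1 + η) * (n : ℝ) ^ (1 + η) :=
        Real.mul_rpow (by norm_num) (by positivity)
    _ ≤ 2 / 3 * (n : ℝ) ^ (1 + η) := by
        apply mul_le_mul_of_nonneg_right _ (by positivity)
        calc (2 / 3 : ℝ) ^ (1 + η) ≤ (2 / 3 : ℝ) ^ (1 : ℝ) :=
              Real.rpow_le_rpow_of_exponent_ge (by norm_num) (by norm_num) (by linarith)
          _ = 2 / 3 := Real.rpow_one _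

end Halving

open Halving in
theorem halving (hS : StmtSep) : StmtHalving := by
  intro η hη hη1
  obtain ⟨C, hC1, hC⟩ := hS η hη hη1
  refine ⟨3 * C, by linarith, ?_⟩
  intro ι L V
  induction hn : V.card using Nat.strong_induction_on generalizing V with
  | _ n ih =>
    intro E hinj hgp hE
    have hE' : ∀ p ∈ E, L.v p.1 < L.v p.2 := fun p hp => (hE p hp).2.2
    have hne : ∀ p ∈ E, p.1 ≠ p.2 := fun p hp h => by
      have := hE' p hp
      rw [h] at this
      exact lt_irrefl _ this
    rcases Nat.lt_or_ge n 2 with hn2 | hn2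
    · -- no edges
      have hE0 : E = ∅ := by
        rw [Finset.eq_empty_iff_forall_notMem]
        intro p hp
        obtain ⟨h1, h2, -⟩ := hE p hp
        have h3 : ({p.1, p.2} : Finset ι) ⊆ V := by
          intro x hx
          rw [Finset.mem_insert, Finset.mem_singleton] at hx
          rcases hx with rfl | rfl
          · exact h1
          · exact h2
        have h4 := Finset.card_le_card h3
        rw [Finset.card_pair (hne p hp)] at h4
        omega
      rw [hE0]
      simp only [Finset.card_empty, Nat.cast_zero]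
      positivity
    · obtain ⟨θ, hθ⟩ := exists_theta V L.v hinj (n / 2) (by omega)
      set V₁ := V.filter (fun x => L.v x < θ) with hV₁
      set V₂ := V.filter (fun x => ¬ L.v x < θ) with hV₂
      have hc : V₁.card + V₂.card = V.card := by
        rw [hV₁, hV₂]
        exact Finset.card_filter_add_card_filter_not _
      set E₁ := E.filter (fun p => L.v p.2 < θ) with hE₁
      set E₂ := E.filter (fun p => θ ≤ L.v p.1) with hE₂
      set E₃ := E.filter (fun p => L.v p.1 < θ ∧ θ ≤ L.v p.2) with hE₃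
      have hsub : E ⊆ E₁ ∪ E₂ ∪ E₃ := by
        intro p hp
        simp only [hE₁, hE₂, hE₃, Finset.mem_union, Finset.mem_filter]
        rcases lt_or_ge (L.v p.2) θ with h | h
        · exact Or.inl (Or.inl ⟨hp, h⟩)
        · rcases lt_or_ge (L.v p.1) θ with h' | h'
          · exact Or.inr ⟨hp, h', h⟩
          · exact Or.inl (Or.inr ⟨hp, h'⟩)
      have hcard : E.card ≤ E₁.card + E₂.card + E₃.card := by
        calc E.card ≤ (E₁ ∪ E₂ ∪ E₃).card := Finset.card_le_card hsub
          _ ≤ (E₁ ∪ E₂).card + E₃.card := Finset.card_union_le _ _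
          _ ≤ E₁.card + E₂.card + E₃.card := by
            have := Finset.card_union_le E₁ E₂
            omega
      have hV1 : V₁ ⊆ V := Finset.filter_subset _ _
      have hV2 : V₂ ⊆ V := Finset.filter_subset _ _
      have i1 : (E₁.card : ℝ) ≤ 3 * C * (V₁.card : ℝ) ^ (1 + η) * L.nu E₁ := by
        have := ih V₁.card (by omega) V₁ rfl E₁ (hinj.mono (by exact_mod_cast hV1))
          (fun x hx y hy z hz => hgp x (hV1 hx) y (hV1 hy) z (hV1 hz)) (by
            intro p hp
            rw [hE₁, Finset.mem_filter] at hp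
            obtain ⟨h1, h2, h3⟩ := hE p hp.1
            rw [hV₁, Finset.mem_filter, Finset.mem_filter]
            exact ⟨⟨h1, h3.trans hp.2⟩, ⟨h2, hp.2⟩, h3⟩)
        exact this
      have i2 : (E₂.card : ℝ) ≤ 3 * C * (V₂.card : ℝ) ^ (1 + η) * L.nu E₂ := by
        have := ih V₂.card (by omega) V₂ rfl E₂ (hinj.mono (by exact_mod_cast hV2))
          (fun x hx y hy z hz => hgp x (hV2 hx) y (hV2 hy) z (hV2 hz)) (by
            intro p hp
            rw [hE₂, Finset.mem_filter] at hp
            obtain ⟨h1, h2, h3⟩ := hE p hp.1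
            rw [hV₂, Finset.mem_filter, Finset.mem_filter]
            exact ⟨⟨h1, not_lt.2 hp.2⟩, ⟨h2, not_lt.2 (hp.2.trans h3.le)⟩, h3⟩)
        exact this
      have hAB : A E₃ ∪ B E₃ ⊆ V := by
        intro x hx
        rw [Finset.mem_union, mem_A, mem_B] at hx
        rcases hx with ⟨b, hb⟩ | ⟨a, ha⟩
        · exact (hE _ (Finset.mem_filter.1 hb).1).1
        · exact (hE _ (Finset.mem_filter.1 ha).1).2.1
      have hinst : Inst L E₃ := by
        refine ⟨?_, hinj.mono (by exact_mod_cast hAB), ?_⟩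
        · intro a ha b hb
          rw [mem_A] at ha
          rw [mem_B] at hb
          obtain ⟨b', hb'⟩ := ha
          obtain ⟨a', ha'⟩ := hb
          exact lt_of_lt_of_le (Finset.mem_filter.1 hb').2.1 (Finset.mem_filter.1 ha').2.2
        · intro x hx y hy z hz
          exact hgp x (hAB hx) y (hAB hy) z (hAB hz)
      have i3 := hC ι L E₃ hinst
      have hcl : ((A E₃ ∪ B E₃).card : ℝ) ≤ (n : ℝ) := by
        rw [← hn]
        exact_mod_cast Finset.card_le_card hAB
      have hC0 : 0 ≤ C := by linarith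
      have hpn : 0 ≤ (n : ℝ) ^ (1 + η) := by positivity
      have j3 : (E₃.card : ℝ) ≤ C * (n : ℝ) ^ (1 + η) * L.nu E := by
        calc (E₃.card : ℝ) ≤ C * ((A E₃ ∪ B E₃).card : ℝ) ^ (1 + η) * L.nu E₃ := i3
          _ ≤ C * (n : ℝ) ^ (1 + η) * L.nu E := by
            have h1 : ((A E₃ ∪ B E₃).card : ℝ) ^ (1 + η) ≤ (n : ℝ) ^ (1 + η) :=
              Real.rpow_le_rpow (by positivity) hcl (by linarith)
            have h2 : (L.nu E₃ : ℝ) ≤ L.nu E := by
              exact_mod_cast L.nu_mono (Finset.filter_subset _ _)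
            have h3 := mul_le_mul_of_nonneg_left h1 hC0
            exact mul_le_mul h3 h2 (by positivity) (by positivity)
      have hnu := nu_add_le L θ E hE'
      have hnu' : (L.nu E₁ : ℝ) + L.nu E₂ ≤ L.nu E := by exact_mod_cast hnu
      have r1 := rpow_aux hη (a := V₁.card) (n := n) (by omega)
      have r2 := rpow_aux hη (a := V₂.card) (n := n) (by omega)
      have j1 : (E₁.card : ℝ) ≤ 2 * C * (n : ℝ) ^ (1 + η) * L.nu E₁ := by
        calc (E₁.card : ℝ) ≤ 3 * C * (V₁.card : ℝ) ^ (1 + η) * L.nu E₁ := i1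
          _ ≤ 3 * C * (2 / 3 * (n : ℝ) ^ (1 + η)) * L.nu E₁ := by
            apply mul_le_mul_of_nonneg_right _ (by positivity)
            exact mul_le_mul_of_nonneg_left r1 (by positivity)
          _ = 2 * C * (n : ℝ) ^ (1 + η) * L.nu E₁ := by ring
      have j2 : (E₂.card : ℝ) ≤ 2 * C * (n : ℝ) ^ (1 + η) * L.nu E₂ := by
        calc (E₂.card : ℝ) ≤ 3 * C * (V₂.card : ℝ) ^ (1 + η) * L.nu E₂ := i2
          _ ≤ 3 * C * (2 / 3 * (n : ℝ) ^ (1 + η)) * L.nu E₂ := by
            apply mul_le_mul_of_nonneg_right _ (by positivity)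
            exact mul_le_mul_of_nonneg_left r2 (by positivity)
          _ = 2 * C * (n : ℝ) ^ (1 + η) * L.nu E₂ := by ring
      have hcard' : (E.card : ℝ) ≤ E₁.card + E₂.card + E₃.card := by exact_mod_cast hcard
      have hlast : 2 * C * (n : ℝ) ^ (1 + η) * L.nu E₁ + 2 * C * (n : ℝ) ^ (1 + η) * L.nu E₂ ≤
          2 * C * (n : ℝ) ^ (1 + η) * L.nu E := by
        rw [← mul_add]
        exact mul_le_mul_of_nonneg_left hnu' (by positivity)
      calc (E.card : ℝ) ≤ 2 * C * (n : ℝ) ^ (1 + η) * L.nu E + C * (n : ℝ) ^ (1 + η) * L.nu E := by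
            linarith
        _ = 3 * C * (n : ℝ) ^ (1 + η) * L.nu E := by ring

end Pool.Agent.GG38
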