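import Pool.Agent.Lib.MP_38fd99_co.Spec

/-!
# MP_38fd99_co : inheritance, slow separators
-/

set_option autoImplicit false

namespace Pool.Agent.GG38

open Finset Classical

theorem inhA (hB : StmtInhB) : StmtInhA := by
  intro ι L R E E' Lo Hi hok hsub hslow hin
  have key : CellOK L.rev (Rrev R ∩ L.rev.strip Lo Hi) (Esw E') := by
    refine hB ι L.rev (Rrev R) (Esw E) (Esw E') Lo Hi hok.rev (Esw_mono hsub) ?_ ?_
    · intro σ hσ a ha
      rw [A_Esw] at ha
      rw [Lines.rev_v, Lines.rev_v]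
      exact neg_lt_neg (hslow σ hσ a ha)
    · intro b hb t ht
      rw [B_Esw] at hb
      have ht' : -t ∈ L.I R b := (Lines.rev_I L R b t).mp ht
      obtain ⟨h1, h2⟩ := hin b hb (-t) ht'
      simp only [Lines.rev_H]
      exact ⟨h1, h2⟩
  have h2 := key.rev
  rw [Lines.rev_rev, Rrev_inter, Rrev_Rrev, Lines.rev_strip, Rrev_Rrev, Esw_Esw] at h2
  exact h2

end Pool.Agent.GG38
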