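import Pool.Agent.Lib.MP_38fd99_co.Spec

/-! Inheritance of the cell properties under cutting along fast lines. -/

set_option autoImplicit false

namespace Pool.Agent.GG38

open Finset Classical

namespace InhB

variable {ι : Type}

/-- order of two slow lines before their meeting time -/
theorem lt_before {L : Lines ι} {a c : ι} (hv : L.v a ≠ L.v c) {T : Set ℝ}
    (hT : ∀ t ∈ T, t < L.tm a c) :
    (∀ t ∈ T, L.H a t < L.H c t) ∨ (∀ t ∈ T, L.H c t < L.H a t) := by
  rcases lt_or_gt_of_ne hv with h | h
  · right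
    intro t ht
    exact (L.gt_iff h t).2 (hT t ht)
  · left
    intro t ht
    refine (L.gt_iff h t).2 ?_
    rw [L.tm_comm]
    exact hT t ht

/-- order of two slow lines after their meeting time -/
theorem lt_after {L : Lines ι} {a c : ι} (hv : L.v a ≠ L.v c) {T : Set ℝ}
    (hT : ∀ t ∈ T, L.tm a c < t) :
    (∀ t ∈ T, L.H a t < L.H c t) ∨ (∀ t ∈ T, L.H c t < L.H a t) := by
  rcases lt_or_gt_of_ne hv with h | h
  · left
    intro t ht
    exact (L.lt_iff h t).2 (hT t ht)
  · right
    intro t ht
    refine (L.lt_iff h t).2 ?_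
    rw [L.tm_comm]
    exact hT t ht

end InhB

open InhB

theorem inhB : StmtInhB := by
  intro ι L R E E' Lo Hi hc hE hfast hin
  have hA := A_mono hE
  have hB := B_mono hE
  have h0 := hc.mono hE
  have hsub : R ∩ L.strip Lo Hi ⊆ R := Set.inter_subset_left
  -- points of fast lines in `R` are in the strip
  have hstr : ∀ b ∈ B E', ∀ t ∈ L.I R b, (t, L.H b t) ∈ R ∩ L.strip Lo Hi := by
    intro b hb t ht
    exact ⟨ht, hin b hb t ht⟩
  have hvAB : ∀ a ∈ A E', ∀ b ∈ B E', L.v a ≠ L.v b := fun a ha b hb => (h0.sep a ha b hb).ne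
  have hvA : ∀ a ∈ A E', ∀ c ∈ A E', a ≠ c → L.v a ≠ L.v c := fun a ha c hc hac hv =>
    hac (h0.inj (by simp [ha]) (by simp [hc]) hv)
  -- meeting in `R` with a fast line
  have hmeetR : ∀ a ∈ A E', ∀ b ∈ B E', L.Meet R a b → L.Meet (R ∩ L.strip Lo Hi) a b := by
    intro a ha b hb hm
    have hv := hvAB a ha b hb
    rw [L.Meet_comm hv] at hm ⊢
    exact hstr b hb _ (L.mem_I_of_Meet hm)
  have hLt : ∀ x y, L.Lt R x y → L.Lt (R ∩ L.strip Lo Hi) x y := by
    intro x y h t ht
    apply h
    rcases ht with ht | ht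
    · exact Or.inl (L.I_mono hsub x ht)
    · exact Or.inr (L.I_mono hsub y ht)
  refine
    { sep := h0.sep
      inj := h0.inj
      mem := ?_
      conn := ?_
      cloB := ?_
      cloA := ?_
      cmpB := ?_
      cmpA := ?_ }
  · intro p hp
    exact hmeetR _ (fst_mem_A hp) _ (snd_mem_B hp) (h0.mem p hp)
  · intro x hx
    rcases Finset.mem_union.1 hx with hxA | hxB
    · refine ⟨fun s hs t ht u hu => ?_⟩
      have hR := (h0.conn x hx).out (L.I_mono hsub x hs) (L.I_mono hsub x ht) hu
      refine ⟨hR, fun σ hσ => ?_, fun σ hσ => ?_⟩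
      · have hv := hfast σ (Finset.mem_union_left _ hσ) x hxA
        have h1 := (L.gt_iff hv t)
        -- `H σ t < H x t ↔ t < tm`
        have h2 : L.H σ t < L.H x t := ht.2.1 σ hσ
        have h3 := h1.1 h2
        exact (L.gt_iff hv u).2 (lt_of_le_of_lt hu.2 h3)
      · have hv := hfast σ (Finset.mem_union_right _ hσ) x hxA
        have h2 : L.H x s < L.H σ s := hs.2.2 σ hσ
        have h3 := (L.lt_iff hv s).1 h2
        exact (L.lt_iff hv u).2 (lt_of_lt_of_le h3 hu.1)
    · refine ⟨fun s hs t ht u hu => ?_⟩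
      have hR := (h0.conn x hx).out (L.I_mono hsub x hs) (L.I_mono hsub x ht) hu
      exact hstr x hxB u hR
  · intro p hp b₀ hb hv hm
    exact hmeetR _ (fst_mem_A hp) _ hb (h0.cloB p hp b₀ hb hv (L.Meet_mono hsub hm))
  · intro p hp a₀ ha hv hm
    exact hmeetR _ ha _ (snd_mem_B hp) (h0.cloA p hp a₀ ha hv (L.Meet_mono hsub hm))
  · intro b hb c hc' hbc
    rcases h0.cmpB b hb c hc' hbc with h | h | h
    · exact Or.inl (hstr b hb _ (L.mem_I_of_Meet h))
    · exact Or.inr (Or.inl (hLt _ _ h))
    · exact Or.inr (Or.inr (hLt _ _ h))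
  · intro a ha c hc' hac
    rcases h0.cmpA a ha c hc' hac with h | h | h
    · by_cases hs : (L.tm a c, L.H a (L.tm a c)) ∈ L.strip Lo Hi
      · exact Or.inl ⟨h, hs⟩
      · right
        have hv := hvA a ha c hc' hac
        have hH := L.H_tm hv
        have hs' : (∃ σ ∈ Lo, L.H a (L.tm a c) ≤ L.H σ (L.tm a c)) ∨
            (∃ σ ∈ Hi, L.H σ (L.tm a c) ≤ L.H a (L.tm a c)) := by
          by_contra hcon
          push Not at hcon
          exact hs ⟨fun σ hσ => hcon.1 σ hσ, fun σ hσ => hcon.2 σ hσ⟩
        rcases hs' with ⟨σ, hσ, hle⟩ | ⟨σ, hσ, hle⟩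
        · have ha1 := hfast σ (Finset.mem_union_left _ hσ) a ha
          have hc1 := hfast σ (Finset.mem_union_left _ hσ) c hc'
          have ha2 : L.tm a σ ≤ L.tm a c := by
            by_contra h3
            push Not at h3
            exact absurd ((L.gt_iff ha1 _).2 h3) (not_lt.2 hle)
          have hc2 : L.tm c σ ≤ L.tm a c := by
            by_contra h3
            push Not at h3
            have := (L.gt_iff hc1 _).2 h3
            rw [← hH] at this
            exact absurd this (not_lt.2 hle)
          have key : ∀ t ∈ L.I (R ∩ L.strip Lo Hi) a ∪ L.I (R ∩ L.strip Lo Hi) c,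
              t < L.tm a c := by
            rintro t (ht | ht)
            · exact lt_of_lt_of_le ((L.gt_iff ha1 t).1 (ht.2.1 σ hσ)) ha2
            · exact lt_of_lt_of_le ((L.gt_iff hc1 t).1 (ht.2.1 σ hσ)) hc2
          rcases lt_before hv key with h4 | h4
          · exact Or.inl h4
          · right
            intro t ht
            exact h4 t (Or.symm ht)
        · have ha1 := hfast σ (Finset.mem_union_right _ hσ) a ha
          have hc1 := hfast σ (Finset.mem_union_right _ hσ) c hc'
          have ha2 : L.tm a c ≤ L.tm a σ := by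
            by_contra h3
            push Not at h3
            exact absurd ((L.lt_iff ha1 _).2 h3) (not_lt.2 hle)
          have hc2 : L.tm a c ≤ L.tm c σ := by
            by_contra h3
            push Not at h3
            have := (L.lt_iff hc1 _).2 h3
            rw [← hH] at this
            exact absurd this (not_lt.2 hle)
          have key : ∀ t ∈ L.I (R ∩ L.strip Lo Hi) a ∪ L.I (R ∩ L.strip Lo Hi) c,
              L.tm a c < t := by
            rintro t (ht | ht)
            · exact lt_of_le_of_lt ha2 ((L.lt_iff ha1 t).1 (ht.2.2 σ hσ))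
            · exact lt_of_le_of_lt hc2 ((L.lt_iff hc1 t).1 (ht.2.2 σ hσ))
          rcases lt_after hv key with h4 | h4
          · exact Or.inl h4
          · right
            intro t ht
            exact h4 t (Or.symm ht)
    · exact Or.inr (Or.inl (hLt _ _ h))
    · exact Or.inr (Or.inr (hLt _ _ h))

end Pool.Agent.GG38
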