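import Pool.Agent.Lib.MP_38fd99_co.Plane

/-!
# MP_38fd99_co : the main theorem for geometric graphs
-/

set_option autoImplicit false

namespace Pool.Agent.GG38

open Finset Classical

noncomputable section

namespace Main

variable {n : ℕ}

/-- the oriented edges -/
def Eo (G : SimpleGraph (Fin n)) (L : Lines (Fin n)) : Finset (Fin n × Fin n) :=
  univ.filter (fun p => G.Adj p.1 p.2 ∧ L.v p.1 < L.v p.2)

theorem mem_Eo {G : SimpleGraph (Fin n)} {L : Lines (Fin n)} {p : Fin n × Fin n} :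
    p ∈ Eo G L ↔ G.Adj p.1 p.2 ∧ L.v p.1 < L.v p.2 := by
  unfold Eo
  rw [mem_filter]
  exact ⟨fun h => h.2, fun h => ⟨mem_univ _, h⟩⟩

theorem injOn (G : SimpleGraph (Fin n)) (L : Lines (Fin n)) :
    Set.InjOn (fun p : Fin n × Fin n => s(p.1, p.2)) (Eo G L : Set (Fin n × Fin n)) := by
  rintro ⟨a, b⟩ h1 ⟨c, d⟩ h2 h
  have h1' := mem_Eo.mp (mem_coe.mp h1)
  have h2' := mem_Eo.mp (mem_coe.mp h2)
  simp only at h1' h2' h
  rw [Sym2.eq_iff] at h
  rcases h with ⟨rfl, rfl⟩ | ⟨rfl, rfl⟩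
  · rfl
  · exact absurd h1'.2 (not_lt.mpr h2'.2.le)

theorem image_eq (G : SimpleGraph (Fin n)) (L : Lines (Fin n)) (hL : Function.Injective L.v) :
    (((Eo G L).image (fun p : Fin n × Fin n => s(p.1, p.2)) : Finset (Sym2 (Fin n))) :
      Set (Sym2 (Fin n))) = G.edgeSet := by
  ext e
  induction e using Sym2.ind with
  | _ a b =>
    rw [mem_coe, mem_image, SimpleGraph.mem_edgeSet]
    constructor
    · rintro ⟨⟨c, d⟩, hp, he⟩
      have hp' := mem_Eo.mp hp
      simp only at hp' he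
      rw [Sym2.eq_iff] at he
      rcases he with ⟨rfl, rfl⟩ | ⟨rfl, rfl⟩
      · exact hp'.1
      · exact hp'.1.symm
    · intro h
      have hne : L.v a ≠ L.v b := fun e => h.ne (hL e)
      rcases lt_or_gt_of_ne hne with h' | h'
      · exact ⟨(a, b), mem_Eo.mpr ⟨h, h'⟩, rfl⟩
      · exact ⟨(b, a), mem_Eo.mpr ⟨h.symm, h'⟩, Sym2.eq_swap⟩

theorem card_eq (G : SimpleGraph (Fin n)) (L : Lines (Fin n)) (hL : Function.Injective L.v) :
    (Eo G L).card = G.edgeSet.ncard := by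
  rw [← image_eq G L hL, Set.ncard_coe_finset, card_image_of_injOn (injOn G L)]

theorem nu_lt (hD : StmtPlaneDisj) (k : ℕ) (G : SimpleGraph (Fin n)) (pos : Fin n → ℝ × ℝ)
    (δ : ℝ) (hL : Function.Injective (linesOf pos δ).v) (hno : ¬ HasDisjointEdges k G pos) :
    (linesOf pos δ).nu (Eo G (linesOf pos δ)) < k := by
  by_contra hcon
  push Not at hcon
  obtain ⟨M, hME, hM, hMc⟩ := (linesOf pos δ).exists_nu (Eo G (linesOf pos δ))
  rw [← hMc] at hcon
  obtain ⟨M', hM'M, hM'c⟩ := Finset.exists_subset_card_eq hcon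
  have hinj : Set.InjOn (fun p : Fin n × Fin n => s(p.1, p.2)) (M' : Set (Fin n × Fin n)) :=
    (injOn G (linesOf pos δ)).mono (by exact_mod_cast hM'M.trans hME)
  apply hno
  refine ⟨M'.image (fun p : Fin n × Fin n => s(p.1, p.2)), ?_, ?_, ?_⟩
  · rw [← image_eq G (linesOf pos δ) hL]
    exact_mod_cast image_subset_image (hM'M.trans hME)
  · rw [card_image_of_injOn hinj, hM'c]
  · intro e he f hf hef
    rw [mem_coe, mem_image] at he hf
    obtain ⟨p, hp, rfl⟩ := he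
    obtain ⟨q, hq, rfl⟩ := hf
    have hpq : p ≠ q := fun h => hef (by rw [h])
    exact hD n pos δ p q (hM (mem_coe.mpr (hM'M hp)) (mem_coe.mpr (hM'M hq)) hpq)

end Main

open Main

theorem main (hH : StmtHalving) (hS : StmtShear) (hG : StmtPlaneGP) (hD : StmtPlaneDisj) :
    StmtMain := by
  intro η hη hη1
  obtain ⟨C, hC1, hC⟩ := hH η hη hη1
  refine ⟨C, hC1, ?_⟩
  intro n k G pos hgp hno
  obtain ⟨δ, hδ⟩ := hS n pos hgp.1
  have h1 := hC (Fin n) (linesOf pos δ) univ (Eo G (linesOf pos δ)) (hδ.injOn)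
    (fun x _ y _ z _ hxy hxz hyz => hG n pos δ hgp hδ x y z hxy hxz hyz)
    (fun p hp => ⟨mem_univ _, mem_univ _, (mem_Eo.mp hp).2⟩)
  rw [card_eq G _ hδ, card_univ, Fintype.card_fin] at h1
  have h2 := nu_lt hD k G pos δ hδ hno
  have h3 : ((linesOf pos δ).nu (Eo G (linesOf pos δ)) : ℝ) ≤ k := by exact_mod_cast h2.le
  have h4 : 0 ≤ C * (n : ℝ) ^ (1 + η) := by positivity
  have h5 := mul_le_mul_of_nonneg_left h3 h4
  refine (h1.trans h5).trans (le_of_eq ?_)
  ring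

end

end Pool.Agent.GG38
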