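import Pool.Agent.Lib.MP_38fd99_co.Spec

/-! Choice of the parameters. -/

set_option autoImplicit false

open Finset Classical

namespace Pool.Agent.GG38.Param

open Filter Topology

/-- polynomials are dominated by the powers of two -/
theorem poly_exp (c k : ℕ) : ∃ l₀ : ℕ, ∀ l, l₀ ≤ l → (c * (l + 2)) ^ k ≤ 2 ^ l := by
  have h := tendsto_pow_const_div_const_pow_of_one_lt k (r := (2 : ℝ)) (by norm_num)
  have hpos : (0 : ℝ) < 1 / (4 * ((c : ℝ) ^ k + 1)) := by positivity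
  have h2 : ∀ᶠ n : ℕ in atTop, (n : ℝ) ^ k / 2 ^ n < 1 / (4 * ((c : ℝ) ^ k + 1)) :=
    h.eventually_lt_const hpos
  obtain ⟨n₀, hn₀⟩ := eventually_atTop.1 h2
  refine ⟨n₀, fun l hl => ?_⟩
  have h3 := hn₀ (l + 2) (by omega)
  rw [div_lt_div_iff₀ (by positivity) (by positivity), one_mul] at h3
  have h4 : ((l + 2 : ℕ) : ℝ) ^ k * ((c : ℝ) ^ k + 1) < 2 ^ l := by
    have : (2 : ℝ) ^ (l + 2) = 4 * 2 ^ l := by rw [pow_add]; norm_num; ring
    rw [this] at h3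
    linarith
  have h5 : ((c * (l + 2) : ℕ) : ℝ) ^ k ≤ 2 ^ l := by
    have h6 : (0 : ℝ) ≤ ((l + 2 : ℕ) : ℝ) ^ k := by positivity
    have h7 : ((c * (l + 2) : ℕ) : ℝ) ^ k = (c : ℝ) ^ k * ((l + 2 : ℕ) : ℝ) ^ k := by
      rw [Nat.cast_mul, mul_pow]
    rw [h7]
    nlinarith
  exact_mod_cast h5

/-- the logarithm of `s ≤ r ^ N` -/
theorem log_le {s r N : ℕ} (hN : 1 ≤ N) (hs : 1 ≤ s) (h : s ≤ r ^ N) :
    Nat.log 2 s + 1 ≤ N * (Nat.log 2 r + 2) := by
  have h1 : s < 2 ^ (N * (Nat.log 2 r + 1)) := by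
    have h2 : r < 2 ^ (Nat.log 2 r + 1) := Nat.lt_pow_succ_log_self (by norm_num) r
    calc s ≤ r ^ N := h
      _ < (2 ^ (Nat.log 2 r + 1)) ^ N := Nat.pow_lt_pow_left h2 (by omega)
      _ = 2 ^ (N * (Nat.log 2 r + 1)) := by rw [← pow_mul, mul_comm]
  have h3 : Nat.log 2 s < N * (Nat.log 2 r + 1) := Nat.log_lt_of_lt_pow (by omega) h1
  nlinarith

/-- `r ^ N ≤ 2 (r - 1) ^ N` for `2 N ≤ r` -/
theorem pow_le_two {r N : ℕ} (hr : 1 ≤ r) (h : 2 * N ≤ r) : r ^ N ≤ 2 * (r - 1) ^ N := by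
  have hr0 : (0 : ℝ) < r := by exact_mod_cast hr
  have h1 : (1 : ℝ) + (N : ℝ) * (-(1 / r)) ≤ (1 + (-(1 / r : ℝ))) ^ N := by
    apply one_add_mul_le_pow
    have : (1 : ℝ) / r ≤ 1 := by
      rw [div_le_one hr0]; exact_mod_cast hr
    linarith
  have h2 : (1 : ℝ) / 2 ≤ 1 + (N : ℝ) * (-(1 / r)) := by
    have h3 : (2 : ℝ) * N ≤ r := by exact_mod_cast h
    have h4 : (N : ℝ) * (1 / r) ≤ 1 / 2 := by
      rw [mul_one_div, div_le_iff₀ hr0]
      linarith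
    linarith
  have h5 : (r : ℝ) * (1 + -(1 / r)) = ((r - 1 : ℕ) : ℝ) := by
    rw [Nat.cast_sub hr]
    field_simp
    push_cast
    ring
  have h6 : (r : ℝ) ^ N ≤ 2 * ((r - 1 : ℕ) : ℝ) ^ N := by
    rw [← h5, mul_pow]
    have h7 : (0 : ℝ) < (r : ℝ) ^ N := by positivity
    nlinarith
  exact_mod_cast h6

end Pool.Agent.GG38.Param

open Pool.Agent.GG38 Pool.Agent.GG38.Param in
theorem Pool.Agent.GG38.param : StmtParam := by
  intro η hη hη1
  set q : ℕ := ⌈3 / η⌉₊ with hq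
  set N : ℕ := max ⌈((q : ℝ) + 5) / η⌉₊ (q + 3) with hN
  have hqη : (3 : ℝ) ≤ q * η := by
    have := Nat.le_ceil (3 / η)
    rw [div_le_iff₀ hη] at this
    exact this
  have hq1 : 1 ≤ q := by
    rcases Nat.eq_zero_or_pos q with h | h
    · rw [h] at hqη; norm_num at hqη
    · exact h
  have hNη : (q : ℝ) + 5 ≤ N * η := by
    have h1 := Nat.le_ceil (((q : ℝ) + 5) / η)
    rw [div_le_iff₀ hη] at h1
    have h2 : ((⌈((q : ℝ) + 5) / η⌉₊ : ℕ) : ℝ) ≤ N := Nat.cast_le.2 (le_max_left _ _)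
    nlinarith
  have hNq : q + 3 ≤ N := le_max_right _ _
  set J : ℕ := N - q with hJ
  have hJq : J + q = N := by omega
  obtain ⟨l₀, hl₀⟩ := poly_exp (400 * J * N) (2 * J + 8)
  set r₀ : ℕ := max (2 * N) (max 8 (2 ^ l₀)) with hr₀
  refine ⟨J, q, r₀ ^ N + 1, by omega, by omega, fun s hs => ?_⟩
  rw [hJq]
  -- the least `r` with `s ≤ r ^ N`
  have hex : ∃ r : ℕ, s ≤ r ^ N := ⟨s, Nat.le_self_pow (by omega) s⟩
  obtain ⟨r, hr1, hr2⟩ : ∃ r : ℕ, s ≤ r ^ N ∧ ∀ m < r, ¬ s ≤ m ^ N :=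
    ⟨Nat.find hex, Nat.find_spec hex, fun m hm => Nat.find_min hex hm⟩
  have hr₀r : r₀ < r := by
    by_contra hcon
    push Not at hcon
    have : r ^ N ≤ r₀ ^ N := Nat.pow_le_pow_left hcon N
    omega
  have hr8 : 8 ≤ r := by
    have : 8 ≤ r₀ := (le_max_left _ _).trans (le_max_right _ _)
    omega
  have hr2N : 2 * N ≤ r := by
    have : 2 * N ≤ r₀ := le_max_left _ _
    omega
  have hrl : 2 ^ l₀ ≤ r := by
    have : 2 ^ l₀ ≤ r₀ := (le_max_right _ _).trans (le_max_right _ _)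
    omega
  have hs1 : 1 ≤ s := by omega
  have hrs : r ^ N < 2 * s := by
    have h1 := pow_le_two (r := r) (N := N) (by omega) hr2N
    have h2 := hr2 (r - 1) (by omega)
    omega
  have hlog : l₀ ≤ Nat.log 2 r := by
    have := Nat.log_mono_right (b := 2) hrl
    rwa [Nat.log_pow (by norm_num)] at this
  refine ⟨r, hr1, ?_, ?_, ?_, ?_⟩
  · -- (b)
    have h1 := log_le (by omega) hs1 hr1
    have h2 := hl₀ _ hlog
    have h3 : 400 * J * (Nat.log 2 s + 1) ≤ 400 * J * N * (Nat.log 2 r + 2) := by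
      rw [mul_assoc (400 * J) N]
      exact Nat.mul_le_mul_left _ h1
    calc (400 * J * (Nat.log 2 s + 1)) ^ (2 * J + 8)
        ≤ (400 * J * N * (Nat.log 2 r + 2)) ^ (2 * J + 8) := Nat.pow_le_pow_left h3 _
      _ ≤ 2 ^ Nat.log 2 r := h2
      _ ≤ r := Nat.pow_log_le_self 2 (by omega)
  · -- (c)
    have h1 : r ^ N = r ^ J * r ^ q := by rw [← pow_add, hJq]
    have h2 : 4 ≤ r ^ q := by
      calc 4 ≤ r := by omega
        _ = r ^ 1 := (pow_one r).symm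
        _ ≤ r ^ q := Nat.pow_le_pow_right (by omega) hq1
    have h3 : r ^ J * 4 ≤ r ^ J * r ^ q := Nat.mul_le_mul_left _ h2
    omega
  · -- (d)
    have hr0 : (0 : ℝ) < r := by
      have : 0 < r := by omega
      exact_mod_cast this
    have hr1' : (1 : ℝ) ≤ r := by
      have : 1 ≤ r := by omega
      exact_mod_cast this
    have hs0 : (0 : ℝ) ≤ s := by positivity
    calc (r : ℝ) ^ (q + 5) = (r : ℝ) ^ ((q : ℝ) + 5) := by
          rw [← Real.rpow_natCast]; push_cast; rfl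
      _ ≤ (r : ℝ) ^ ((N : ℝ) * η) := Real.rpow_le_rpow_of_exponent_le hr1' hNη
      _ = ((r : ℝ) ^ N) ^ η := by rw [Real.rpow_mul hr0.le, Real.rpow_natCast]
      _ ≤ (2 * (s : ℝ)) ^ η := by
          apply Real.rpow_le_rpow (by positivity) _ hη.le
          exact_mod_cast hrs.le
      _ = (2 : ℝ) ^ η * (s : ℝ) ^ η := Real.mul_rpow (by norm_num) hs0
      _ ≤ 2 * (s : ℝ) ^ η := by
          apply mul_le_mul_of_nonneg_right _ (Real.rpow_nonneg hs0 η)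
          calc (2 : ℝ) ^ η ≤ (2 : ℝ) ^ (1 : ℝ) := Real.rpow_le_rpow_of_exponent_le (by norm_num) hη1
            _ = 2 := Real.rpow_one 2
  · -- (e)
    intro j hj2 hjJ
    have hr0 : (0 : ℝ) < r := by
      have : 0 < r := by omega
      exact_mod_cast this
    have hr1' : (1 : ℝ) ≤ r := by
      have : 1 ≤ r := by omega
      exact_mod_cast this
    have hr8' : (8 : ℝ) ≤ r := by exact_mod_cast hr8
    have hs0 : (0 : ℝ) ≤ s := by positivity
    -- lower bound of `s ^ η`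
    have h1 : (r : ℝ) ^ ((N : ℝ) * η) ≤ 2 * (s : ℝ) ^ η := by
      calc (r : ℝ) ^ ((N : ℝ) * η) = ((r : ℝ) ^ N) ^ η := by
            rw [Real.rpow_mul hr0.le, Real.rpow_natCast]
        _ ≤ (2 * (s : ℝ)) ^ η := by
            apply Real.rpow_le_rpow (by positivity) _ hη.le
            exact_mod_cast hrs.le
        _ = (2 : ℝ) ^ η * (s : ℝ) ^ η := Real.mul_rpow (by norm_num) hs0
        _ ≤ 2 * (s : ℝ) ^ η := by
            apply mul_le_mul_of_nonneg_right _ (Real.rpow_nonneg hs0 η)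
            calc (2 : ℝ) ^ η ≤ (2 : ℝ) ^ (1 : ℝ) :=
                  Real.rpow_le_rpow_of_exponent_le (by norm_num) hη1
              _ = 2 := Real.rpow_one 2
    -- `r ^ (N η) ≥ r ^ 3 r ^ (j η)`
    have h2 : (r : ℝ) ^ 3 * (r : ℝ) ^ ((j : ℝ) * η) ≤ (r : ℝ) ^ ((N : ℝ) * η) := by
      have h3 : (r : ℝ) ^ 3 = (r : ℝ) ^ (3 : ℝ) := by
        rw [← Real.rpow_natCast]; norm_num
      rw [h3, ← Real.rpow_add hr0]
      apply Real.rpow_le_rpow_of_exponent_le hr1'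
      have h4 : (q : ℝ) + j ≤ N := by
        have : q + j ≤ N := by omega
        exact_mod_cast this
      nlinarith
    -- the left side
    have h5 : (2 * (r : ℝ) ^ j) ^ (1 + η) ≤ 4 * ((r : ℝ) ^ j * (r : ℝ) ^ ((j : ℝ) * η)) := by
      rw [Real.mul_rpow (by norm_num) (by positivity)]
      have h6 : ((r : ℝ) ^ j) ^ (1 + η) = (r : ℝ) ^ j * (r : ℝ) ^ ((j : ℝ) * η) := by
        rw [Real.rpow_add (by positivity), Real.rpow_one, Real.rpow_mul hr0.le, Real.rpow_natCast]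
      rw [h6]
      apply mul_le_mul_of_nonneg_right _ (by positivity)
      calc (2 : ℝ) ^ (1 + η) ≤ (2 : ℝ) ^ (2 : ℝ) :=
            Real.rpow_le_rpow_of_exponent_le (by norm_num) (by linarith)
        _ = 4 := by norm_num
    have h7 : (r : ℝ) ^ j = (r : ℝ) ^ 2 * (r : ℝ) ^ (j - 2) := by
      rw [← pow_add]; congr 1; omega
    have hP : (0 : ℝ) < (r : ℝ) ^ (j - 2) := by positivity
    have hQ : (0 : ℝ) < (r : ℝ) ^ ((j : ℝ) * η) := Real.rpow_pos_of_pos hr0 _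
    calc (2 * (r : ℝ) ^ j) ^ (1 + η) ≤ 4 * ((r : ℝ) ^ j * (r : ℝ) ^ ((j : ℝ) * η)) := h5
      _ = (4 * (r : ℝ) ^ 2 * (r : ℝ) ^ ((j : ℝ) * η)) * (r : ℝ) ^ (j - 2) := by rw [h7]; ring
      _ ≤ (s : ℝ) ^ η * (r : ℝ) ^ (j - 2) := by
          apply mul_le_mul_of_nonneg_right _ hP.le
          have h8 : 8 * (r : ℝ) ^ 2 * (r : ℝ) ^ ((j : ℝ) * η) ≤
              (r : ℝ) ^ 3 * (r : ℝ) ^ ((j : ℝ) * η) := by
            apply mul_le_mul_of_nonneg_right _ hQ.le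
            have : (r : ℝ) ^ 3 = r * (r : ℝ) ^ 2 := by ring
            rw [this]
            apply mul_le_mul_of_nonneg_right hr8' (by positivity)
          linarith
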