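import Pool.Agent.Lib.MP_38fd99_co.Plane

/-! Separated edges are disjoint segments. -/

set_option autoImplicit false

namespace Pool.Agent.GG38

open Finset Classical

namespace PlaneDisj

variable {n : ℕ}

/-- the functional attached to a time -/
noncomputable def phi (δ t : ℝ) (p : ℝ × ℝ) : ℝ := t * p.1 + (1 + t * δ) * p.2

theorem phi_lin (δ t : ℝ) : IsLinearMap ℝ (phi δ t) where
  map_add := by
    intro p q
    unfold phi
    simp only [Prod.fst_add, Prod.snd_add]
    ring
  map_smul := by
    intro c p
    unfold phi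
    simp only [Prod.smul_fst, Prod.smul_snd, smul_eq_mul]
    ring

theorem phi_pos (pos : Fin n → ℝ × ℝ) (δ t : ℝ) (i : Fin n) :
    phi δ t (pos i) = (linesOf pos δ).H i t := by
  unfold phi Lines.H linesOf
  ring

theorem below (pos : Fin n → ℝ × ℝ) (δ : ℝ) (e f : Fin n × Fin n)
    (h : (linesOf pos δ).Below e f) :
    Disjoint (seg pos s(e.1, e.2)) (seg pos s(f.1, f.2)) := by
  obtain ⟨t, h1, h2, h3, h4⟩ := h
  set c := max ((linesOf pos δ).H e.1 t) ((linesOf pos δ).H e.2 t) with hc
  have hle : seg pos s(e.1, e.2) ⊆ {p | phi δ t p ≤ c} := by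
    apply convexHull_min
    · rintro _ ⟨i, hi, rfl⟩
      have hi' : i = e.1 ∨ i = e.2 := Sym2.mem_iff.1 hi
      show phi δ t (pos i) ≤ c
      rw [phi_pos]
      rcases hi' with rfl | rfl
      · exact le_max_left _ _
      · exact le_max_right _ _
    · exact convex_halfSpace_le (phi_lin δ t) c
  have hlt : seg pos s(f.1, f.2) ⊆ {p | c < phi δ t p} := by
    apply convexHull_min
    · rintro _ ⟨i, hi, rfl⟩
      have hi' : i = f.1 ∨ i = f.2 := Sym2.mem_iff.1 hi
      show c < phi δ t (pos i)
      rw [phi_pos]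
      rcases hi' with rfl | rfl
      · exact max_lt h1 h3
      · exact max_lt h2 h4
    · exact convex_halfSpace_gt (phi_lin δ t) c
  rw [Set.disjoint_left]
  intro p hp hq
  have h5 : phi δ t p ≤ c := hle hp
  have h6 : c < phi δ t p := hlt hq
  linarith

end PlaneDisj

theorem planeDisj : StmtPlaneDisj := by
  intro n pos δ e f h
  rcases h with h | h
  · exact PlaneDisj.below pos δ e f h
  · exact (PlaneDisj.below pos δ f e h).symm

end Pool.Agent.GG38
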