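import Pool.Agent.Lib.MP_38fd99_co.Spec

/-! One sided refinement for the slow lines, by time reversal. -/

set_option autoImplicit false

namespace Pool.Agent.GG38

open Finset Classical

variable {ι : Type}

/-- the two crossing counts agree after time reversal -/
theorem RefineA.meet_card (L : Lines ι) {R : Set (ℝ × ℝ)} {E : Finset (ι × ι)}
    (h : CellOK L R E) (a : ι) (ha : a ∈ A E) :
    ((A (Esw E)).filter (fun b => L.rev.Meet (Rrev R) b a)).card =
      ((B E).filter (fun b => L.Meet R a b)).card := by
  rw [A_Esw]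
  congr 1
  apply Finset.filter_congr
  intro b hb
  rw [Lines.rev_Meet]
  exact L.Meet_comm (h.sep a ha b hb).ne'

theorem RefineA.meet_card' (L : Lines ι) {R : Set (ℝ × ℝ)} {E : Finset (ι × ι)}
    (h : CellOK L R E) (b : ι) (hb : b ∈ B E) :
    ((B (Esw E)).filter (fun a => L.rev.Meet (Rrev R) b a)).card =
      ((A E).filter (fun a => L.Meet R a b)).card := by
  rw [B_Esw]
  congr 1
  apply Finset.filter_congr
  intro a ha
  rw [Lines.rev_Meet]
  exact L.Meet_comm (h.sep a ha b hb).ne'

theorem refineA (hB : StmtRefineB) : StmtRefineA := by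
  intro ι L E0 κ K R E hS w s δ lg l M hM hw hs hlg hih hδ1 hδw hδl hT
  obtain ⟨K', R'', E'', hS', h1, h2, h3, h4, h5⟩ :=
    hB ι L.rev (Esw E0) κ K (fun k => Rrev (R k)) (fun k => Esw (E k)) hS.rev w s δ lg l M hM
      (by
        intro k hk a ha
        have ha' : a ∈ A (E k) := by rw [← B_Esw]; exact ha
        have := hw k hk a ha'
        have e := RefineA.meet_card L (hS.ok k hk) a ha'
        calc _ = _ := e
          _ ≤ w := this)
      (by rw [B_Esw]; exact hs)
      (by rw [A_Esw]; exact hlg)
      (by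
        intro F hF hFA hFB
        have h := hih (Esw F) (by have := Esw_mono hF; rwa [Esw_Esw] at this)
          (by rw [A_Esw]; exact hFB) (by rw [B_Esw]; exact hFA)
        rw [card_Esw] at h
        have e : L.rev.nu F = L.nu (Esw F) := by
          have := L.nu_rev (Esw F)
          rwa [Esw_Esw] at this
        rw [e]; exact h)
      hδ1 hδw hδl
      (by rw [L.nu_rev, tot_Esw]; exact hT)
  refine ⟨K', fun z => Rrev (R'' z), fun z => Esw (E'' z), ?_, ?_, ?_, ?_, ?_, ?_⟩
  · have := hS'.rev
    rwa [Lines.rev_rev, Esw_Esw] at this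
  · intro z hz
    obtain ⟨i1, i2, i3⟩ := h1 z hz
    refine ⟨i1, ?_, ?_⟩
    · have := Rrev_mono i2
      rwa [Rrev_Rrev] at this
    · have := Esw_mono i3
      rwa [Esw_Esw] at this
  · intro z hz
    rw [A_Esw]
    exact h2 z hz
  · rw [tot_Esw] at h3 ⊢
    exact h3
  · intro k hk a
    have := h4 k hk a
    simp only [A_Esw]
    exact this
  · intro k hk b hb
    have hb' : b ∈ A (Esw (E k)) := by rw [A_Esw]; exact hb
    have := h5 k hk b hb'
    rw [RefineA.meet_card' L (hS.ok k hk) b hb] at this
    simp only [B_Esw]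
    exact this

end Pool.Agent.GG38
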