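import Pool.Agent.Lib.MP_38fd99_co.Spec

/-! Two sided refinement of a system of cells. -/

set_option autoImplicit false

namespace Pool.Agent.GG38

open Finset Classical

noncomputable section

namespace RefineAB

variable {ι κ : Type}

/-- the refined index set -/
def idx (K : Finset κ) (J : κ → Finset (ℕ × ℕ)) : Finset (κ × (ℕ × ℕ)) :=
  K.biUnion (fun k => (J k).image (fun z => (k, z)))

theorem mem_idx {K : Finset κ} {J : κ → Finset (ℕ × ℕ)} {z : κ × (ℕ × ℕ)} :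
    z ∈ idx K J ↔ z.1 ∈ K ∧ z.2 ∈ J z.1 := by
  unfold idx
  simp only [Finset.mem_biUnion, Finset.mem_image]
  constructor
  · rintro ⟨k, hk, y, hy, rfl⟩
    exact ⟨hk, hy⟩
  · rintro ⟨h1, h2⟩
    exact ⟨z.1, h1, z.2, h2, rfl⟩

theorem filter_idx {K : Finset κ} {J : κ → Finset (ℕ × ℕ)} {k : κ} (hk : k ∈ K) :
    (idx K J).filter (fun z => z.1 = k) = (J k).image (fun z => (k, z)) := by
  ext z
  simp only [Finset.mem_filter, mem_idx, Finset.mem_image]
  constructor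
  · rintro ⟨⟨h1, h2⟩, rfl⟩
    exact ⟨z.2, h2, rfl⟩
  · rintro ⟨y, hy, rfl⟩
    exact ⟨⟨hk, hy⟩, rfl⟩

theorem sum_filter_idx {K : Finset κ} {J : κ → Finset (ℕ × ℕ)} {k : κ} (hk : k ∈ K)
    (f : κ × (ℕ × ℕ) → ℕ) :
    ∑ z ∈ (idx K J).filter (fun z => z.1 = k), f z = ∑ z ∈ J k, f (k, z) := by
  rw [filter_idx hk, Finset.sum_image]
  intro a _ b _ hab
  exact (Prod.mk.inj hab).2

theorem sum_idx (K : Finset κ) (J : κ → Finset (ℕ × ℕ)) (f : κ × (ℕ × ℕ) → ℕ) :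
    ∑ z ∈ idx K J, f z = ∑ k ∈ K, ∑ z ∈ J k, f (k, z) := by
  rw [← Finset.sum_fiberwise_of_maps_to (s := idx K J) (t := K) (g := fun z => z.1)
    (fun z hz => (mem_idx.1 hz).1)]
  exact Finset.sum_congr rfl fun k hk => sum_filter_idx hk f

theorem sys_mono {L : Lines ι} {E0 : Finset (ι × ι)} {K : Finset κ}
    {R : κ → Set (ℝ × ℝ)} {E F : κ → Finset (ι × ι)} (h : Sys L E0 K R E)
    (hF : ∀ k ∈ K, F k ⊆ E k) : Sys L E0 K R F :=
  ⟨fun k hk => (hF k hk).trans (h.sub k hk), fun k hk => (h.ok k hk).mono (hF k hk), h.disj⟩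

end RefineAB

open RefineAB in
theorem refineAB (hC : StmtClean) (hCA : StmtCleanA) (hS : StmtSplit) (h1 : StmtCutAB1)
    (h2 : StmtCutAB2) (h3 : StmtCutAB3) (h4 : StmtCutAB4) : StmtRefineAB := by
  intro ι L E0 κ K R E hsys w s δ lg l r M hM hw hAs hBs hAlg hBlg ih hδ hδw hδl hwr hbig
  rcases Nat.eq_zero_or_pos lg with hlg | hlg
  · -- everything is empty
    subst hlg
    have hA0 : A E0 = ∅ := by
      rw [← Finset.card_eq_zero]
      simpa using hAlg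
    have hE0 : E0 = ∅ := by
      rw [Finset.eq_empty_iff_forall_notMem]
      intro p hp
      have := fst_mem_A hp
      rw [hA0] at this
      simp at this
    have hT : tot K E = 0 := by
      unfold tot
      refine Finset.sum_eq_zero fun k hk => ?_
      have := hsys.sub k hk
      rw [hE0] at this
      simp [Finset.subset_empty.1 this]
    refine ⟨∅, fun _ => ∅, fun _ => ∅, ⟨by simp, by simp, by simp⟩, by simp, ?_, ?_⟩
    · rw [hT]; exact Nat.zero_le _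
    · intro k _
      simp
  -- the main case
  have hlgR : (1 : ℝ) ≤ lg := by exact_mod_cast hlg
  have hnu : (0 : ℝ) ≤ s * M * L.nu E0 := by positivity
  obtain ⟨E₁, hE₁, hT₁, hc₁⟩ := hCA ι L E0 κ K R E hsys w s δ lg M hM
    (fun k hk a _ => (Finset.card_filter_le _ _).trans (hw k hk).2) hAs hBlg ih hδ hδw (by
      refine le_trans ?_ hbig
      have e1 : 8 * (lg : ℝ) * s * M * L.nu E0 = (8 * lg) * (s * M * L.nu E0) := by ring
      have e2 : 16 * (lg : ℝ) ^ 2 * s * M * L.nu E0 = (16 * (lg : ℝ) ^ 2) * (s * M * L.nu E0) := by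
        ring
      rw [e1, e2]
      refine mul_le_mul_of_nonneg_right ?_ hnu
      nlinarith)
  have hsys₁ : Sys L E0 K R E₁ := sys_mono hsys hE₁
  obtain ⟨E₂, hE₂, hT₂, hc₂⟩ := hC ι L E0 κ K R E₁ hsys₁ w s δ lg M hM
    (fun k hk b _ => (Finset.card_filter_le _ _).trans
      ((Finset.card_le_card (A_mono (hE₁ k hk))).trans (hw k hk).1)) hBs hAlg ih hδ hδw (by
      have e0 : ((tot K E : ℕ) : ℝ) ≤ 2 * lg * tot K E₁ := by exact_mod_cast hT₁
      have hδR : (0 : ℝ) ≤ δ := by positivity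
      have e3 : (δ : ℝ) * tot K E ≤ δ * (2 * lg * tot K E₁) := mul_le_mul_of_nonneg_left e0 hδR
      have e4 : (2 * (lg : ℝ)) * (8 * (lg : ℝ) * s * M * L.nu E0) ≤ (2 * lg) * (δ * tot K E₁) := by
        calc (2 * (lg : ℝ)) * (8 * (lg : ℝ) * s * M * L.nu E0)
            = 16 * (lg : ℝ) ^ 2 * s * M * L.nu E0 := by ring
          _ ≤ δ * tot K E := hbig
          _ ≤ δ * (2 * lg * tot K E₁) := e3
          _ = (2 * lg) * (δ * tot K E₁) := by ring
      exact le_of_mul_le_mul_left e4 (by linarith))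
  have hE₂E : ∀ k ∈ K, E₂ k ⊆ E k := fun k hk => (hE₂ k hk).trans (hE₁ k hk)
  have hsys₂ : Sys L E0 K R E₂ := sys_mono hsys hE₂E
  have hl1 : 1 ≤ l := by omega
  have hex : ∀ k ∈ K, ∃ (xA xB : ι → ℕ) (i i' : ℕ), Blocks (A (E₂ k)) (L.Lt (R k)) l xA ∧
      Blocks (B (E₂ k)) (L.Lt (R k)) l xB ∧
      (E₂ k).card ≤ 16 * ∑ z ∈ cutJ (E₂ k) xA xB i i', (cutE (E₂ k) xA xB z).card := by
    intro k hk
    have hs := hS ι L (R k) (E₂ k) (hsys₂.ok k hk) (2 * δ) l (by omega) hl1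
    obtain ⟨xB, hxB⟩ := hs.1 (hc₂ k hk)
    obtain ⟨xA, hxA⟩ := hs.2 (fun a ha => by
      have ha' := A_mono (hE₂ k hk) ha
      refine le_trans (Finset.card_le_card ?_) (hc₁ k hk a ha')
      unfold cr
      exact Finset.filter_subset_filter _ (A_mono (hE₂ k hk)))
    obtain ⟨i, i', hi⟩ := h4 ι (E₂ k) xA xB
    exact ⟨xA, xB, i, i', hxA, hxB, hi⟩
  choose! xA xB i i' hxA hxB hcard using hex
  set J : κ → Finset (ℕ × ℕ) := fun k => cutJ (E₂ k) (xA k) (xB k) (i k) (i' k) with hJ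
  refine ⟨idx K J, fun z => cutR L (R z.1) (E₂ z.1) (xA z.1) (xB z.1) z.2,
    fun z => cutE (E₂ z.1) (xA z.1) (xB z.1) z.2, ⟨?_, ?_, ?_⟩, ?_, ?_, ?_⟩
  · intro z hz
    have hz1 := (mem_idx.1 hz).1
    exact (Finset.filter_subset _ _).trans (hsys₂.sub z.1 hz1)
  · intro z hz
    have hz1 := (mem_idx.1 hz).1
    exact h1 ι L (R z.1) (E₂ z.1) (hsys₂.ok z.1 hz1) l (xA z.1) (xB z.1) hl1 (hxA z.1 hz1)
      (hxB z.1 hz1) z.2
  · intro z hz z' hz' hne
    obtain ⟨k, y⟩ := z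
    obtain ⟨k', y'⟩ := z'
    obtain ⟨hk, hy⟩ := mem_idx.1 hz
    obtain ⟨hk', hy'⟩ := mem_idx.1 hz'
    simp only at hk hy hk' hy' ⊢
    by_cases hkk : k = k'
    · subst hkk
      have hyy : y ≠ y' := fun h => hne (by rw [h])
      exact h2 ι L (R k) (E₂ k) l (xA k) (xB k) hl1 (hxA k hk) (hxB k hk) (i k) (i' k) y hy y' hy'
        hyy
    · have hd := hsys.disj k hk k' hk' hkk
      exact Disjoint.mono (Set.inter_subset_left) (Set.inter_subset_left) hd
  · intro z hz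
    obtain ⟨hz1, hz2⟩ := mem_idx.1 hz
    refine ⟨hz1, ?_, ?_⟩
    · refine le_trans (Finset.card_le_card ?_) ((hxA z.1 hz1).le z.2.1)
      intro a ha
      obtain ⟨b, hb⟩ := mem_A.1 ha
      have hb' := Finset.mem_filter.1 hb
      exact Finset.mem_filter.2 ⟨mem_A.2 ⟨b, hb'.1⟩, hb'.2.1⟩
    · refine le_trans (Finset.card_le_card ?_) ((hxB z.1 hz1).le z.2.2)
      intro b hb
      obtain ⟨a, ha⟩ := mem_B.1 hb
      have ha' := Finset.mem_filter.1 ha
      exact Finset.mem_filter.2 ⟨mem_B.2 ⟨a, ha'.1⟩, ha'.2.2⟩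
  · have e1 : tot (idx K J) (fun z => cutE (E₂ z.1) (xA z.1) (xB z.1) z.2) =
        ∑ k ∈ K, ∑ z ∈ J k, (cutE (E₂ k) (xA k) (xB k) z).card := by
      unfold tot
      rw [sum_idx]
    have e2 : tot K E₂ ≤ 16 * tot (idx K J) (fun z => cutE (E₂ z.1) (xA z.1) (xB z.1) z.2) := by
      rw [e1, Finset.mul_sum]
      exact Finset.sum_le_sum fun k hk => hcard k hk
    calc tot K E ≤ 2 * lg * tot K E₁ := hT₁
      _ ≤ 2 * lg * (2 * lg * tot K E₂) := Nat.mul_le_mul_left _ hT₂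
      _ ≤ 2 * lg * (2 * lg *
          (16 * tot (idx K J) (fun z => cutE (E₂ z.1) (xA z.1) (xB z.1) z.2))) :=
        Nat.mul_le_mul_left _ (Nat.mul_le_mul_left _ e2)
      _ = 64 * lg ^ 2 * tot (idx K J) (fun z => cutE (E₂ z.1) (xA z.1) (xB z.1) z.2) := by ring
  · intro k hk
    rw [sum_filter_idx hk]
    have hA' : (A (E₂ k)).card ≤ r * l :=
      ((Finset.card_le_card (A_mono (hE₂E k hk))).trans (hw k hk).1).trans hwr
    have hB' : (B (E₂ k)).card ≤ r * l :=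
      ((Finset.card_le_card (B_mono (hE₂E k hk))).trans (hw k hk).2).trans hwr
    refine le_trans (h3 ι L (R k) (E₂ k) (hsys₂.ok k hk) l r (xA k) (xB k) hl1 (hxA k hk)
      (hxB k hk) hA' hB' (i k) (i' k)) ?_
    exact Nat.mul_le_mul_left _ (L.nu_mono (hE₂E k hk))

end

end Pool.Agent.GG38
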