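import Pool.Agent.Lib.MP_38fd99_co.Spec

/-! One sided refinement (fast lines). -/

set_option autoImplicit false

namespace Pool.Agent.GG38

open Finset Classical

namespace RefineB

variable {ι κ : Type}

/-- pigeonhole for the residues modulo 4 -/
theorem residue (E : Finset (ι × ι)) (x : ι → ℕ) :
    ∃ i, E.card ≤ 4 * (E.filter (fun p => x p.2 % 4 = i)).card := by
  by_contra hcon
  push Not at hcon
  have h1 : E.card = ∑ i ∈ Finset.range 4, (E.filter (fun p => x p.2 % 4 = i)).card := by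
    apply Finset.card_eq_sum_card_fiberwise
    intro p _
    exact Finset.mem_coe.2 (Finset.mem_range.2 (Nat.mod_lt _ (by norm_num)))
  rw [Finset.sum_range_succ, Finset.sum_range_succ, Finset.sum_range_succ,
    Finset.sum_range_succ, Finset.sum_range_zero] at h1
  have h0 := hcon 0
  have h2 := hcon 1
  have h3 := hcon 2
  have h4 := hcon 3
  omega

/-- the numbers of the blocks which are used -/
noncomputable def J (E₁ : κ → Finset (ι × ι)) (x : κ → ι → ℕ) (i : κ → ℕ) (k : κ) : Finset ℕ :=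
  ((E₁ k).image (fun p => x k p.2)).filter (fun j => j % 4 = i k)

theorem mem_J {E₁ : κ → Finset (ι × ι)} {x : κ → ι → ℕ} {i : κ → ℕ} {k : κ} {j : ℕ} :
    j ∈ J E₁ x i k ↔ (∃ p ∈ E₁ k, x k p.2 = j) ∧ j % 4 = i k := by
  simp only [J, Finset.mem_filter, Finset.mem_image]

/-- the new index set -/
noncomputable def KK (K : Finset κ) (E₁ : κ → Finset (ι × ι)) (x : κ → ι → ℕ) (i : κ → ℕ) :
    Finset (κ × ℕ) :=
  K.biUnion (fun k => (J E₁ x i k).image (fun j => (k, j)))

theorem mem_KK {K : Finset κ} {E₁ : κ → Finset (ι × ι)} {x : κ → ι → ℕ} {i : κ → ℕ}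
    (z : κ × ℕ) : z ∈ KK K E₁ x i ↔ z.1 ∈ K ∧ z.2 ∈ J E₁ x i z.1 := by
  obtain ⟨k, j⟩ := z
  simp only [KK, Finset.mem_biUnion, Finset.mem_image, Prod.mk.injEq]
  constructor
  · rintro ⟨k', hk', j', hj', rfl, rfl⟩
    exact ⟨hk', hj'⟩
  · rintro ⟨hk, hj⟩
    exact ⟨k, hk, j, hj, rfl, rfl⟩

/-- the new sets of edges -/
noncomputable def EE (E₁ : κ → Finset (ι × ι)) (x : κ → ι → ℕ) (z : κ × ℕ) : Finset (ι × ι) :=
  (E₁ z.1).filter (fun p => x z.1 p.2 = z.2)

theorem mem_EE {E₁ : κ → Finset (ι × ι)} {x : κ → ι → ℕ} {z : κ × ℕ} {p : ι × ι} :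
    p ∈ EE E₁ x z ↔ p ∈ E₁ z.1 ∧ x z.1 p.2 = z.2 := by
  simp only [EE, Finset.mem_filter]

theorem EE_sub (E₁ : κ → Finset (ι × ι)) (x : κ → ι → ℕ) (z : κ × ℕ) : EE E₁ x z ⊆ E₁ z.1 :=
  Finset.filter_subset _ _

theorem x_of_mem_B {E₁ : κ → Finset (ι × ι)} {x : κ → ι → ℕ} {z : κ × ℕ} {b : ι}
    (h : b ∈ B (EE E₁ x z)) : x z.1 b = z.2 := by
  obtain ⟨a, ha⟩ := mem_B.1 h
  exact (mem_EE.1 ha).2

/-- the total number of edges -/
theorem sum_J (E₁ : κ → Finset (ι × ι)) (x : κ → ι → ℕ) (i : κ → ℕ) (k : κ) :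
    ∑ j ∈ J E₁ x i k, (EE E₁ x (k, j)).card
      = ((E₁ k).filter (fun p => x k p.2 % 4 = i k)).card := by
  have h : ((E₁ k).filter (fun p => x k p.2 % 4 = i k)).card
      = ∑ j ∈ J E₁ x i k,
        (((E₁ k).filter (fun p => x k p.2 % 4 = i k)).filter (fun p => x k p.2 = j)).card := by
    apply Finset.card_eq_sum_card_fiberwise
    intro p hp
    have hp' := Finset.mem_filter.1 (Finset.mem_coe.1 hp)
    exact Finset.mem_coe.2 (mem_J.2 ⟨⟨p, hp'.1, rfl⟩, hp'.2⟩)
  rw [h]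
  apply Finset.sum_congr rfl
  intro j hj
  congr 1
  ext p
  simp only [mem_EE, Finset.mem_filter]
  constructor
  · rintro ⟨h1, h2⟩
    exact ⟨⟨h1, by rw [h2]; exact (mem_J.1 hj).2⟩, h2⟩
  · rintro ⟨⟨h1, _⟩, h2⟩
    exact ⟨h1, h2⟩

end RefineB

open RefineB in
theorem refineB (hC : StmtClean) (hS : StmtSplit) (h1 : StmtCutB1) (hD : StmtCutDisj)
    (h3 : StmtCutB3) : StmtRefineB := by
  intro ι L E0 κ K R E hsys w s δ lg l M hM hw hs hlg ih hδ hδw hδl hbig
  have hl : 1 ≤ l := by omega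
  obtain ⟨E₁, hE₁, htot, hcr⟩ := hC ι L E0 κ K R E hsys w s δ lg M hM hw hs hlg ih hδ hδw hbig
  have hcell : ∀ k ∈ K, CellOK L (R k) (E₁ k) := fun k hk => (hsys.ok k hk).mono (hE₁ k hk)
  have hx' : ∀ k, ∃ x : ι → ℕ, k ∈ K → Blocks (B (E₁ k)) (L.Lt (R k)) l x := by
    intro k
    by_cases hk : k ∈ K
    · obtain ⟨x, hx⟩ := (hS ι L (R k) (E₁ k) (hcell k hk) (2 * δ) l (by omega) hl).1
        (hcr k hk)
      exact ⟨x, fun _ => hx⟩
    · exact ⟨fun _ => 0, fun h => absurd h hk⟩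
  choose x hx using hx'
  choose i hi using fun k => residue (E₁ k) (x k)
  refine ⟨KK K E₁ x i, fun z => R z.1 ∩ bstrip L (B (E₁ z.1)) (x z.1) z.2, EE E₁ x, ?_, ?_, ?_,
    ?_, ?_, ?_⟩
  · -- the system
    refine ⟨?_, ?_, ?_⟩
    · intro z hz
      have hz' := (mem_KK z).1 hz
      exact ((EE_sub E₁ x z).trans (hE₁ _ hz'.1)).trans (hsys.sub _ hz'.1)
    · intro z hz
      have hz' := (mem_KK z).1 hz
      exact h1 ι L (R z.1) (E₁ z.1) (hcell _ hz'.1) l (x z.1) hl (hx _ hz'.1) z.2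
    · intro z hz z' hz' hne
      have hz1 := (mem_KK z).1 hz
      have hz2 := (mem_KK z').1 hz'
      obtain ⟨k, j⟩ := z
      obtain ⟨k', j'⟩ := z'
      simp only at hz1 hz2 ⊢
      by_cases hkk : k = k'
      · subst hkk
        have hjj : j ≠ j' := fun h => hne (by rw [h])
        have a1 := (mem_J.1 hz1.2)
        have a2 := (mem_J.1 hz2.2)
        obtain ⟨⟨p, hp, hpj⟩, hj4⟩ := a1
        obtain ⟨⟨p', hp', hpj'⟩, hj4'⟩ := a2
        have key : Disjoint (bstrip L (B (E₁ k)) (x k) j) (bstrip L (B (E₁ k)) (x k) j') := by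
          rcases lt_or_gt_of_ne hjj with h | h
          · exact hD ι L (B (E₁ k)) (L.Lt (R k)) l (x k) hl (hx k hz1.1) j j' (by omega)
              ⟨p'.2, snd_mem_B hp', hpj'⟩
          · exact (hD ι L (B (E₁ k)) (L.Lt (R k)) l (x k) hl (hx k hz1.1) j' j (by omega)
              ⟨p.2, snd_mem_B hp, hpj⟩).symm
        exact key.mono Set.inter_subset_right Set.inter_subset_right
      · exact (hsys.disj k hz1.1 k' hz2.1 hkk).mono Set.inter_subset_left Set.inter_subset_left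
  · intro z hz
    have hz' := (mem_KK z).1 hz
    exact ⟨hz'.1, Set.inter_subset_left, (EE_sub E₁ x z).trans (hE₁ _ hz'.1)⟩
  · intro z hz
    have hz' := (mem_KK z).1 hz
    refine le_trans (Finset.card_le_card ?_) ((hx _ hz'.1).le z.2)
    intro b hb
    exact Finset.mem_filter.2 ⟨B_mono (EE_sub E₁ x z) hb, x_of_mem_B hb⟩
  · have h2 : tot (KK K E₁ x i) (EE E₁ x)
        = ∑ k ∈ K, ((E₁ k).filter (fun p => x k p.2 % 4 = i k)).card := by
      unfold tot
      rw [Finset.sum_finset_product (KK K E₁ x i) K (J E₁ x i) mem_KK]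
      exact Finset.sum_congr rfl (fun k _ => sum_J E₁ x i k)
    have h4 : tot K E₁ ≤ 4 * tot (KK K E₁ x i) (EE E₁ x) := by
      rw [h2, Finset.mul_sum]
      exact Finset.sum_le_sum (fun k _ => hi k)
    calc tot K E ≤ 2 * lg * tot K E₁ := htot
      _ ≤ 2 * lg * (4 * tot (KK K E₁ x i) (EE E₁ x)) := Nat.mul_le_mul_left _ h4
      _ = 8 * lg * tot (KK K E₁ x i) (EE E₁ x) := by ring
  · intro k hk b
    rw [Finset.card_le_one]
    intro z hz z' hz'
    obtain ⟨-, hz1, hz2⟩ := Finset.mem_filter.1 hz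
    obtain ⟨-, hz1', hz2'⟩ := Finset.mem_filter.1 hz'
    have e1 := x_of_mem_B hz2
    have e2 := x_of_mem_B hz2'
    rw [hz1] at e1
    rw [hz1'] at e2
    exact Prod.ext (hz1.trans hz1'.symm) (e1.symm.trans e2)
  · intro k hk a ha
    by_cases ha1 : a ∈ A (E₁ k)
    · have h5 := h3 ι L (R k) (E₁ k) (hcell k hk) l (x k) hl (hx k hk) (i k) a ha1
      have h6 : ((KK K E₁ x i).filter (fun z => z.1 = k ∧ a ∈ A (EE E₁ x z))).card ≤
          ((((E₁ k).filter (fun p => p.1 = a)).image (fun p => x k p.2)).filter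
            (fun j => j % 4 = i k)).card := by
        apply Finset.card_le_card_of_injOn (fun z => z.2)
        · intro z hz
          obtain ⟨hz0, hz1, hz2⟩ := Finset.mem_filter.1 (Finset.mem_coe.1 hz)
          have hz3 := (mem_J.1 ((mem_KK z).1 hz0).2).2
          rw [hz1] at hz3
          obtain ⟨b, hb⟩ := mem_A.1 hz2
          have hb' := mem_EE.1 hb
          rw [hz1] at hb'
          refine Finset.mem_coe.2 (Finset.mem_filter.2 ⟨Finset.mem_image.2 ⟨(a, b), ?_, hb'.2⟩,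
            hz3⟩)
          exact Finset.mem_filter.2 ⟨hb'.1, rfl⟩
        · intro z hz z' hz' he
          obtain ⟨-, hz1, -⟩ := Finset.mem_filter.1 (Finset.mem_coe.1 hz)
          obtain ⟨-, hz1', -⟩ := Finset.mem_filter.1 (Finset.mem_coe.1 hz')
          exact Prod.ext (hz1.trans hz1'.symm) he
      have h7 : ((B (E₁ k)).filter (fun b => L.Meet (R k) a b)).card ≤
          ((B (E k)).filter (fun b => L.Meet (R k) a b)).card :=
        Finset.card_le_card (Finset.filter_subset_filter _ (B_mono (hE₁ k hk)))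
      calc l * ((KK K E₁ x i).filter (fun z => z.1 = k ∧ a ∈ A (EE E₁ x z))).card
          ≤ l * ((((E₁ k).filter (fun p => p.1 = a)).image (fun p => x k p.2)).filter
            (fun j => j % 4 = i k)).card := Nat.mul_le_mul_left _ h6
        _ ≤ l + ((B (E₁ k)).filter (fun b => L.Meet (R k) a b)).card := h5
        _ ≤ l + ((B (E k)).filter (fun b => L.Meet (R k) a b)).card :=
          Nat.add_le_add_left h7 _
    · have h8 : (KK K E₁ x i).filter (fun z => z.1 = k ∧ a ∈ A (EE E₁ x z)) = ∅ := by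
        apply Finset.filter_eq_empty_iff.2
        rintro z hz ⟨hz1, hz2⟩
        apply ha1
        rw [← hz1]
        exact A_mono (EE_sub E₁ x z) hz2
      rw [h8]
      simp

end Pool.Agent.GG38
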