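import Pool.Agent.Lib.MP_38fd99_co.Spec

/-!
# Regularisation of one cell
-/

set_option autoImplicit false

namespace Pool.Agent.GG38

open Finset Classical

noncomputable section

namespace Regular

variable {ι : Type}

lemma degB_le (E : Finset (ι × ι)) (b : ι) : degB E b ≤ (A E).card := by
  unfold degB A
  have h1 : (E.filter (fun p => p.2 = b)).card =
      ((E.filter (fun p => p.2 = b)).image Prod.fst).card := by
    symm
    apply Finset.card_image_of_injOn
    intro p hp q hq h
    simp only [Finset.coe_filter, Set.mem_setOf_eq] at hp hq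
    exact Prod.ext h (hp.2.trans hq.2.symm)
  rw [h1]
  exact Finset.card_le_card (Finset.image_subset_image (Finset.filter_subset _ _))

lemma degB_pos {E : Finset (ι × ι)} {p : ι × ι} (hp : p ∈ E) : 1 ≤ degB E p.2 := by
  unfold degB
  exact Finset.card_pos.mpr ⟨p, Finset.mem_filter.mpr ⟨hp, rfl⟩⟩

end Regular

open Regular in
theorem regular : StmtRegular := by
  intro ι E lg hlg
  by_cases hE : E = ∅
  · refine ⟨∅, Finset.empty_subset _, 1, le_refl _, ?_, ?_⟩
    · rw [hE]
      simp
    · intro b hb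
      simp [B] at hb
  obtain ⟨p₀, hp₀⟩ := Finset.nonempty_iff_ne_empty.mpr hE
  have hlog : ∀ p ∈ E, Nat.log 2 (degB E p.2) ∈ Finset.range lg := by
    intro p hp
    rw [Finset.mem_range]
    have h1 := degB_pos hp
    exact Nat.log_lt_of_lt_pow (by omega) ((degB_le E p.2).trans_lt hlg)
  have hne : (Finset.range lg).Nonempty := ⟨_, hlog p₀ hp₀⟩
  obtain ⟨j, hj, hmax⟩ := Finset.exists_max_image (Finset.range lg)
    (fun j => (E.filter (fun p => Nat.log 2 (degB E p.2) = j)).card) hne
  have hcard : E.card ≤ lg * (E.filter (fun p => Nat.log 2 (degB E p.2) = j)).card := by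
    rw [Finset.card_eq_sum_card_fiberwise (f := fun p : ι × ι => Nat.log 2 (degB E p.2))
      (t := Finset.range lg) hlog]
    calc _ ≤ ∑ _i ∈ Finset.range lg, (E.filter (fun p => Nat.log 2 (degB E p.2) = j)).card :=
          Finset.sum_le_sum fun i hi => hmax i hi
      _ = _ := by rw [Finset.sum_const, Finset.card_range, smul_eq_mul]
  refine ⟨E.filter (fun p => Nat.log 2 (degB E p.2) = j), Finset.filter_subset _ _, 2 ^ j,
    Nat.one_le_two_pow, hcard, ?_⟩
  intro b hb
  unfold B at hb
  obtain ⟨p, hp, rfl⟩ := Finset.mem_image.mp hb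
  obtain ⟨hpE, hpj⟩ := Finset.mem_filter.mp hp
  have hdeg : degB (E.filter (fun p => Nat.log 2 (degB E p.2) = j)) p.2 = degB E p.2 := by
    show ((E.filter (fun p => Nat.log 2 (degB E p.2) = j)).filter (fun q => q.2 = p.2)).card =
      (E.filter (fun q => q.2 = p.2)).card
    congr 1
    ext q
    simp only [Finset.mem_filter]
    constructor
    · rintro ⟨⟨h1, -⟩, h2⟩
      exact ⟨h1, h2⟩
    · rintro ⟨h1, h2⟩
      refine ⟨⟨h1, ?_⟩, h2⟩
      rw [h2]
      exact hpj
  rw [hdeg]
  have h1 := degB_pos hpE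
  have h2 := Nat.pow_log_le_self 2 (x := degB E p.2) (by omega)
  have h3 := Nat.lt_pow_succ_log_self (b := 2) (by norm_num) (degB E p.2)
  rw [hpj] at h2 h3
  rw [pow_succ] at h3
  exact ⟨h2, by omega⟩

end

end Pool.Agent.GG38
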