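import Pool.Agent.Lib.MP_38fd99_co.Spec

set_option autoImplicit false

namespace Pool.Agent.GG38

open Finset Classical

theorem removal : StmtRemoval := by
  intro α V W w δ hδ hδw
  set out : α → ℕ := fun b => (V.filter (fun c => W b c)).card with hout
  set V₂ : Finset α := V.filter (fun b => out b ≤ δ) with hV₂
  set inn : α → ℕ := fun c => (V₂.filter (fun b => W b c)).card with hinn
  set V' : Finset α := V₂.filter (fun c => inn c ≤ δ) with hV'
  have hV₂V : V₂ ⊆ V := Finset.filter_subset _ _
  have hV'V₂ : V' ⊆ V₂ := Finset.filter_subset _ _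
  set q : ℕ := ∑ b ∈ V, min (out b) w with hq
  refine ⟨V', hV'V₂.trans hV₂V, ?_, ?_⟩
  · have hsub : V \ V' ⊆ (V.filter (fun b => δ < out b)) ∪ (V₂.filter (fun c => δ < inn c)) := by
      intro b hb
      rw [Finset.mem_sdiff] at hb
      rw [Finset.mem_union, Finset.mem_filter, Finset.mem_filter]
      by_cases h1 : out b ≤ δ
      · right
        have h2 : b ∈ V₂ := Finset.mem_filter.2 ⟨hb.1, h1⟩
        refine ⟨h2, ?_⟩
        by_contra h3
        exact hb.2 (Finset.mem_filter.2 ⟨h2, not_lt.1 h3⟩)
      · left
        exact ⟨hb.1, not_le.1 h1⟩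
    have hH : δ * (V.filter (fun b => δ < out b)).card ≤ q := by
      calc δ * (V.filter (fun b => δ < out b)).card
          = ∑ _b ∈ V.filter (fun b => δ < out b), δ := by
            rw [Finset.sum_const, smul_eq_mul, Nat.mul_comm]
        _ ≤ ∑ b ∈ V.filter (fun b => δ < out b), min (out b) w := by
            apply Finset.sum_le_sum
            intro b hb
            exact le_min (Finset.mem_filter.1 hb).2.le hδw
        _ ≤ q := Finset.sum_le_sum_of_subset (Finset.filter_subset _ _)
    have hH' : δ * (V₂.filter (fun c => δ < inn c)).card ≤ q := by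
      calc δ * (V₂.filter (fun c => δ < inn c)).card
          = ∑ _c ∈ V₂.filter (fun c => δ < inn c), δ := by
            rw [Finset.sum_const, smul_eq_mul, Nat.mul_comm]
        _ ≤ ∑ c ∈ V₂.filter (fun c => δ < inn c), inn c := by
            apply Finset.sum_le_sum
            intro c hc
            exact (Finset.mem_filter.1 hc).2.le
        _ ≤ ∑ c ∈ V₂, inn c := Finset.sum_le_sum_of_subset (Finset.filter_subset _ _)
        _ = ∑ b ∈ V₂, (V₂.filter (fun c => W b c)).card := by
            simp only [hinn, Finset.card_filter]
            rw [Finset.sum_comm]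
        _ ≤ ∑ b ∈ V₂, min (out b) w := by
            apply Finset.sum_le_sum
            intro b hb
            have h1 : (V₂.filter (fun c => W b c)).card ≤ out b :=
              Finset.card_le_card (Finset.filter_subset_filter _ hV₂V)
            have h2 : out b ≤ δ := (Finset.mem_filter.1 hb).2
            exact le_min h1 (h1.trans (h2.trans hδw))
        _ ≤ q := Finset.sum_le_sum_of_subset hV₂V
    calc δ * (V \ V').card
        ≤ δ * ((V.filter (fun b => δ < out b)).card + (V₂.filter (fun c => δ < inn c)).card) := by
          apply Nat.mul_le_mul_left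
          exact (Finset.card_le_card hsub).trans (Finset.card_union_le _ _)
      _ = δ * (V.filter (fun b => δ < out b)).card +
          δ * (V₂.filter (fun c => δ < inn c)).card := Nat.mul_add _ _ _
      _ ≤ q + q := Nat.add_le_add hH hH'
      _ = 2 * q := (Nat.two_mul q).symm
  · intro b hb
    have h1 : V'.filter (fun c => W b c ∨ W c b) ⊆
        (V.filter (fun c => W b c)) ∪ (V₂.filter (fun c => W c b)) := by
      intro c hc
      rw [Finset.mem_filter] at hc
      rw [Finset.mem_union, Finset.mem_filter, Finset.mem_filter]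
      rcases hc.2 with h | h
      · exact Or.inl ⟨hV₂V (hV'V₂ hc.1), h⟩
      · exact Or.inr ⟨hV'V₂ hc.1, h⟩
    have h2 : out b ≤ δ := (Finset.mem_filter.1 (hV'V₂ hb)).2
    have h3 : inn b ≤ δ := (Finset.mem_filter.1 hb).2
    calc (V'.filter (fun c => W b c ∨ W c b)).card
        ≤ out b + inn b := (Finset.card_le_card h1).trans (Finset.card_union_le _ _)
      _ ≤ 2 * δ := by omega

end Pool.Agent.GG38
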