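import Pool.Agent.Lib.MP_38fd99_co.Spec

/-!
# Ranks of times
-/

set_option autoImplicit false

namespace Pool.Agent.GG38

open Finset Classical

noncomputable section

theorem rkk : StmtRk := by
  intro ι L V s Lv hV hs t
  unfold rk times
  calc (((V ×ˢ V).image (fun p => L.tm p.1 p.2)).filter (fun u => u < t)).card
      ≤ ((V ×ˢ V).image (fun p => L.tm p.1 p.2)).card := Finset.card_filter_le _ _
    _ ≤ (V ×ˢ V).card := Finset.card_image_le
    _ = V.card * V.card := Finset.card_product _ _
    _ ≤ s * s := Nat.mul_le_mul hV hV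
    _ < 2 ^ Lv := hs

end

end Pool.Agent.GG38
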