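import Pool.Agent.Lib.MP_38fd99_co.Spec

/-! # The rounds of the refinement -/

set_option autoImplicit false

namespace Pool.Agent.GG38

open Finset Classical

noncomputable section

namespace Rounds

/-- the base case -/
theorem base {ι : Type} (L : Lines ι) (r : ℕ) {κ : Type} (K : Finset κ)
    (E : κ → Finset (ι × ι)) (h : ∀ k ∈ K, (A (E k)).card ≤ r ^ 1 ∧ (B (E k)).card ≤ r ^ 1) :
    tot K E ≤ r ^ 2 * ∑ k ∈ K, L.nu (E k) := by
  unfold tot
  rw [mul_sum]
  refine sum_le_sum fun k hk => ?_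
  obtain ⟨h1, h2⟩ := h k hk
  rcases (E k).eq_empty_or_nonempty with h0 | h0
  · rw [h0, card_empty]
    exact Nat.zero_le _
  · calc (E k).card ≤ (A (E k)).card * (B (E k)).card := card_le_mul _
      _ ≤ r ^ 1 * r ^ 1 := Nat.mul_le_mul h1 h2
      _ = r ^ 2 * 1 := by ring
      _ ≤ r ^ 2 * L.nu (E k) := Nat.mul_le_mul_left _ (L.nu_pos h0)

/-- grouping by the first component -/
theorem group_le {κ κ' : Type} (K : Finset κ) (K' : Finset (κ × κ')) (f : κ × κ' → ℕ) (g : κ → ℕ)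
    (c : ℕ) (h1 : ∀ z ∈ K', z.1 ∈ K)
    (h2 : ∀ k ∈ K, ∑ z ∈ K'.filter (fun z => z.1 = k), f z ≤ c * g k) :
    ∑ z ∈ K', f z ≤ c * ∑ k ∈ K, g k := by
  rw [mul_sum, ← sum_fiberwise_of_maps_to h1]
  exact sum_le_sum h2

end Rounds

theorem rounds (hR : StmtRefineAB) : StmtRounds := by
  intro ι L E0 r s lg J q M ctx j P hj
  have hlg : 1 ≤ lg := by
    by_contra hcon
    have h1 : lg = 0 := by omega
    have h2 := ctx.lg2
    have h3 := ctx.s1
    rw [h1] at h2
    omega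
  have hlg2 : 1 ≤ lg ^ 2 := Nat.one_le_pow _ _ hlg
  revert P
  induction j, hj using Nat.le_induction with
  | base =>
    intro P _ _ _ κ K R E _ hsz _
    simpa using Rounds.base L r K E hsz
  | succ j hj ih =>
    intro P hJ hP hPr κ K R E hsys hsz hE0
    set L2 : ℕ := 64 * lg ^ 2 with hL2
    have hL2' : 1 ≤ L2 := by omega
    have hPL : P * L2 ≤ r := by
      refine le_trans (Nat.mul_le_mul_left _ ?_) hPr
      exact Nat.le_self_pow (by omega) _
    have hr : 1 ≤ r := le_trans (Nat.mul_pos (by omega) (by omega)) hPL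
    set δ : ℕ := 16 * lg ^ 2 * P * r ^ (j - 1) with hδ
    have hrj : r * r ^ (j - 1) = r ^ j := by
      rw [← pow_succ']
      congr 1
      omega
    have hδ4 : 4 * δ ≤ r ^ j := by
      calc 4 * δ = (P * L2) * r ^ (j - 1) := by rw [hδ, hL2]; ring
        _ ≤ r * r ^ (j - 1) := Nat.mul_le_mul_right _ hPL
        _ = r ^ j := hrj
    have hδ1 : 1 ≤ δ := by
      have : 0 < 16 * lg ^ 2 * P * r ^ (j - 1) := by positivity
      exact this
    have hpow : r ^ j ≤ r ^ (j + 1) := Nat.pow_le_pow_right hr (by omega)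
    have hAc : (A E0).card ≤ s := (card_le_card subset_union_left).trans ctx.card
    have hBc : (B E0).card ≤ s := (card_le_card subset_union_right).trans ctx.card
    have hgap := ctx.gap (j + 1) (by omega) hJ
    have hcond : 16 * (lg : ℝ) ^ 2 * s * M (j + 1) * L.nu E0 ≤ δ * tot K E := by
      have h1 : (E0.card : ℝ) ≤ P * tot K E := by exact_mod_cast hE0
      have h2 : (r : ℝ) ^ (j + 1 - 2) = (r : ℝ) ^ (j - 1) := by
        congr 1
      rw [h2] at hgap
      calc 16 * (lg : ℝ) ^ 2 * s * M (j + 1) * L.nu E0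
          = 16 * (lg : ℝ) ^ 2 * (s * M (j + 1) * L.nu E0) := by ring
        _ ≤ 16 * (lg : ℝ) ^ 2 * ((r : ℝ) ^ (j - 1) * E0.card) := by gcongr
        _ ≤ 16 * (lg : ℝ) ^ 2 * ((r : ℝ) ^ (j - 1) * (P * tot K E)) := by gcongr
        _ = δ * tot K E := by
            rw [hδ]
            push_cast
            ring
    obtain ⟨K', R', E', hsys', hsz', htot', hsum'⟩ := hR ι L E0 κ K R E hsys (r ^ (j + 1)) s δ lg
      (r ^ j) r (M (j + 1)) (ctx.M0 _) hsz hAc hBc (lt_of_le_of_lt hAc ctx.lg2)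
      (lt_of_le_of_lt hBc ctx.lg2) (ctx.ih (j + 1) (by omega) hJ) hδ1
      (by omega) hδ4 (by rw [pow_succ']) hcond
    have hP' : P * L2 * (64 * lg ^ 2) ^ j ≤ r := by
      calc P * L2 * (64 * lg ^ 2) ^ j = P * L2 ^ (j + 1) := by rw [← hL2]; ring
        _ ≤ r := hPr
    have hE0' : E0.card ≤ P * L2 * tot K' E' := by
      calc E0.card ≤ P * tot K E := hE0
        _ ≤ P * (64 * lg ^ 2 * tot K' E') := Nat.mul_le_mul_left _ htot'
        _ = P * L2 * tot K' E' := by rw [← hL2]; ring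
    have hih := ih (P * L2) (by omega) (Nat.mul_pos (by omega) (by omega)) hP' (κ × (ℕ × ℕ)) K' R' E' hsys'
      (fun z hz => (hsz' z hz).2) hE0'
    have hgr : ∑ z ∈ K', L.nu (E' z) ≤ (3 * r) * ∑ k ∈ K, L.nu (E k) := by
      refine (Rounds.group_le K K' (fun z => L.nu (E' z)) (fun k => L.nu (E k)) (2 * r + 1)
        (fun z hz => (hsz' z hz).1) hsum').trans ?_
      exact Nat.mul_le_mul_right _ (by omega)
    calc tot K E ≤ 64 * lg ^ 2 * tot K' E' := htot'
      _ ≤ 64 * lg ^ 2 * ((192 * lg ^ 2) ^ (j - 1) * r ^ (j + 1) * ∑ z ∈ K', L.nu (E' z)) :=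
          Nat.mul_le_mul_left _ hih
      _ ≤ 64 * lg ^ 2 * ((192 * lg ^ 2) ^ (j - 1) * r ^ (j + 1) *
            ((3 * r) * ∑ k ∈ K, L.nu (E k))) := by gcongr
      _ = (192 * lg ^ 2 * (192 * lg ^ 2) ^ (j - 1)) * (r * r ^ (j + 1)) *
            ∑ k ∈ K, L.nu (E k) := by ring
      _ = (192 * lg ^ 2) ^ (j + 1 - 1) * r ^ (j + 1 + 1) * ∑ k ∈ K, L.nu (E k) := by
          rw [← pow_succ', ← pow_succ']
          congr 3
          omega

end

end Pool.Agent.GG38
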