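import Pool.Agent.Lib.MP_38fd99_co.Spec

/-!
# The separated case
-/

set_option autoImplicit false

namespace Pool.Agent.GG38

open Finset Classical

namespace Sep

/-- the bound used in the induction -/
def Bd (η C : ℝ) (ι : Type) (L : Lines ι) (E : Finset (ι × ι)) : Prop :=
  (E.card : ℝ) ≤ C * ((A E ∪ B E).card : ℝ) ^ (1 + η) * L.nu E

theorem rpow_split (η : ℝ) (s : ℕ) (hs : 1 ≤ s) :
    (s : ℝ) ^ (1 + η) = (s : ℝ) * (s : ℝ) ^ η := by
  have h : (0 : ℝ) < (s : ℝ) := by exact_mod_cast hs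
  rw [Real.rpow_add h, Real.rpow_one]

theorem card_pos' {ι : Type} {E : Finset (ι × ι)} (h : E.Nonempty) :
    1 ≤ (A E ∪ B E).card := by
  obtain ⟨p, hp⟩ := h
  exact Finset.card_pos.2 ⟨p.1, Finset.mem_union_left _ (fst_mem_A hp)⟩

/-- few vertices -/
theorem smallCase (η C : ℝ) (hη : 0 < η) (hC : 0 ≤ C) (s₀ : ℕ) (hs₀ : (s₀ : ℝ) ≤ C) (ι : Type)
    (L : Lines ι) (E : Finset (ι × ι)) (hne : E.Nonempty) (hs : (A E ∪ B E).card < s₀) :
    Bd η C ι L E := by
  unfold Bd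
  have h1 : 1 ≤ (A E ∪ B E).card := card_pos' hne
  have hn : 1 ≤ L.nu E := L.nu_pos hne
  have h2 : E.card ≤ (A E ∪ B E).card * (A E ∪ B E).card := by
    refine (card_le_mul E).trans ?_
    exact Nat.mul_le_mul (Finset.card_le_card Finset.subset_union_left)
      (Finset.card_le_card Finset.subset_union_right)
  set s := (A E ∪ B E).card with hsdef
  have h3 : (E.card : ℝ) ≤ (s : ℝ) * s := by exact_mod_cast h2
  have h4 : (s : ℝ) ≤ C := le_trans (by exact_mod_cast hs.le) hs₀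
  have h5 : (1 : ℝ) ≤ (s : ℝ) := by exact_mod_cast h1
  have h6 : (s : ℝ) ≤ (s : ℝ) ^ (1 + η) := by
    rw [rpow_split η s h1]
    have h7 : (1 : ℝ) ≤ (s : ℝ) ^ η := Real.one_le_rpow h5 hη.le
    nlinarith
  have h8 : (1 : ℝ) ≤ (L.nu E : ℝ) := by exact_mod_cast hn
  calc (E.card : ℝ) ≤ (s : ℝ) * s := h3
    _ ≤ C * (s : ℝ) ^ (1 + η) := mul_le_mul h4 h6 (by linarith) hC
    _ = C * (s : ℝ) ^ (1 + η) * 1 := by ring
    _ ≤ C * (s : ℝ) ^ (1 + η) * L.nu E := by
        apply mul_le_mul_of_nonneg_left h8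
        positivity

/-- many vertices -/
theorem bigCase (hC0 : StmtCore) (η C : ℝ) (hη : 0 < η) (hC : 2 ≤ C) (J q s : ℕ) (hJ : 3 ≤ J)
    (r : ℕ) (hr1 : s ≤ r ^ (J + q)) (hr2 : (400 * J * (Nat.log 2 s + 1)) ^ (2 * J + 8) ≤ r)
    (hr3 : 2 * r ^ J < s) (hr4 : (r : ℝ) ^ (q + 5) ≤ 2 * (s : ℝ) ^ η)
    (hr5 : ∀ j, 2 ≤ j → j ≤ J →
      (2 * (r : ℝ) ^ j) ^ (1 + η) ≤ (s : ℝ) ^ η * (r : ℝ) ^ (j - 2))
    (ι : Type) (L : Lines ι) (E : Finset (ι × ι)) (hI : Inst L E) (hs : (A E ∪ B E).card = s)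
    (ih : ∀ E' ⊆ E, (A E' ∪ B E').card < s → Bd η C ι L E') :
    Bd η C ι L E := by
  unfold Bd
  rw [hs]
  by_contra hcon
  push Not at hcon
  have hs1 : 1 ≤ s := by omega
  have hrpos : 1 ≤ r := by
    refine le_trans ?_ hr2
    apply Nat.one_le_pow
    positivity
  have hsR : (0 : ℝ) < (s : ℝ) := by exact_mod_cast hs1
  have hC0' : (0 : ℝ) ≤ C := by linarith
  have hctx : Ctx L E r s (Nat.log 2 s + 1) J q (fun j => C * (2 * (r : ℝ) ^ j) ^ (1 + η)) := by
    refine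
      { inst := hI
        card := hs.le
        s1 := hs1
        s_le := hr1
        lg2 := Nat.lt_pow_succ_log_self (by norm_num) s
        J3 := hJ
        M0 := fun j => by positivity
        ih := ?_
        gap := ?_
        big := hr2 }
    · intro j hj1 hjJ E' hE' hA hB
      have h1 : (A E' ∪ B E').card ≤ 2 * r ^ j := by
        refine (Finset.card_union_le _ _).trans ?_
        omega
      have h2 : r ^ j ≤ r ^ J := Nat.pow_le_pow_right hrpos hjJ
      have h3 := ih E' hE' (by omega)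
      unfold Bd at h3
      refine h3.trans ?_
      apply mul_le_mul_of_nonneg_right _ (Nat.cast_nonneg _)
      apply mul_le_mul_of_nonneg_left _ hC0'
      apply Real.rpow_le_rpow (Nat.cast_nonneg _) _ (by linarith)
      exact_mod_cast h1
    · intro j hj2 hjJ
      have h1 := hr5 j hj2 hjJ
      have h2 := rpow_split η s hs1
      have h3 : 0 ≤ (L.nu E : ℝ) := Nat.cast_nonneg _
      have h4 : (0 : ℝ) ≤ (r : ℝ) ^ (j - 2) := by positivity
      calc (s : ℝ) * (C * (2 * (r : ℝ) ^ j) ^ (1 + η)) * L.nu E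
          ≤ (s : ℝ) * (C * ((s : ℝ) ^ η * (r : ℝ) ^ (j - 2))) * L.nu E := by
            apply mul_le_mul_of_nonneg_right _ h3
            apply mul_le_mul_of_nonneg_left _ hsR.le
            exact mul_le_mul_of_nonneg_left h1 hC0'
        _ = (r : ℝ) ^ (j - 2) * (C * (s : ℝ) ^ (1 + η) * L.nu E) := by
            rw [h2]; ring
        _ ≤ (r : ℝ) ^ (j - 2) * E.card := mul_le_mul_of_nonneg_left hcon.le h4
  have hcore := hC0 ι L E r s (Nat.log 2 s + 1) J q _ hctx
  have hcore' : (E.card : ℝ) ≤ (s : ℝ) * (r : ℝ) ^ (q + 5) * L.nu E := by exact_mod_cast hcore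
  have h3 : 0 ≤ (L.nu E : ℝ) := Nat.cast_nonneg _
  have h2 := rpow_split η s hs1
  have h5 : (s : ℝ) * (r : ℝ) ^ (q + 5) * L.nu E ≤ C * (s : ℝ) ^ (1 + η) * L.nu E := by
    apply mul_le_mul_of_nonneg_right _ h3
    rw [h2]
    have h6 : (0 : ℝ) ≤ (s : ℝ) ^ η := by positivity
    calc (s : ℝ) * (r : ℝ) ^ (q + 5) ≤ (s : ℝ) * (2 * (s : ℝ) ^ η) :=
          mul_le_mul_of_nonneg_left hr4 hsR.le
      _ = 2 * ((s : ℝ) * (s : ℝ) ^ η) := by ring
      _ ≤ C * ((s : ℝ) * (s : ℝ) ^ η) := mul_le_mul_of_nonneg_right hC (by positivity)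
  linarith

end Sep

open Pool.Agent.GG38.Sep in
/-- **The separated case.** -/
theorem sep (hC : StmtCore) (hP : StmtParam) : StmtSep := by
  intro η hη hη1
  obtain ⟨J, q, s₀, hJ, hs₀, hpar⟩ := hP η hη hη1
  refine ⟨max (s₀ : ℝ) 2, le_trans (by norm_num) (le_max_right _ _), ?_⟩
  set C : ℝ := max (s₀ : ℝ) 2 with hCdef
  have hC2 : 2 ≤ C := le_max_right _ _
  have hCs : (s₀ : ℝ) ≤ C := le_max_left _ _
  have key : ∀ (s : ℕ) (ι : Type) (L : Lines ι) (E : Finset (ι × ι)), Inst L E →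
      (A E ∪ B E).card = s → Bd η C ι L E := by
    intro s
    induction s using Nat.strong_induction_on with
    | _ s ihs =>
      intro ι L E hI hs
      rcases E.eq_empty_or_nonempty with hE | hE
      · unfold Bd
        rw [hE, Finset.card_empty]
        have : (0 : ℝ) ≤ C := by linarith
        push_cast
        positivity
      · rcases lt_or_ge s s₀ with h | h
        · exact smallCase η C hη (by linarith) s₀ hCs ι L E hE (by omega)
        · obtain ⟨r, hr1, hr2, hr3, hr4, hr5⟩ := hpar s h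
          refine bigCase hC η C hη hC2 J q s hJ r hr1 hr2 hr3 hr4 hr5 ι L E hI hs ?_
          intro E' hE' hlt
          exact ihs _ hlt ι L E' (hI.mono hE') rfl
  intro ι L E hI
  exact key _ ι L E hI rfl

end Pool.Agent.GG38
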