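import Pool.Agent.Lib.MP_38fd99_co.Plane

/-!
# A shear which makes all velocities different
-/

set_option autoImplicit false

namespace Pool.Agent.GG38

open Finset Classical

theorem shear : StmtShear := by
  intro n pos hinj
  have hsub : ∀ p : Fin n × Fin n, p.1 ≠ p.2 →
      {δ : ℝ | (pos p.1).1 + δ * (pos p.1).2 = (pos p.2).1 + δ * (pos p.2).2}.Finite := by
    intro p hp
    apply Set.Subsingleton.finite
    intro δ hδ ε hε
    simp only [Set.mem_setOf_eq] at hδ hε
    have h1 : (δ - ε) * ((pos p.1).2 - (pos p.2).2) = 0 := by linear_combination hδ - hε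
    rcases mul_eq_zero.1 h1 with h | h
    · linarith
    · exfalso
      apply hp
      apply hinj
      have h2 : (pos p.1).2 = (pos p.2).2 := by linarith
      have h3 : (pos p.1).1 = (pos p.2).1 := by
        rw [h2] at hδ
        linarith
      exact Prod.ext h3 h2
  have hfin : (⋃ p ∈ {p : Fin n × Fin n | p.1 ≠ p.2},
      {δ : ℝ | (pos p.1).1 + δ * (pos p.1).2 = (pos p.2).1 + δ * (pos p.2).2}).Finite :=
    Set.Finite.biUnion (Set.toFinite _) (fun p hp => hsub p hp)
  obtain ⟨δ, hδ⟩ := hfin.exists_notMem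
  refine ⟨δ, ?_⟩
  intro i j hij
  by_contra hne
  apply hδ
  exact Set.mem_biUnion (x := (i, j)) hne hij

end Pool.Agent.GG38
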