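import Pool.Agent.Lib.MP_38fd99_co.Spec

/-!
# Blocks of a cell
-/

set_option autoImplicit false

namespace Pool.Agent.GG38

open Finset Classical

namespace Split

/-- the fast side -/
theorem fast (hT : StmtTrans) (hB : StmtBlock) (ι : Type) (L : Lines ι) (R : Set (ℝ × ℝ))
    (E : Finset (ι × ι)) (hE : CellOK L R E) (Δ l : ℕ) (hΔ : 2 * Δ ≤ l) (hl : 1 ≤ l)
    (hcr : ∀ b ∈ B E, (cr L R (B E) b).card ≤ Δ) : ∃ x : ι → ℕ, Blocks (B E) (L.Lt R) l x := by
  obtain ⟨h1, h2⟩ := hT ι L R E hE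
  refine hB ι (B E) (L.Lt R) h1 h2 Δ l hΔ hl ?_
  intro b hb
  refine (Finset.card_le_card ?_).trans (hcr b hb)
  intro c hc
  rw [Finset.mem_filter] at hc
  obtain ⟨hc1, hcb, h3, h4⟩ := hc
  unfold cr
  rw [Finset.mem_filter]
  refine ⟨hc1, hcb, ?_⟩
  rcases hE.cmpB b hb c hc1 (Ne.symm hcb) with h | h | h
  · exact h
  · exact absurd h h3
  · exact absurd h h4

end Split

/-- **Blocks of a cell.** -/
theorem split (hT : StmtTrans) (hB : StmtBlock) : StmtSplit := by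
  intro ι L R E hE Δ l hΔ hl
  refine ⟨fun h => Pool.Agent.GG38.Split.fast hT hB ι L R E hE Δ l hΔ hl h, fun h => ?_⟩
  obtain ⟨x, hx⟩ := Pool.Agent.GG38.Split.fast hT hB ι L.rev (Rrev R) (Esw E) hE.rev Δ l hΔ hl (by
    intro b hb
    rw [B_Esw] at hb ⊢
    rw [rev_cr]
    exact h b hb)
  refine ⟨x, ?_⟩
  rw [B_Esw] at hx
  exact
    { lt := fun b hb c hc hbc => (L.rev_Lt R b c).1 (hx.lt b hb c hc hbc)
      le := hx.le
      full := hx.full }

end Pool.Agent.GG38
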