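import Pool.Agent.Lib.MP_38fd99_co.Spec

/-!
# MP_38fd99_co : the balanced system exists
-/

set_option autoImplicit false

namespace Pool.Agent.GG38

open Finset Classical

namespace Top

theorem ctx_neg {ι : Type} {L : Lines ι} {E0 : Finset (ι × ι)} {r s lg J q : ℕ} {M : ℕ → ℝ}
    (h : Ctx L E0 r s lg J q M) : Ctx L.neg (Esw E0) r s lg J q M where
  inst := h.inst.neg
  card := by
    rw [A_Esw, B_Esw, Finset.union_comm]
    exact h.card
  s1 := h.s1
  s_le := h.s_le
  lg2 := h.lg2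
  J3 := h.J3
  M0 := h.M0
  ih := by
    intro j h1 h2 E' hE' hA hB
    have hs : Esw E' ⊆ E0 := by
      have := Esw_mono hE'
      rwa [Esw_Esw] at this
    have h3 := h.ih j h1 h2 (Esw E') hs (by rw [A_Esw]; exact hB) (by rw [B_Esw]; exact hA)
    have h4 : L.neg.nu E' = L.nu (Esw E') := by
      have := L.nu_neg (Esw E')
      rwa [Esw_Esw] at this
    rw [h4]
    rwa [card_Esw] at h3
  gap := by
    intro j h1 h2
    rw [Lines.nu_neg, card_Esw]
    exact h.gap j h1 h2
  big := h.big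

theorem topB_neg {ι : Type} {L : Lines ι} {E0 : Finset (ι × ι)} {r s lg J q : ℕ}
    (h : TopB L.neg (Esw E0) r s lg J q) : TopB L E0 r s lg J q := by
  obtain ⟨κ, K, R, E, hS, h1, h2, h3⟩ := h
  refine ⟨κ, K, fun k => Rneg (R k), fun k => Esw (E k), ?_, ?_, ?_, ?_⟩
  · have := hS.neg
    rwa [Lines.neg_neg, Esw_Esw] at this
  · intro k hk
    rw [A_Esw, B_Esw]
    exact ⟨(h1 k hk).2, (h1 k hk).1⟩
  · rw [card_Esw] at h2
    rw [tot_Esw]
    exact h2
  · calc ∑ k ∈ K, ((A (Esw (E k))).card + (B (Esw (E k))).card)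
        = ∑ k ∈ K, ((A (E k)).card + (B (E k)).card) := by
          refine Finset.sum_congr rfl fun k _ => ?_
          rw [A_Esw, B_Esw, Nat.add_comm]
      _ ≤ s * r ^ (q + 2) := h3

end Top

theorem top (hA : StmtTopA) (hM : StmtTopM) (hB : StmtTopB) : StmtTop := by
  intro ι L E0 r s lg J q M hc
  have hr : 1 ≤ r := by
    have hb := hc.big
    have h1 := hc.J3
    have h0 : 1 ≤ lg := by
      by_contra h0
      have h2 : lg = 0 := by omega
      have h3 := hc.lg2
      have h4 := hc.s1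
      rw [h2] at h3
      simp at h3
      omega
    have : 0 < (400 * J * lg) ^ (2 * J + 8) := by positivity
    omega
  have hrJ : 1 ≤ r ^ J := Nat.one_le_pow _ _ hr
  have hss : s * s < 2 ^ (2 * lg) := by
    have h := hc.lg2
    calc s * s < 2 ^ lg * 2 ^ lg := Nat.mul_lt_mul'' h h
      _ = 2 ^ (2 * lg) := by rw [← pow_add]; congr 1; ring
  rcases hA ι L E0 (r ^ J) s (2 * lg) hc.inst hc.card hss hrJ with h | h
  · exact hB ι L E0 r s lg J q M hc (hM ι L E0 r s lg J q M hc h)
  · have hc' := Top.ctx_neg hc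
    exact Top.topB_neg (hB ι L.neg (Esw E0) r s lg J q M hc'
      (hM ι L.neg (Esw E0) r s lg J q M hc' h))

end Pool.Agent.GG38
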