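import Pool.Agent.Lib.MP_38fd99_co.Spec

set_option autoImplicit false

namespace Pool.Agent.GG38

open Finset Classical

namespace TopA

variable {ι : Type}

theorem times_neg (L : Lines ι) (V : Finset ι) : times L.neg V = times L V := by
  unfold times
  simp only [Lines.neg_tm]

theorem rk_neg (L : Lines ι) (V : Finset ι) (t : ℝ) : rk L.neg V t = rk L V t := by
  unfold rk
  rw [times_neg]

theorem X_neg (L : Lines ι) (V : Finset ι) (l j : ℕ) (x : ι) : X L.neg V l j x = X L V l j x := by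
  unfold X
  simp only [rk_neg, Lines.neg_tm]

theorem lam_neg (L : Lines ι) (V : Finset ι) (w Lv : ℕ) (x : ι) (t : ℝ) :
    lam L.neg V w Lv x t = lam L V w Lv x t := by
  unfold lam
  simp only [rk_neg, X_neg]

theorem lam_le (L : Lines ι) (V : Finset ι) (w Lv : ℕ) (x : ι) (t : ℝ) :
    lam L V w Lv x t ≤ Lv := Nat.findGreatest_le _

/-- the edges whose slow end has the larger window -/
noncomputable def Eone (L : Lines ι) (E0 : Finset (ι × ι)) (w Lv : ℕ) : Finset (ι × ι) :=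
  E0.filter (fun p => lam L (A E0 ∪ B E0) w Lv p.2 (L.tm p.1 p.2) ≤
    lam L (A E0 ∪ B E0) w Lv p.1 (L.tm p.1 p.2))

theorem case1 (hS : StmtSlabCell) (hR : StmtRk) (h1 : StmtWin1) (h2 : StmtWin2)
    (L : Lines ι) (E0 : Finset (ι × ι)) (w s Lv : ℕ) (hI : Inst L E0)
    (hs : (A E0 ∪ B E0).card ≤ s) (hLv : s * s < 2 ^ Lv) (hw : 1 ≤ w)
    (hE : E0.card ≤ 2 * (Eone L E0 w Lv).card) : TopA L E0 w s Lv := by
  set V : Finset ι := A E0 ∪ B E0 with hV
  have hrk : ∀ t, rk L V t < 2 ^ Lv := hR ι L V s Lv hs hLv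
  set lm : ι → ℝ → ℕ := lam L V w Lv with hlm
  set E1 : Finset (ι × ι) := Eone L E0 w Lv with hE1
  have hE1sub : E1 ⊆ E0 := Finset.filter_subset _ _
  have hE1mem : ∀ p ∈ E1, lm p.2 (L.tm p.1 p.2) ≤ lm p.1 (L.tm p.1 p.2) := fun p hp =>
    (Finset.mem_filter.1 hp).2
  obtain ⟨l, hl, hmax⟩ := Finset.exists_max_image (Finset.range (Lv + 1))
    (fun l => (E1.filter (fun p => lm p.1 (L.tm p.1 p.2) = l)).card) ⟨0, by simp⟩
  have hlLv : l ≤ Lv := Nat.lt_succ_iff.1 (Finset.mem_range.1 hl)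
  set El : Finset (ι × ι) := E1.filter (fun p => lm p.1 (L.tm p.1 p.2) = l) with hEl
  have hcard : E1.card ≤ (Lv + 1) * El.card := by
    have h3 := Finset.card_eq_sum_card_fiberwise (f := fun p : ι × ι => lm p.1 (L.tm p.1 p.2))
      (s := E1) (t := Finset.range (Lv + 1)) (fun p _ => by
        simp only [Finset.coe_range, Set.mem_Iio]
        exact Nat.lt_succ_iff.2 (lam_le L V w Lv _ _))
    rw [h3]
    calc _ ≤ ∑ _l ∈ Finset.range (Lv + 1), El.card := Finset.sum_le_sum fun j hj => hmax j hj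
      _ = (Lv + 1) * El.card := by rw [Finset.sum_const, Finset.card_range, smul_eq_mul]
  set E : ℕ → Finset (ι × ι) := fun j => El.filter (fun p => rk L V (L.tm p.1 p.2) / 2 ^ l = j)
    with hEdef
  have hEsub : ∀ j, E j ⊆ E0 := fun j =>
    (Finset.filter_subset _ _).trans ((Finset.filter_subset _ _).trans hE1sub)
  have hEmem : ∀ j, ∀ p ∈ E j, p ∈ E1 ∧ lm p.1 (L.tm p.1 p.2) = l ∧
      rk L V (L.tm p.1 p.2) / 2 ^ l = j := by
    intro j p hp
    obtain ⟨h3, h4⟩ := Finset.mem_filter.1 hp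
    obtain ⟨h5, h6⟩ := Finset.mem_filter.1 h3
    exact ⟨h5, h6, h4⟩
  have hdivlt : ∀ t, rk L V t / 2 ^ l ∈ Finset.range (2 ^ Lv) := fun t =>
    Finset.mem_range.2 ((Nat.div_le_self _ _).trans_lt (hrk t))
  have htot : tot (Finset.range (2 ^ Lv)) E = El.card := by
    have h3 := Finset.card_eq_sum_card_fiberwise
      (f := fun p : ι × ι => rk L V (L.tm p.1 p.2) / 2 ^ l)
      (s := El) (t := Finset.range (2 ^ Lv)) (fun p _ => by
        exact Finset.mem_coe.2 (hdivlt _))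
    exact h3.symm
  refine ⟨Finset.range (2 ^ Lv), fun j => slabR L V l j, E, ⟨fun k _ => hEsub k, fun k _ => ?_,
    fun k _ m _ hkm => ?_⟩, ?_, ?_, ?_, ?_⟩
  · exact hS ι L E0 (E k) V l k hI (hEsub k) (fun p hp => (hEmem k p hp).2.2)
  · rw [Set.disjoint_left]
    intro p hp hp'
    exact hkm (hp.symm.trans hp')
  · rw [htot]
    calc E0.card ≤ 2 * E1.card := hE
      _ ≤ 2 * ((Lv + 1) * El.card) := Nat.mul_le_mul_left _ hcard
      _ = 2 * (Lv + 1) * El.card := by ring
  · intro k _ a ha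
    obtain ⟨b, hb⟩ := mem_A.1 ha
    obtain ⟨h3, h4, h5⟩ := hEmem k _ hb
    have haV : a ∈ A E0 ∪ B E0 := Finset.mem_union_left _ (fst_mem_A (hEsub k hb))
    have h6 := h1 ι L E0 w Lv hI hw a haV (L.tm a b)
    have h4' : lam L (A E0 ∪ B E0) w Lv a (L.tm a b) = l := h4
    have h5' : rk L (A E0 ∪ B E0) (L.tm a b) / 2 ^ l = k := h5
    rw [h4', h5'] at h6
    refine le_trans (Finset.card_le_card ?_) h6
    intro c hc
    obtain ⟨h7, h8⟩ := Finset.mem_filter.1 hc
    obtain ⟨a', ha'⟩ := mem_B.1 h7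
    have hc0 : c ∈ B E0 := snd_mem_B (hEsub k ha')
    have hne : c ≠ a := by
      intro h9
      have := hI.sep a (fst_mem_A (hEsub k hb)) c hc0
      rw [h9] at this
      exact lt_irrefl _ this
    exact Finset.mem_filter.2 ⟨Finset.mem_union_right _ hc0, hne, h8⟩
  · intro x _
    refine h2 ι L V w s Lv hs hrk x l hlLv _ fun j hj => ?_
    obtain ⟨-, h3⟩ := Finset.mem_filter.1 hj
    rcases Finset.mem_union.1 h3 with h4 | h4
    · obtain ⟨b, hb⟩ := mem_A.1 h4
      obtain ⟨h5, h6, h7⟩ := hEmem j _ hb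
      exact ⟨L.tm x b, h7, h6.le⟩
    · obtain ⟨a, ha⟩ := mem_B.1 h4
      obtain ⟨h5, h6, h7⟩ := hEmem j _ ha
      exact ⟨L.tm a x, h7, (hE1mem _ h5).trans h6.le⟩
  · intro x _
    have h3 := Finset.card_eq_sum_card_fiberwise
      (f := fun y : ι => rk L V (L.tm x y) / 2 ^ l)
      (s := V.filter (fun y => y ≠ x)) (t := Finset.range (2 ^ Lv)) (fun p _ => by
        exact Finset.mem_coe.2 (hdivlt _))
    calc _ = ∑ k ∈ Finset.range (2 ^ Lv),
          ((V.filter (fun y => y ≠ x)).filter (fun y => rk L V (L.tm x y) / 2 ^ l = k)).card := by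
          refine Finset.sum_congr rfl fun k _ => ?_
          rw [Finset.filter_filter]
          apply congrArg Finset.card
          ext y
          simp only [Finset.mem_filter]
          exact Iff.rfl
      _ = (V.filter (fun y => y ≠ x)).card := h3.symm
      _ ≤ V.card := Finset.card_filter_le _ _
      _ ≤ s := hs

end TopA

theorem topA (hS : StmtSlabCell) (hR : StmtRk) (h1 : StmtWin1) (h2 : StmtWin2) : StmtTopA := by
  intro ι L E0 w s Lv hI hs hLv hw
  have hV : A (Esw E0) ∪ B (Esw E0) = A E0 ∪ B E0 := by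
    rw [A_Esw, B_Esw, Finset.union_comm]
  have hcard : E0.card ≤ (TopA.Eone L E0 w Lv).card + (TopA.Eone L.neg (Esw E0) w Lv).card := by
    have h3 : (TopA.Eone L.neg (Esw E0) w Lv).card =
        (E0.filter (fun p => lam L (A E0 ∪ B E0) w Lv p.1 (L.tm p.1 p.2) ≤
          lam L (A E0 ∪ B E0) w Lv p.2 (L.tm p.1 p.2))).card := by
      rw [← card_Esw (E0.filter _)]
      congr 1
      ext p
      simp only [TopA.Eone, Finset.mem_filter, mem_Esw, hV, TopA.lam_neg, Lines.neg_tm]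
      rw [L.tm_comm p.2 p.1]
    rw [h3, ← Finset.card_union_add_card_inter]
    refine le_trans (Finset.card_le_card ?_) (Nat.le_add_right _ _)
    intro p hp
    rcases le_total (lam L (A E0 ∪ B E0) w Lv p.2 (L.tm p.1 p.2))
      (lam L (A E0 ∪ B E0) w Lv p.1 (L.tm p.1 p.2)) with h4 | h4
    · exact Finset.mem_union_left _ (Finset.mem_filter.2 ⟨hp, h4⟩)
    · exact Finset.mem_union_right _ (Finset.mem_filter.2 ⟨hp, h4⟩)
  rcases le_total (TopA.Eone L.neg (Esw E0) w Lv).card (TopA.Eone L E0 w Lv).card with h3 | h3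
  · left
    exact TopA.case1 hS hR h1 h2 L E0 w s Lv hI hs hLv hw (by omega)
  · right
    refine TopA.case1 hS hR h1 h2 L.neg (Esw E0) w s Lv hI.neg (by rw [hV]; exact hs) hLv hw ?_
    rw [card_Esw]
    omega

end Pool.Agent.GG38
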