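import Pool.Agent.Lib.MP_38fd99_co.Spec

/-!
# Balancing, fast side
-/

set_option autoImplicit false

open Finset Classical

namespace Pool.Agent.GG38

namespace TopB

/-- double counting of incidences between the indices `z ∈ K'` and the elements `x ∈ V` -/
theorem sum_card_le {α κ : Type} (K' : Finset κ) (S : κ → Finset α) (V : Finset α) (N : ℕ)
    (hS : ∀ z ∈ K', S z ⊆ V) (hN : ∀ x ∈ V, (K'.filter (fun z => x ∈ S z)).card ≤ N) :
    ∑ z ∈ K', (S z).card ≤ V.card * N := by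
  have h1 : ∀ z ∈ K', (S z).card = ∑ x ∈ V, if x ∈ S z then 1 else 0 := by
    intro z hz
    rw [← Finset.card_filter]
    congr 1
    ext x
    simp only [Finset.mem_filter]
    exact ⟨fun h => ⟨hS z hz h, h⟩, fun h => h.2⟩
  rw [Finset.sum_congr rfl h1, Finset.sum_comm]
  calc ∑ x ∈ V, ∑ z ∈ K', (if x ∈ S z then 1 else 0) ≤ ∑ x ∈ V, N := by
        refine Finset.sum_le_sum fun x hx => ?_
        rw [← Finset.card_filter]
        exact hN x hx
    _ = V.card * N := by rw [Finset.sum_const, smul_eq_mul]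

/-- grouping the indices by their first component -/
theorem card_group {κ : Type} (K : Finset κ) (K' : Finset (κ × ℕ)) (P : κ × ℕ → Prop)
    (Q : κ → Prop) (h : ∀ z ∈ K', P z → z.1 ∈ K ∧ Q z.1) :
    (K'.filter P).card = ∑ k ∈ K.filter Q, (K'.filter (fun z => z.1 = k ∧ P z)).card := by
  rw [Finset.card_eq_sum_card_fiberwise (f := Prod.fst) (t := K.filter Q)]
  · refine Finset.sum_congr rfl fun k _ => ?_
    congr 1
    ext z
    simp only [Finset.mem_filter]
    exact ⟨fun h => ⟨h.1.1, h.2, h.1.2⟩, fun h => ⟨⟨h.1, h.2.2⟩, h.2.1⟩⟩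
  · intro z hz
    have hz' := Finset.mem_filter.1 (Finset.mem_coe.1 hz)
    exact Finset.mem_coe.2 (Finset.mem_filter.2 (h z hz'.1 hz'.2))

theorem big_le {r J lg : ℕ} (hJ : 3 ≤ J) (hlg : 1 ≤ lg) (big : (400 * J * lg) ^ (2 * J + 8) ≤ r) :
    1536 * lg ^ 3 ≤ r := by
  refine le_trans ?_ big
  have h1 : 1200 * lg ≤ 400 * J * lg := Nat.mul_le_mul_right _ (by omega)
  calc 1536 * lg ^ 3 ≤ (1200 * lg) ^ 3 := by
        rw [mul_pow]
        exact Nat.mul_le_mul_right _ (by norm_num)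
    _ ≤ (400 * J * lg) ^ 3 := Nat.pow_le_pow_left h1 3
    _ ≤ (400 * J * lg) ^ (2 * J + 8) := Nat.pow_le_pow_right (by
        have : 0 < 400 * J * lg := by positivity
        exact this) (by omega)

end TopB

open TopB in
theorem topB (hR : StmtRefineB) : StmtTopB := by
  intro ι L E0 r s lg J q M hC hM
  obtain ⟨K, R, E, hsys, hA, hT, hB, hSum⟩ := hM
  have hAle : (A E0).card ≤ s := (Finset.card_le_card Finset.subset_union_left).trans hC.card
  have hBle : (B E0).card ≤ s := (Finset.card_le_card Finset.subset_union_right).trans hC.card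
  have hJ := hC.J3
  have hlg : 1 ≤ lg := by
    rcases Nat.eq_zero_or_pos lg with h | h
    · have h1 := hC.lg2
      have h2 := hC.s1
      rw [h, pow_zero] at h1
      omega
    · exact h
  have hbig := big_le hJ hlg hC.big
  have hlg3 : 1 ≤ lg ^ 3 := Nat.one_le_pow _ _ hlg
  have hr : 1 ≤ r := by omega
  have hpow : r ^ (J - 2) = r ^ (J - 3) * r := by
    rw [← pow_succ]; congr 1; omega
  have hpow2 : r ^ (J - 2) ≤ r ^ (J - 1) := Nat.pow_le_pow_right hr (by omega)
  have hcub : lg ^ 2 * (2 * lg + 1) ≤ 3 * lg ^ 3 := by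
    have : 2 * lg + 1 ≤ 3 * lg := by omega
    calc lg ^ 2 * (2 * lg + 1) ≤ lg ^ 2 * (3 * lg) := Nat.mul_le_mul_left _ this
      _ = 3 * lg ^ 3 := by ring
  obtain ⟨δ, hδ⟩ : ∃ δ, δ = 128 * lg ^ 2 * (2 * lg + 1) * r ^ (J - 3) := ⟨_, rfl⟩
  have h4δ : 4 * δ ≤ r ^ (J - 1) := by
    refine le_trans ?_ hpow2
    rw [hpow, hδ]
    calc 4 * (128 * lg ^ 2 * (2 * lg + 1) * r ^ (J - 3)) =
          r ^ (J - 3) * (512 * (lg ^ 2 * (2 * lg + 1))) := by ring
      _ ≤ r ^ (J - 3) * (512 * (3 * lg ^ 3)) := by gcongr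
      _ = r ^ (J - 3) * (1536 * lg ^ 3) := by ring
      _ ≤ r ^ (J - 3) * r := Nat.mul_le_mul_left _ hbig
  have hδ1 : 1 ≤ δ := by
    rw [hδ]
    have h1 : 0 < r ^ (J - 3) := by positivity
    have : 0 < 128 * lg ^ 2 * (2 * lg + 1) * r ^ (J - 3) := by positivity
    exact this
  have hgap := hC.gap (J - 1) (by omega) (by omega)
  have hJ13 : J - 1 - 2 = J - 3 := by omega
  rw [hJ13] at hgap
  have hmain : 8 * (lg : ℝ) * s * M (J - 1) * L.nu E0 ≤ δ * tot K E := by
    have hTr : (E0.card : ℝ) ≤ 16 * lg * (2 * lg + 1) * tot K E := by exact_mod_cast hT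
    calc 8 * (lg : ℝ) * s * M (J - 1) * L.nu E0 = 8 * lg * (s * M (J - 1) * L.nu E0) := by ring
      _ ≤ 8 * lg * ((r : ℝ) ^ (J - 3) * E0.card) := by gcongr
      _ ≤ 8 * lg * ((r : ℝ) ^ (J - 3) * (16 * lg * (2 * lg + 1) * tot K E)) := by gcongr
      _ = δ * tot K E := by
        rw [hδ]; push_cast; ring
  obtain ⟨K', R', E', hsys', hsub, hB', hT', h5, h6⟩ := hR ι L E0 (ℕ × ℕ) K R E hsys
    (r ^ (J - 1)) s δ lg (r ^ (J - 1)) (M (J - 1)) (hC.M0 _)
    (fun k hk b _ => (Finset.card_filter_le _ _).trans (hA k hk)) hBle (lt_of_le_of_lt hAle hC.lg2)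
    (hC.ih (J - 1) (by omega) (by omega)) hδ1 (by omega) h4δ hmain
  refine ⟨(ℕ × ℕ) × ℕ, K', R', E', hsys', ?_, ?_, ?_⟩
  · intro z hz
    obtain ⟨h1, h2, h3⟩ := hsub z hz
    exact ⟨(Finset.card_le_card (A_mono h3)).trans (hA z.1 h1), hB' z hz⟩
  · calc E0.card ≤ 16 * lg * (2 * lg + 1) * tot K E := hT
      _ ≤ 16 * lg * (2 * lg + 1) * (8 * lg * tot K' E') := by gcongr
      _ = 128 * (lg ^ 2 * (2 * lg + 1)) * tot K' E' := by ring
      _ ≤ 128 * (3 * lg ^ 3) * tot K' E' := by gcongr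
      _ = 384 * lg ^ 3 * tot K' E' := by ring
  · have hcA : ∑ z ∈ K', (A (E' z)).card ≤ (A E0).card * r ^ (q + 2) := by
      refine sum_card_le K' (fun z => A (E' z)) (A E0) _ (fun z hz => A_mono (hsys'.sub z hz)) ?_
      intro x hx
      have h1 := card_group K K' (fun z => x ∈ A (E' z)) (fun k => x ∈ A (E k))
        (fun z hz hx => ⟨(hsub z hz).1, A_mono (hsub z hz).2.2 hx⟩)
      have hl : 0 < r ^ (J - 1) := by positivity
      refine Nat.le_of_mul_le_mul_left ?_ hl
      refine le_trans ?_ (hSum x hx)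
      refine le_trans (le_of_eq (congrArg (fun m => r ^ (J - 1) * m) ?_))
        (le_trans (le_of_eq (Finset.mul_sum _ _ _)) (Finset.sum_le_sum
          (f := fun k => r ^ (J - 1) * (K'.filter (fun z => z.1 = k ∧ x ∈ A (E' z))).card) ?_))
      · convert h1
      · intro k hk
        rw [Finset.mem_filter] at hk
        refine le_trans (le_of_eq ?_) (h6 k hk.1 x hk.2)
        congr!
    have hcB : ∑ z ∈ K', (B (E' z)).card ≤ (B E0).card * r ^ (q + 2) := by
      refine sum_card_le K' (fun z => B (E' z)) (B E0) _ (fun z hz => B_mono (hsys'.sub z hz)) ?_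
      intro x hx
      have h1 := card_group K K' (fun z => x ∈ B (E' z)) (fun k => x ∈ B (E k))
        (fun z hz hx => ⟨(hsub z hz).1, B_mono (hsub z hz).2.2 hx⟩)
      refine le_trans ?_ (hB x hx)
      rw [Finset.card_eq_sum_ones (K.filter (fun k => x ∈ B (E k)))]
      refine le_trans (le_of_eq ?_) (Finset.sum_le_sum
          (f := fun k => (K'.filter (fun z => z.1 = k ∧ x ∈ B (E' z))).card) ?_)
      · convert h1
      · intro k hk
        rw [Finset.mem_filter] at hk
        refine le_trans (le_of_eq ?_) (h5 k hk.1 x)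
        congr!
    have hdis : Disjoint (A E0) (B E0) := by
      rw [Finset.disjoint_left]
      intro x h1 h2
      exact lt_irrefl _ (hC.inst.sep x h1 x h2)
    have hcard := hC.card
    rw [Finset.card_union_of_disjoint hdis] at hcard
    rw [Finset.sum_add_distrib]
    calc ∑ z ∈ K', (A (E' z)).card + ∑ z ∈ K', (B (E' z)).card ≤
          (A E0).card * r ^ (q + 2) + (B E0).card * r ^ (q + 2) := add_le_add hcA hcB
      _ = ((A E0).card + (B E0).card) * r ^ (q + 2) := by ring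
      _ ≤ s * r ^ (q + 2) := Nat.mul_le_mul_right _ hcard

end Pool.Agent.GG38
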