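import Pool.Agent.Lib.MP_38fd99_co.Spec

set_option autoImplicit false

namespace Pool.Agent.GG38

open Finset Classical

noncomputable section

namespace TopM

variable {ι : Type}

theorem lg_pos {L : Lines ι} {E0 : Finset (ι × ι)} {r s lg J q : ℕ} {M : ℕ → ℝ}
    (h : Ctx L E0 r s lg J q M) : 1 ≤ lg := by
  rcases Nat.eq_zero_or_pos lg with h0 | h0
  · have h1 := h.lg2
    have h2 := h.s1
    rw [h0] at h1
    simp at h1
    omega
  · exact h0

theorem big2 {L : Lines ι} {E0 : Finset (ι × ι)} {r s lg J q : ℕ} {M : ℕ → ℝ}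
    (h : Ctx L E0 r s lg J q M) : 160000 * lg ^ 2 ≤ r := by
  have hlg := lg_pos h
  have hJ := h.J3
  have h1 : 400 * lg ≤ 400 * J * lg := by nlinarith
  have h2 : 1 ≤ 400 * J * lg := by nlinarith
  calc 160000 * lg ^ 2 = (400 * lg) ^ 2 := by ring
    _ ≤ (400 * J * lg) ^ 2 := Nat.pow_le_pow_left h1 2
    _ ≤ (400 * J * lg) ^ (2 * J + 8) := Nat.pow_le_pow_right h2 (by omega)
    _ ≤ r := h.big

theorem lin1 {lg r : ℕ} (h1 : 1 ≤ lg) (h2 : 160000 * lg ^ 2 ≤ r) :
    64 * lg * (2 * lg + 1) ≤ r := by nlinarith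

theorem count_bound {L : Lines ι} {E0 : Finset (ι × ι)} {r s lg J q : ℕ} {M : ℕ → ℝ}
    (h : Ctx L E0 r s lg J q M) {N : ℕ} (hN : r ^ J * N ≤ r ^ J + 2 * (2 * lg) * s) :
    r ^ (J - 1) * N + s ≤ r ^ (J - 1) * r ^ (q + 2) := by
  have hlg := lg_pos h
  have hb := big2 h
  have hJ := h.J3
  have hr1 : 1 ≤ r := by nlinarith
  have hr0 : 0 < r := hr1
  have hs := h.s_le
  have e1 : r ^ (J + q) = r ^ J * r ^ q := pow_add _ _ _
  have e2 : r ^ J * r ^ q = r ^ (J - 1) * r ^ (q + 1) := by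
    rw [← pow_add, ← pow_add]; congr 1; omega
  -- N ≤ 1 + 4 lg r^q
  have hN1 : r ^ J * N ≤ r ^ J * (1 + 4 * lg * r ^ q) := by
    have : 2 * (2 * lg) * s ≤ 4 * lg * (r ^ J * r ^ q) := by
      rw [← e1]
      nlinarith [Nat.mul_le_mul_left (4 * lg) hs]
    calc r ^ J * N ≤ r ^ J + 2 * (2 * lg) * s := hN
      _ ≤ r ^ J + 4 * lg * (r ^ J * r ^ q) := by omega
      _ = r ^ J * (1 + 4 * lg * r ^ q) := by ring
  have hN2 : N ≤ 1 + 4 * lg * r ^ q := Nat.le_of_mul_le_mul_left hN1 (pow_pos hr0 J)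
  have hs2 : s ≤ r ^ (J - 1) * r ^ (q + 1) := by rw [← e2, ← e1]; exact hs
  have hq : 1 ≤ r ^ q := Nat.one_le_pow _ _ hr0
  have h3 : 1 + 4 * lg + r ≤ r * r := by nlinarith
  have h4 : 1 + 4 * lg * r ^ q + r ^ (q + 1) ≤ r ^ (q + 2) := by
    calc 1 + 4 * lg * r ^ q + r ^ (q + 1) ≤ r ^ q + 4 * lg * r ^ q + r ^ (q + 1) := by omega
      _ = r ^ q * (1 + 4 * lg + r) := by ring
      _ ≤ r ^ q * (r * r) := Nat.mul_le_mul_left _ h3
      _ = r ^ (q + 2) := by ring
  calc r ^ (J - 1) * N + s ≤ r ^ (J - 1) * (1 + 4 * lg * r ^ q) + r ^ (J - 1) * r ^ (q + 1) :=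
        Nat.add_le_add (Nat.mul_le_mul_left _ hN2) hs2
    _ = r ^ (J - 1) * (1 + 4 * lg * r ^ q + r ^ (q + 1)) := by ring
    _ ≤ r ^ (J - 1) * r ^ (q + 2) := Nat.mul_le_mul_left _ h4

end TopM

open TopM in
theorem topM (hR : StmtRefineA) : StmtTopM := by
  intro ι L E0 r s lg J q M hC hTA
  obtain ⟨K, R, E, hS, hT, h3, h4, h5⟩ := hTA
  have hlg := lg_pos hC
  have hb := big2 hC
  have hJ := hC.J3
  have hl1 := lin1 hlg hb
  have hr1 : 1 ≤ r := by nlinarith
  have hr0 : 0 < r := hr1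
  have eJ1 : r ^ (J - 1) = r * r ^ (J - 2) := by
    rw [← pow_succ']; congr 1; omega
  have eJ : r ^ J = r * r ^ (J - 1) := by
    rw [← pow_succ']; congr 1; omega
  have hp2 : 1 ≤ r ^ (J - 2) := Nat.one_le_pow _ _ hr0
  have hAs : (A E0).card ≤ s := (Finset.card_le_card Finset.subset_union_left).trans hC.card
  have hBs : (B E0).card ≤ s := (Finset.card_le_card Finset.subset_union_right).trans hC.card
  obtain ⟨K', R', E', hS', hsub, hA', hT', hc1, hc2⟩ := hR ι L E0 ℕ K R E hS (r ^ J) s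
    (16 * lg * (2 * lg + 1) * r ^ (J - 2)) lg (r ^ (J - 1)) (M J) (hC.M0 J) h3 hAs
    (hBs.trans_lt hC.lg2) (hC.ih J (by omega) le_rfl)
    (by nlinarith [Nat.mul_le_mul hlg hp2])
    (by
      rw [eJ, eJ1]
      have h6 : 16 * lg * (2 * lg + 1) ≤ r := by nlinarith
      calc 16 * lg * (2 * lg + 1) * r ^ (J - 2) ≤ r * r ^ (J - 2) := Nat.mul_le_mul_right _ h6
        _ ≤ r * (r * r ^ (J - 2)) := by
          rw [← mul_assoc r r]
          exact Nat.mul_le_mul_right _ (Nat.le_mul_self r))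
    (by
      rw [eJ1]
      calc 4 * (16 * lg * (2 * lg + 1) * r ^ (J - 2)) = 64 * lg * (2 * lg + 1) * r ^ (J - 2) := by
            ring
        _ ≤ r * r ^ (J - 2) := Nat.mul_le_mul_right _ hl1)
    (by
      have hg := hC.gap J (by omega) le_rfl
      have hT2 : (E0.card : ℝ) ≤ 2 * (2 * lg + 1) * tot K E := by exact_mod_cast hT
      have hlg0 : (0 : ℝ) ≤ lg := Nat.cast_nonneg _
      have hrp : (0 : ℝ) ≤ (r : ℝ) ^ (J - 2) := by positivity
      push_cast
      calc 8 * (lg : ℝ) * s * M J * L.nu E0 = 8 * lg * (s * M J * L.nu E0) := by ring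
        _ ≤ 8 * lg * ((r : ℝ) ^ (J - 2) * E0.card) :=
          mul_le_mul_of_nonneg_left hg (by positivity)
        _ ≤ 8 * lg * ((r : ℝ) ^ (J - 2) * (2 * (2 * lg + 1) * tot K E)) :=
          mul_le_mul_of_nonneg_left (mul_le_mul_of_nonneg_left hT2 hrp) (by positivity)
        _ = 16 * lg * (2 * lg + 1) * (r : ℝ) ^ (J - 2) * tot K E := by ring)
  -- common notation
  set V := A E0 ∪ B E0 with hV
  have hN : ∀ x ∈ V, r ^ (J - 1) * (K.filter (fun k => x ∈ A (E k) ∪ B (E k))).card + s ≤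
      r ^ (J - 1) * r ^ (q + 2) := fun x hx => count_bound hC (h4 x hx)
  refine ⟨K', R', E', hS', hA', ?_, ?_, ?_⟩
  · calc E0.card ≤ 2 * (2 * lg + 1) * tot K E := hT
      _ ≤ 2 * (2 * lg + 1) * (8 * lg * tot K' E') := Nat.mul_le_mul_left _ hT'
      _ = 16 * lg * (2 * lg + 1) * tot K' E' := by ring
  · intro x hx
    have hxV : x ∈ V := Finset.mem_union_right _ hx
    have hfib : (K'.filter (fun z => x ∈ B (E' z))).card =
        ∑ k ∈ K.filter (fun k => x ∈ B (E k)),
          (K'.filter (fun z => z.1 = k ∧ x ∈ B (E' z))).card := by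
      rw [Finset.card_eq_sum_card_fiberwise (f := Prod.fst) (t := K.filter (fun k => x ∈ B (E k)))]
      · refine Finset.sum_congr rfl fun k _ => ?_
        congr 1
        ext z
        simp only [Finset.mem_filter]
        tauto
      · intro z hz
        have hz' := Finset.mem_filter.1 (Finset.mem_coe.1 hz)
        obtain ⟨h1, -, h2⟩ := hsub z hz'.1
        exact Finset.mem_coe.2 (Finset.mem_filter.2 ⟨h1, B_mono h2 hz'.2⟩)
    have hmain : r ^ (J - 1) * (K'.filter (fun z => x ∈ B (E' z))).card ≤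
        r ^ (J - 1) * r ^ (q + 2) := by
      calc r ^ (J - 1) * (K'.filter (fun z => x ∈ B (E' z))).card
          = ∑ k ∈ K.filter (fun k => x ∈ B (E k)),
            r ^ (J - 1) * (K'.filter (fun z => z.1 = k ∧ x ∈ B (E' z))).card := by
            rw [hfib, Finset.mul_sum]
        _ ≤ ∑ k ∈ K.filter (fun k => x ∈ B (E k)),
            (r ^ (J - 1) + (V.filter (fun y => y ≠ x ∧ L.Meet (R k) x y)).card) := by
            refine Finset.sum_le_sum fun k hk => ?_
            obtain ⟨hkK, hkx⟩ := Finset.mem_filter.1 hk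
            have h9 : r ^ (J - 1) * (K'.filter (fun z => z.1 = k ∧ x ∈ B (E' z))).card ≤
                r ^ (J - 1) + ((A (E k)).filter (fun a => L.Meet (R k) a x)).card := by
              convert hc2 k hkK x hkx
            refine h9.trans (Nat.add_le_add_left (Finset.card_le_card ?_) _)
            intro a ha
            obtain ⟨ha1, ha2⟩ := Finset.mem_filter.1 ha
            have ha0 : a ∈ A E0 := A_mono (hS.sub k hkK) ha1
            have hv := hC.inst.sep a ha0 x hx
            refine Finset.mem_filter.2 ⟨Finset.mem_union_left _ ha0, ?_, ?_⟩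
            · rintro rfl
              exact lt_irrefl _ hv
            · exact (L.Meet_comm hv.ne).1 ha2
        _ = r ^ (J - 1) * (K.filter (fun k => x ∈ B (E k))).card +
            ∑ k ∈ K.filter (fun k => x ∈ B (E k)),
              (V.filter (fun y => y ≠ x ∧ L.Meet (R k) x y)).card := by
            rw [Finset.sum_add_distrib, Finset.sum_const, smul_eq_mul, mul_comm]
        _ ≤ r ^ (J - 1) * (K.filter (fun k => x ∈ A (E k) ∪ B (E k))).card + s := by
            refine Nat.add_le_add (Nat.mul_le_mul_left _ (Finset.card_le_card ?_)) ?_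
            · intro k hk
              obtain ⟨h1, h2⟩ := Finset.mem_filter.1 hk
              exact Finset.mem_filter.2 ⟨h1, Finset.mem_union_right _ h2⟩
            · exact (Finset.sum_le_sum_of_subset (Finset.filter_subset _ _)).trans (h5 x hxV)
        _ ≤ r ^ (J - 1) * r ^ (q + 2) := hN x hxV
    exact Nat.le_of_mul_le_mul_left hmain (pow_pos hr0 _)
  · intro x hx
    have hxV : x ∈ V := Finset.mem_union_left _ hx
    have hinj : Set.InjOn Prod.fst (K'.filter (fun z => x ∈ A (E' z)) : Set (ℕ × ℕ)) := by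
      intro z hz z' hz' hzz
      have h1 := Finset.mem_filter.1 (Finset.mem_coe.1 hz)
      have h2 := Finset.mem_filter.1 (Finset.mem_coe.1 hz')
      have h6 : (K'.filter (fun z' => z'.1 = z.1 ∧ x ∈ A (E' z'))).card ≤ 1 := by
        convert hc1 z.1 (hsub z h1.1).1 x
      exact Finset.card_le_one.1 h6 z (by rw [Finset.mem_filter]; exact ⟨h1.1, rfl, h1.2⟩) z'
        (by rw [Finset.mem_filter]; exact ⟨h2.1, hzz.symm, h2.2⟩)
    calc ∑ z ∈ K'.filter (fun z => x ∈ A (E' z)),
          (r ^ (J - 1) + ((B (E' z)).filter (fun b => L.Meet (R' z) x b)).card)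
        ≤ ∑ z ∈ K'.filter (fun z => x ∈ A (E' z)),
          (r ^ (J - 1) + (V.filter (fun y => y ≠ x ∧ L.Meet (R z.1) x y)).card) := by
          refine Finset.sum_le_sum fun z hz => ?_
          obtain ⟨hz1, hz2⟩ := Finset.mem_filter.1 hz
          obtain ⟨h6, h7, h8⟩ := hsub z hz1
          refine Nat.add_le_add_left (Finset.card_le_card ?_) _
          intro b hb
          obtain ⟨hb1, hb2⟩ := Finset.mem_filter.1 hb
          have hb0 : b ∈ B E0 := B_mono ((h8).trans (hS.sub z.1 h6)) hb1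
          have hv := hC.inst.sep x hx b hb0
          refine Finset.mem_filter.2 ⟨Finset.mem_union_right _ hb0, ?_, L.Meet_mono h7 hb2⟩
          rintro rfl
          exact lt_irrefl _ hv
      _ = ∑ k ∈ (K'.filter (fun z => x ∈ A (E' z))).image Prod.fst,
          (r ^ (J - 1) + (V.filter (fun y => y ≠ x ∧ L.Meet (R k) x y)).card) := by
          rw [Finset.sum_image hinj]
      _ ≤ ∑ k ∈ K.filter (fun k => x ∈ A (E k)),
          (r ^ (J - 1) + (V.filter (fun y => y ≠ x ∧ L.Meet (R k) x y)).card) := by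
          refine Finset.sum_le_sum_of_subset ?_
          intro k hk
          obtain ⟨z, hz, rfl⟩ := Finset.mem_image.1 hk
          obtain ⟨hz1, hz2⟩ := Finset.mem_filter.1 hz
          obtain ⟨h6, h7, h8⟩ := hsub z hz1
          exact Finset.mem_filter.2 ⟨h6, A_mono h8 hz2⟩
      _ = r ^ (J - 1) * (K.filter (fun k => x ∈ A (E k))).card +
            ∑ k ∈ K.filter (fun k => x ∈ A (E k)),
              (V.filter (fun y => y ≠ x ∧ L.Meet (R k) x y)).card := by
            rw [Finset.sum_add_distrib, Finset.sum_const, smul_eq_mul, mul_comm]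
      _ ≤ r ^ (J - 1) * (K.filter (fun k => x ∈ A (E k) ∪ B (E k))).card + s := by
            refine Nat.add_le_add (Nat.mul_le_mul_left _ (Finset.card_le_card ?_)) ?_
            · intro k hk
              obtain ⟨h1, h2⟩ := Finset.mem_filter.1 hk
              exact Finset.mem_filter.2 ⟨h1, Finset.mem_union_left _ h2⟩
            · exact (Finset.sum_le_sum_of_subset (Finset.filter_subset _ _)).trans (h5 x hxV)
      _ ≤ r ^ (J - 1) * r ^ (q + 2) := hN x hxV

end

end Pool.Agent.GG38
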