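import Pool.Agent.Lib.MP_38fd99_co.Spec

/-!
# Transitivity of `Lt R` on the fast lines of a cell
-/

set_option autoImplicit false

namespace Pool.Agent.GG38.Trans

open Finset Classical

variable {ι : Type}

/-- an affine function positive at two times is positive between -/
theorem aff_pos (p q t s u : ℝ) (ht : 0 < p + q * t) (hs : 0 < p + q * s)
    (htu : t ≤ u) (hus : u ≤ s) : 0 < p + q * u := by
  rcases le_total 0 q with hq | hq
  · nlinarith [mul_le_mul_of_nonneg_left htu hq]
  · nlinarith [mul_le_mul_of_nonpos_left hus hq]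

/-- `x` is below `y` at two times, hence between -/
theorem H_between (L : Lines ι) (x y : ι) (t s u : ℝ) (ht : L.H x t < L.H y t)
    (hs : L.H x s < L.H y s) (hu : (t ≤ u ∧ u ≤ s) ∨ (s ≤ u ∧ u ≤ t)) :
    L.H x u < L.H y u := by
  unfold Lines.H at *
  have h1 : 0 < (L.h y - L.h x) + (L.v y - L.v x) * t := by linarith
  have h2 : 0 < (L.h y - L.h x) + (L.v y - L.v x) * s := by linarith
  have h3 : 0 < (L.h y - L.h x) + (L.v y - L.v x) * u := by
    rcases hu with ⟨ha, hb⟩ | ⟨ha, hb⟩
    · exact aff_pos _ _ t s u h1 h2 ha hb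
    · exact aff_pos _ _ s t u h2 h1 ha hb
  linarith

/-- every fast line is in the region at some time -/
theorem exists_time (L : Lines ι) (R : Set (ℝ × ℝ)) (E : Finset (ι × ι)) (h : CellOK L R E)
    (b : ι) (hb : b ∈ B E) : ∃ t, t ∈ L.I R b := by
  obtain ⟨a, hab⟩ := mem_B.1 hb
  have hv : L.v a < L.v b := h.sep a (fst_mem_A hab) b hb
  have hm : L.Meet R a b := h.mem (a, b) hab
  exact ⟨L.tm a b, L.mem_I_of_Meet' hv.ne hm⟩

/-- no cycle `b < d < c < b` -/
theorem no_cycle (L : Lines ι) (R : Set (ℝ × ℝ)) (b d c : ι)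
    (h1 : L.Lt R b d) (h2 : L.Lt R d c) (h3 : L.Lt R c b)
    (tb tc td : ℝ) (hb : tb ∈ L.I R b) (hc : tc ∈ L.I R c) (hd : td ∈ L.I R d) : False := by
  have b1 := h1 tb (Or.inl hb)
  have b3 := h3 tb (Or.inr hb)
  have c2 := h2 tc (Or.inr hc)
  have c3 := h3 tc (Or.inl hc)
  have d1 := h1 td (Or.inr hd)
  have d2 := h2 td (Or.inl hd)
  -- one of the times is between the two others
  have key : ((tc ≤ tb ∧ tb ≤ td) ∨ (td ≤ tb ∧ tb ≤ tc)) ∨
      ((tb ≤ tc ∧ tc ≤ td) ∨ (td ≤ tc ∧ tc ≤ tb)) ∨
      ((tb ≤ td ∧ td ≤ tc) ∨ (tc ≤ td ∧ td ≤ tb)) := by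
    rcases le_total tb tc with x | x <;> rcases le_total tc td with y | y <;>
      rcases le_total tb td with z | z <;> tauto
  rcases key with k | k | k
  · -- `H d < H c` at `tc`, `td`
    have := H_between L d c tc td tb c2 d2 k
    linarith
  · have := H_between L b d tb td tc b1 d1 k
    linarith
  · have := H_between L c b tb tc td b3 c3 k
    linarith

end Pool.Agent.GG38.Trans

namespace Pool.Agent.GG38

open Finset Classical

theorem trans : StmtTrans := by
  intro ι L R E h
  refine ⟨?_, ?_⟩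
  · intro b hb hlt
    obtain ⟨t, ht⟩ := Trans.exists_time L R E h b hb
    exact lt_irrefl _ (hlt t (Or.inl ht))
  · intro b hb d hd c hc h1 h2
    obtain ⟨tb, htb⟩ := Trans.exists_time L R E h b hb
    obtain ⟨tc, htc⟩ := Trans.exists_time L R E h c hc
    obtain ⟨td, htd⟩ := Trans.exists_time L R E h d hd
    have hbc : b ≠ c := by
      intro hbc
      subst hbc
      have e1 := h1 tb (Or.inl htb)
      have e2 := h2 tb (Or.inr htb)
      linarith
    rcases h.cmpB b hb c hc hbc with hm | hlt | hlt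
    · exfalso
      have hv : L.v b ≠ L.v c := by
        intro hv
        exact hbc (h.inj (by simp [hb]) (by simp [hc]) hv)
      have t1 : L.tm b c ∈ L.I R b := L.mem_I_of_Meet hm
      have t2 : L.tm b c ∈ L.I R c := L.mem_I_of_Meet' hv hm
      have e1 := h1 _ (Or.inl t1)
      have e2 := h2 _ (Or.inr t2)
      have e3 := L.H_tm hv
      linarith
    · exact hlt
    · exact (Trans.no_cycle L R b d c h1 h2 hlt tb tc td htb htc htd).elim

end Pool.Agent.GG38
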