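import Pool.Agent.Lib.MP_38fd99_co.Spec

/-!
# Windows 1
-/

set_option autoImplicit false

namespace Pool.Agent.GG38

open Finset Classical

namespace Win1

variable {ι : Type} (L : Lines ι) (V : Finset ι)

theorem rk_lt {u u' : ℝ} (hu : u ∈ times L V) (h : u < u') : rk L V u < rk L V u' := by
  unfold rk
  refine Finset.card_lt_card ?_
  rw [Finset.ssubset_iff_of_subset]
  · exact ⟨u, Finset.mem_filter.2 ⟨hu, h⟩, fun h' => lt_irrefl _ (Finset.mem_filter.1 h').2⟩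
  · intro a ha
    obtain ⟨h1, h2⟩ := Finset.mem_filter.1 ha
    exact Finset.mem_filter.2 ⟨h1, h2.trans h⟩

theorem rk_inj {u u' : ℝ} (hu : u ∈ times L V) (hu' : u' ∈ times L V)
    (h : rk L V u = rk L V u') : u = u' := by
  rcases lt_trichotomy u u' with h1 | h1 | h1
  · exact absurd h (rk_lt L V hu h1).ne
  · exact h1
  · exact absurd h.symm (rk_lt L V hu' h1).ne

end Win1

theorem win1 : StmtWin1 := by
  intro ι L E0 w Lv hI hw x hx t
  have h0 : X L (A E0 ∪ B E0) 0 (rk L (A E0 ∪ B E0) t / 2 ^ 0) x ≤ w := by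
    refine le_trans ?_ hw
    unfold X
    rw [Finset.card_le_one]
    intro y hy z hz
    obtain ⟨hy1, hy2, hy3⟩ := Finset.mem_filter.1 hy
    obtain ⟨hz1, hz2, hz3⟩ := Finset.mem_filter.1 hz
    by_contra hyz
    rw [pow_zero, Nat.div_one, Nat.div_one] at hy3 hz3
    have hty : L.tm x y ∈ times L (A E0 ∪ B E0) :=
      Finset.mem_image.2 ⟨(x, y), Finset.mem_product.2 ⟨hx, hy1⟩, rfl⟩
    have htz : L.tm x z ∈ times L (A E0 ∪ B E0) :=
      Finset.mem_image.2 ⟨(x, z), Finset.mem_product.2 ⟨hx, hz1⟩, rfl⟩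
    exact hI.gp x hx y hy1 z hz1 hy2.symm hz2.symm hyz
      (Win1.rk_inj L _ hty htz (hy3.trans hz3.symm))
  exact Nat.findGreatest_spec (P := fun l =>
    X L (A E0 ∪ B E0) l (rk L (A E0 ∪ B E0) t / 2 ^ l) x ≤ w) (Nat.zero_le Lv) h0

end Pool.Agent.GG38
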