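import Pool.Agent.Lib.MP_38fd99_co.Spec

/-!
# Windows 2
-/

set_option autoImplicit false

namespace Pool.Agent.GG38

open Finset Classical

namespace Win2

variable {ι : Type}

/-- the sum of the numbers of meetings over different slabs of the same height -/
theorem sum_X_le (L : Lines ι) (V : Finset ι) (l : ℕ) (x : ι) (T : Finset ℕ) :
    ∑ a ∈ T, X L V l a x ≤ V.card := by
  unfold X
  rw [← Finset.card_biUnion]
  · apply Finset.card_le_card
    intro y hy
    obtain ⟨a, -, hy⟩ := Finset.mem_biUnion.1 hy
    exact (Finset.mem_filter.1 hy).1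
  · intro a _ b _ hab
    rw [Function.onFun, Finset.disjoint_left]
    intro y hy hy'
    exact hab ((Finset.mem_filter.1 hy).2.2.symm.trans (Finset.mem_filter.1 hy').2.2)

/-- maximality of the window -/
theorem X_gt (L : Lines ι) (V : Finset ι) (w Lv : ℕ) (x : ι) (t : ℝ) {l' : ℕ}
    (h : lam L V w Lv x t = l') (hl : l' < Lv) :
    w < X L V (l' + 1) (rk L V t / 2 ^ (l' + 1)) x := by
  have h1 := Nat.findGreatest_is_greatest
    (P := fun l => X L V l (rk L V t / 2 ^ l) x ≤ w) (n := Lv) (k := l' + 1)
    (by
      have : Nat.findGreatest (fun l => X L V l (rk L V t / 2 ^ l) x ≤ w) Lv = l' := h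
      omega) (by omega)
  exact not_le.1 h1

end Win2

open Win2 in
theorem win2 : StmtWin2 := by
  intro ι L V w s Lv hV hrk x l hl S hS
  choose! t ht using hS
  have hmaps : ∀ j ∈ S, lam L V w Lv x (t j) ∈ range (Lv + 1) := by
    intro j hj
    rw [Finset.mem_range]
    have := (ht j hj).2
    omega
  have hA : ∀ l' ∈ range Lv, w * (S.filter (fun j => lam L V w Lv x (t j) = l')).card ≤ 2 * s := by
    intro l' hl'
    rw [Finset.mem_range] at hl'
    obtain ⟨S', hS'⟩ : ∃ S', S' = S.filter (fun j => lam L V w Lv x (t j) = l') := ⟨_, rfl⟩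
    obtain ⟨f, hf⟩ : ∃ f : ℕ → ℕ, ∀ j, f j = rk L V (t j) / 2 ^ (l' + 1) := ⟨_, fun _ => rfl⟩
    rw [← hS']
    have h1 : S'.card ≤ 2 * (S'.image f).card := by
      apply Finset.card_le_mul_card_image
      intro a _
      rcases Nat.lt_or_ge l' l with h2 | h2
      · have h3 : S'.filter (fun j => f j = a) ⊆ {a / 2 ^ (l - l' - 1)} := by
          intro j hj
          rw [Finset.mem_filter, hS', Finset.mem_filter, hf] at hj
          obtain ⟨⟨hj1, hj2⟩, hj3⟩ := hj
          rw [Finset.mem_singleton, ← hj3, Nat.div_div_eq_div_mul, ← pow_add]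
          have h4 : l' + 1 + (l - l' - 1) = l := by omega
          rw [h4]
          exact (ht j hj1).1.symm
        exact (Finset.card_le_card h3).trans (by simp)
      · have h3 : S'.filter (fun j => f j = a) ⊆ {2 * a, 2 * a + 1} := by
          intro j hj
          rw [Finset.mem_filter, hS', Finset.mem_filter, hf] at hj
          obtain ⟨⟨hj1, hj2⟩, hj3⟩ := hj
          have h4 := (ht j hj1).2
          have h5 : l' = l := by omega
          rw [h5, pow_succ, ← Nat.div_div_eq_div_mul, (ht j hj1).1] at hj3
          rw [Finset.mem_insert, Finset.mem_singleton]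
          omega
        exact (Finset.card_le_card h3).trans (Finset.card_le_two)
    have h2 : w * (S'.image f).card ≤ ∑ a ∈ S'.image f, X L V (l' + 1) a x := by
      rw [mul_comm, ← smul_eq_mul]
      apply Finset.card_nsmul_le_sum
      intro a ha
      obtain ⟨j, hj, rfl⟩ := Finset.mem_image.1 ha
      rw [hS', Finset.mem_filter] at hj
      rw [hf]
      exact (X_gt L V w Lv x (t j) hj.2 hl').le
    have h3 := sum_X_le L V (l' + 1) x (S'.image f)
    calc w * S'.card ≤ w * (2 * (S'.image f).card) := Nat.mul_le_mul_left _ h1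
      _ = 2 * (w * (S'.image f).card) := by ring
      _ ≤ 2 * s := Nat.mul_le_mul_left _ (h2.trans (h3.trans hV))
  have hB : (S.filter (fun j => lam L V w Lv x (t j) = Lv)).card ≤ 1 := by
    have h3 : S.filter (fun j => lam L V w Lv x (t j) = Lv) ⊆ {0} := by
      intro j hj
      rw [Finset.mem_filter] at hj
      have h4 := (ht j hj.1).2
      have h5 : l = Lv := by omega
      have h6 := (ht j hj.1).1
      rw [h5, Nat.div_eq_of_lt (hrk _)] at h6
      rw [Finset.mem_singleton]
      exact h6.symm
    exact (Finset.card_le_card h3).trans (by simp)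
  rw [Finset.card_eq_sum_card_fiberwise hmaps, Finset.mul_sum, Finset.sum_range_succ]
  have hC : ∑ l' ∈ range Lv, w * (S.filter (fun j => lam L V w Lv x (t j) = l')).card ≤
      Lv * (2 * s) := by
    have := Finset.sum_le_card_nsmul (range Lv) _ (2 * s) hA
    rwa [Finset.card_range, smul_eq_mul] at this
  have hD : w * (S.filter (fun j => lam L V w Lv x (t j) = Lv)).card ≤ w * 1 :=
    Nat.mul_le_mul_left _ hB
  calc _ ≤ Lv * (2 * s) + w * 1 := add_le_add hC hD
    _ = w + 2 * Lv * s := by ring

end Pool.Agent.GG38
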