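import Pool.Agent.Lib.MP_38fd99_co.Fan
import Pool.Agent.Lib.MP_38fd99_co.FanSum
import Pool.Agent.Lib.MP_38fd99_co.Regular
import Pool.Agent.Lib.MP_38fd99_co.Removal
import Pool.Agent.Lib.MP_38fd99_co.Clean
import Pool.Agent.Lib.MP_38fd99_co.CleanA
import Pool.Agent.Lib.MP_38fd99_co.Trans
import Pool.Agent.Lib.MP_38fd99_co.Block
import Pool.Agent.Lib.MP_38fd99_co.Split
import Pool.Agent.Lib.MP_38fd99_co.InhB
import Pool.Agent.Lib.MP_38fd99_co.InhA
import Pool.Agent.Lib.MP_38fd99_co.CutB1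
import Pool.Agent.Lib.MP_38fd99_co.CutDisj
import Pool.Agent.Lib.MP_38fd99_co.CutB3
import Pool.Agent.Lib.MP_38fd99_co.CutA
import Pool.Agent.Lib.MP_38fd99_co.CutAB1
import Pool.Agent.Lib.MP_38fd99_co.CutAB2
import Pool.Agent.Lib.MP_38fd99_co.CutAB3
import Pool.Agent.Lib.MP_38fd99_co.CutAB4
import Pool.Agent.Lib.MP_38fd99_co.RefineB
import Pool.Agent.Lib.MP_38fd99_co.RefineA
import Pool.Agent.Lib.MP_38fd99_co.RefineAB
import Pool.Agent.Lib.MP_38fd99_co.Rounds
import Pool.Agent.Lib.MP_38fd99_co.SlabCell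
import Pool.Agent.Lib.MP_38fd99_co.Rk
import Pool.Agent.Lib.MP_38fd99_co.Win1
import Pool.Agent.Lib.MP_38fd99_co.Win2
import Pool.Agent.Lib.MP_38fd99_co.TopA
import Pool.Agent.Lib.MP_38fd99_co.TopM
import Pool.Agent.Lib.MP_38fd99_co.TopB
import Pool.Agent.Lib.MP_38fd99_co.Top
import Pool.Agent.Lib.MP_38fd99_co.Core
import Pool.Agent.Lib.MP_38fd99_co.Param
import Pool.Agent.Lib.MP_38fd99_co.Sep
import Pool.Agent.Lib.MP_38fd99_co.Halving
import Pool.Agent.Lib.MP_38fd99_co.Shear
import Pool.Agent.Lib.MP_38fd99_co.PlaneGP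
import Pool.Agent.Lib.MP_38fd99_co.PlaneDisj
import Pool.Agent.Lib.MP_38fd99_co.Main
import Pool.Agent.Lib.MP_38fd99_co.Final

/-! The forty modules put together. -/

set_option autoImplicit false

namespace Pool.Agent.GG38

theorem stmtClean : StmtClean := clean (fanSum fan) regular removal
theorem stmtCleanA : StmtCleanA := cleanA stmtClean
theorem stmtSplit : StmtSplit := split trans block
theorem stmtInhA : StmtInhA := inhA inhB
theorem stmtCutB1 : StmtCutB1 := cutB1 inhB
theorem stmtCutA : StmtCutA := cutA stmtCutB1 cutB3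
theorem stmtRefineB : StmtRefineB := refineB stmtClean stmtSplit stmtCutB1 cutDisj cutB3
theorem stmtRefineA : StmtRefineA := refineA stmtRefineB
theorem stmtRefineAB : StmtRefineAB :=
  refineAB stmtClean stmtCleanA stmtSplit (cutAB1 stmtInhA stmtCutB1) (cutAB2 cutDisj) cutAB3 cutAB4
theorem stmtRounds : StmtRounds := rounds stmtRefineAB
theorem stmtTopA : StmtTopA := topA slabCell rkk win1 win2
theorem stmtTop : StmtTop := top stmtTopA (topM stmtRefineA) (topB stmtRefineB)
theorem stmtCore : StmtCore := core stmtTop stmtRounds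
theorem stmtSep : StmtSep := sep stmtCore param
theorem stmtHalving : StmtHalving := halving stmtSep
theorem stmtMain : StmtMain := main stmtHalving shear planeGP planeDisj
theorem stmtFinal : StmtFinal := final stmtMain

end Pool.Agent.GG38
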