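import Pool.Agent.Lib.MP_38fd99_co.Defs

/-! Elementary facts, all proved here. -/

set_option autoImplicit false

namespace Pool.Agent.GG38

open Finset Classical

variable {ι : Type}

/-! ### vertex sets -/

theorem mem_A {E : Finset (ι × ι)} {a : ι} : a ∈ A E ↔ ∃ b, (a, b) ∈ E := by
  simp [A]

theorem mem_B {E : Finset (ι × ι)} {b : ι} : b ∈ B E ↔ ∃ a, (a, b) ∈ E := by
  simp [B]

theorem fst_mem_A {E : Finset (ι × ι)} {p : ι × ι} (hp : p ∈ E) : p.1 ∈ A E :=
  Finset.mem_image_of_mem _ hp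

theorem snd_mem_B {E : Finset (ι × ι)} {p : ι × ι} (hp : p ∈ E) : p.2 ∈ B E :=
  Finset.mem_image_of_mem _ hp

theorem A_mono {E F : Finset (ι × ι)} (h : E ⊆ F) : A E ⊆ A F := Finset.image_subset_image h

theorem B_mono {E F : Finset (ι × ι)} (h : E ⊆ F) : B E ⊆ B F := Finset.image_subset_image h

theorem mem_Esw {E : Finset (ι × ι)} {p : ι × ι} : p ∈ Esw E ↔ (p.2, p.1) ∈ E := by
  obtain ⟨a, b⟩ := p
  simp [Esw, Prod.swap]

theorem A_Esw (E : Finset (ι × ι)) : A (Esw E) = B E := by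
  ext a; simp [mem_A, mem_B, mem_Esw]

theorem B_Esw (E : Finset (ι × ι)) : B (Esw E) = A E := by
  ext a; simp [mem_A, mem_B, mem_Esw]

theorem Esw_Esw (E : Finset (ι × ι)) : Esw (Esw E) = E := by
  ext p; simp [mem_Esw]

theorem card_Esw (E : Finset (ι × ι)) : (Esw E).card = E.card :=
  Finset.card_image_of_injective _ Prod.swap_injective

theorem Esw_mono {E F : Finset (ι × ι)} (h : E ⊆ F) : Esw E ⊆ Esw F :=
  Finset.image_subset_image h

/-- the number of edges is at most the product of the numbers of ends -/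
theorem card_le_mul (E : Finset (ι × ι)) : E.card ≤ (A E).card * (B E).card := by
  rw [← Finset.card_product]
  apply Finset.card_le_card
  intro p hp
  exact Finset.mem_product.2 ⟨fst_mem_A hp, snd_mem_B hp⟩

/-! ### lines -/

namespace Lines

variable (L : Lines ι)

theorem tm_comm (x y : ι) : L.tm x y = L.tm y x := by
  unfold tm
  rw [← neg_sub (L.h x), ← neg_sub (L.v y), neg_div_neg_eq]

theorem H_tm {x y : ι} (h : L.v x ≠ L.v y) : L.H x (L.tm x y) = L.H y (L.tm x y) := by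
  unfold tm H
  have : L.v x - L.v y ≠ 0 := sub_ne_zero.2 h
  field_simp
  ring

/-- `H x t - H y t = (v x - v y) (t - tm x y)` -/
theorem H_sub {x y : ι} (h : L.v x ≠ L.v y) (t : ℝ) :
    L.H x t - L.H y t = (L.v x - L.v y) * (t - L.tm x y) := by
  have h1 := L.H_tm h
  unfold H at *
  linear_combination h1

theorem lt_iff {x y : ι} (h : L.v x < L.v y) (t : ℝ) : L.H x t < L.H y t ↔ L.tm x y < t := by
  have h1 := L.H_sub h.ne t
  constructor
  · intro h2
    by_contra h3
    push Not at h3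
    nlinarith [mul_nonneg (sub_nonneg.2 h.le) (sub_nonneg.2 h3)]
  · intro h2
    nlinarith [mul_pos (sub_pos.2 h) (sub_pos.2 h2)]

theorem gt_iff {x y : ι} (h : L.v x < L.v y) (t : ℝ) : L.H y t < L.H x t ↔ t < L.tm x y := by
  have h1 := L.H_sub h.ne t
  constructor
  · intro h2
    by_contra h3
    push Not at h3
    nlinarith [mul_nonneg (sub_nonneg.2 h.le) (sub_nonneg.2 h3)]
  · intro h2
    nlinarith [mul_pos (sub_pos.2 h) (sub_pos.2 h2)]

theorem eq_iff {x y : ι} (h : L.v x ≠ L.v y) (t : ℝ) : L.H x t = L.H y t ↔ t = L.tm x y := by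
  have h1 := L.H_sub h t
  constructor
  · intro h2
    have h3 : (L.v x - L.v y) * (t - L.tm x y) = 0 := by rw [← h1]; linarith
    rcases mul_eq_zero.1 h3 with h4 | h4
    · exact absurd (sub_eq_zero.1 h4) h
    · linarith
  · rintro rfl
    exact L.H_tm h

/-- betweenness of the three meeting times of three lines -/
theorem between {x y z : ι} (h1 : L.v x < L.v y) (h2 : L.v y < L.v z) :
    (L.tm x y ≤ L.tm x z ∧ L.tm x z ≤ L.tm y z) ∨
      (L.tm y z ≤ L.tm x z ∧ L.tm x z ≤ L.tm x y) := by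
  have hxz := h1.trans h2
  have e1 := L.H_tm h1.ne
  have e2 := L.H_sub h2.ne (L.tm x y)
  have e3 := L.H_sub hxz.ne (L.tm x y)
  -- (v x - v z) (tm x y - tm x z) = (v y - v z) (tm x y - tm y z)
  have e4 : (L.v z - L.v x) * (L.tm x y - L.tm x z) = (L.v z - L.v y) * (L.tm x y - L.tm y z) := by
    linear_combination e3 - e2 - e1
  have p1 : 0 < L.v z - L.v x := by linarith
  have p2 : 0 < L.v z - L.v y := by linarith
  have p3 : 0 < L.v y - L.v x := by linarith
  -- also (v z - v x) (tm x z - tm y z) = (v y - v x) (tm x y - tm y z)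
  have e5 : (L.v z - L.v x) * (L.tm x z - L.tm y z) = (L.v y - L.v x) * (L.tm x y - L.tm y z) := by
    linear_combination (-1 : ℝ) * e4
  rcases le_total (L.tm x y) (L.tm y z) with h | h
  · left
    constructor
    · by_contra h3
      push Not at h3
      nlinarith [mul_pos p1 (sub_pos.2 h3), mul_nonneg p2.le (sub_nonneg.2 h)]
    · by_contra h3
      push Not at h3
      nlinarith [mul_pos p1 (sub_pos.2 h3), mul_nonneg p3.le (sub_nonneg.2 h)]
  · right
    constructor
    · by_contra h3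
      push Not at h3
      nlinarith [mul_pos p1 (sub_pos.2 h3), mul_nonneg p3.le (sub_nonneg.2 h)]
    · by_contra h3
      push Not at h3
      nlinarith [mul_pos p1 (sub_pos.2 h3), mul_nonneg p2.le (sub_nonneg.2 h)]

theorem Meet_comm {R : Set (ℝ × ℝ)} {x y : ι} (h : L.v x ≠ L.v y) :
    L.Meet R x y ↔ L.Meet R y x := by
  unfold Meet
  rw [L.tm_comm y x, L.H_tm h]

theorem Meet_mono {R S : Set (ℝ × ℝ)} (h : R ⊆ S) {x y : ι} (hm : L.Meet R x y) : L.Meet S x y :=
  h hm

theorem I_mono {R S : Set (ℝ × ℝ)} (h : R ⊆ S) (x : ι) : L.I R x ⊆ L.I S x := fun _ ht => h ht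

theorem mem_I_of_Meet {R : Set (ℝ × ℝ)} {x y : ι} (h : L.Meet R x y) : L.tm x y ∈ L.I R x := h

theorem mem_I_of_Meet' {R : Set (ℝ × ℝ)} {x y : ι} (hv : L.v x ≠ L.v y) (h : L.Meet R x y) :
    L.tm x y ∈ L.I R y := by
  have := (L.Meet_comm hv).1 h
  rw [L.tm_comm]
  exact this

theorem Disj_symm {e f : ι × ι} (h : L.Disj e f) : L.Disj f e := Or.symm h

theorem Disj_irrefl (e : ι × ι) : ¬ L.Disj e e := by
  rintro (⟨t, h, -⟩ | ⟨t, h, -⟩) <;> exact lt_irrefl _ h

/-! ### the matching number -/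

theorem nu_mem_set {M E : Finset (ι × ι)} :
    M ∈ E.powerset.filter (fun M : Finset (ι × ι) => (M : Set (ι × ι)).Pairwise L.Disj) ↔
      M ⊆ E ∧ (M : Set (ι × ι)).Pairwise L.Disj := by
  simp

/-- any family of pairwise separated edges gives a lower bound -/
theorem card_le_nu {M E : Finset (ι × ι)} (h : M ⊆ E) (hM : (M : Set (ι × ι)).Pairwise L.Disj) :
    M.card ≤ L.nu E :=
  Finset.le_sup (f := Finset.card) (L.nu_mem_set.2 ⟨h, hM⟩)

/-- the maximum is attained -/
theorem exists_nu (E : Finset (ι × ι)) :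
    ∃ M ⊆ E, (M : Set (ι × ι)).Pairwise L.Disj ∧ M.card = L.nu E := by
  have hne : (E.powerset.filter
      (fun M : Finset (ι × ι) => (M : Set (ι × ι)).Pairwise L.Disj)).Nonempty :=
    ⟨∅, by simp⟩
  obtain ⟨M, hM, h⟩ := Finset.exists_mem_eq_sup _ hne (Finset.card (α := ι × ι))
  have := L.nu_mem_set.1 hM
  exact ⟨M, this.1, this.2, h.symm⟩

theorem nu_mono {E F : Finset (ι × ι)} (h : E ⊆ F) : L.nu E ≤ L.nu F := by
  obtain ⟨M, h1, h2, h3⟩ := L.exists_nu E
  rw [← h3]
  exact L.card_le_nu (h1.trans h) h2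

theorem nu_empty : L.nu ∅ = 0 := by
  obtain ⟨M, h1, h2, h3⟩ := L.exists_nu ∅
  rw [← h3]
  simp [Finset.subset_empty.1 h1]

theorem nu_pos {E : Finset (ι × ι)} (h : E.Nonempty) : 1 ≤ L.nu E := by
  obtain ⟨e, he⟩ := h
  have := L.card_le_nu (M := {e}) (E := E) (by simpa using he) (by simp)
  simpa using this

theorem nu_le_card (E : Finset (ι × ι)) : L.nu E ≤ E.card := by
  obtain ⟨M, h1, h2, h3⟩ := L.exists_nu E
  rw [← h3]
  exact Finset.card_le_card h1

/-- superadditivity: edges of different members of the family `F` are separated -/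
theorem sum_nu_le {κ : Type} (K : Finset κ) (F : κ → Finset (ι × ι)) (E : Finset (ι × ι))
    (hF : ∀ k ∈ K, F k ⊆ E)
    (hd : ∀ k ∈ K, ∀ l ∈ K, k ≠ l → ∀ e ∈ F k, ∀ f ∈ F l, L.Disj e f) :
    ∑ k ∈ K, L.nu (F k) ≤ L.nu E := by
  choose M h1 h2 h3 using fun k => L.exists_nu (F k)
  have hdisj : ∀ k ∈ K, ∀ l ∈ K, k ≠ l → Disjoint (M k) (M l) := by
    intro k hk l hl hkl
    rw [Finset.disjoint_left]
    intro e he he'
    exact L.Disj_irrefl e (hd k hk l hl hkl e (h1 k he) e (h1 l he'))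
  calc ∑ k ∈ K, L.nu (F k) = ∑ k ∈ K, (M k).card := by simp only [h3]
    _ = (K.biUnion M).card := (Finset.card_biUnion (fun k hk l hl h => hdisj k hk l hl h)).symm
    _ ≤ L.nu E := by
      apply L.card_le_nu
      · intro e he
        obtain ⟨k, hk, hek⟩ := Finset.mem_biUnion.1 he
        exact hF k hk (h1 k hek)
      · intro e he f hf hef
        have he' := Finset.mem_biUnion.1 (Finset.mem_coe.1 he)
        have hf' := Finset.mem_biUnion.1 (Finset.mem_coe.1 hf)
        obtain ⟨k, hk, hek⟩ := he'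
        obtain ⟨l, hl, hfl⟩ := hf'
        by_cases hkl : k = l
        · subst hkl
          exact h2 k hek hfl hef
        · exact hd k hk l hl hkl e (h1 k hek) f (h1 l hfl)

/-! ### reflection -/

theorem neg_v (x : ι) : L.neg.v x = - L.v x := rfl
theorem neg_h (x : ι) : L.neg.h x = - L.h x := rfl

theorem neg_neg : L.neg.neg = L := by
  cases L; simp [neg]

theorem neg_H (x : ι) (t : ℝ) : L.neg.H x t = - L.H x t := by
  unfold H; rw [neg_v, neg_h]; ring

theorem neg_tm (x y : ι) : L.neg.tm x y = L.tm x y := by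
  have h1 : L.neg.tm x y = L.tm y x := by
    unfold tm; rw [neg_v, neg_h, neg_v, neg_h]
    congr 1 <;> ring
  rw [h1, L.tm_comm]

theorem neg_I (R : Set (ℝ × ℝ)) (x : ι) : L.neg.I (Rneg R) x = L.I R x := by
  ext t; simp [I, Rneg, neg_H]

theorem neg_Meet (R : Set (ℝ × ℝ)) (x y : ι) : L.neg.Meet (Rneg R) x y ↔ L.Meet R x y := by
  simp [Meet, Rneg, neg_H, neg_tm]

theorem neg_Lt (R : Set (ℝ × ℝ)) (x y : ι) : L.neg.Lt (Rneg R) x y ↔ L.Lt R y x := by
  simp only [Lt, neg_I, neg_H]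
  constructor
  · intro h t ht
    have := h t (Or.symm ht)
    linarith
  · intro h t ht
    have := h t (Or.symm ht)
    linarith

theorem neg_Below (e f : ι × ι) : L.neg.Below e.swap f.swap ↔ L.Below f e := by
  simp only [Below, neg_H, Prod.fst_swap, Prod.snd_swap]
  constructor
  · rintro ⟨t, h1, h2, h3, h4⟩
    exact ⟨t, by linarith, by linarith, by linarith, by linarith⟩
  · rintro ⟨t, h1, h2, h3, h4⟩
    exact ⟨t, by linarith, by linarith, by linarith, by linarith⟩

theorem neg_Disj (e f : ι × ι) : L.neg.Disj e.swap f.swap ↔ L.Disj e f := by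
  unfold Disj
  rw [neg_Below, neg_Below]
  exact or_comm

theorem neg_strip (Lo Hi : Finset ι) : L.neg.strip Lo Hi = Rneg (L.strip Hi Lo) := by
  ext ⟨t, y⟩
  simp only [strip, Rneg, Set.mem_ofPred_eq, neg_H]
  constructor
  · rintro ⟨h1, h2⟩
    exact ⟨fun σ h => by have := h2 σ h; linarith, fun σ h => by have := h1 σ h; linarith⟩
  · rintro ⟨h1, h2⟩
    exact ⟨fun σ h => by have := h2 σ h; linarith, fun σ h => by have := h1 σ h; linarith⟩

theorem nu_neg (E : Finset (ι × ι)) : L.neg.nu (Esw E) = L.nu E := by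
  have key : ∀ (L : Lines ι) (E : Finset (ι × ι)), L.nu E ≤ L.neg.nu (Esw E) := by
    intro L E
    obtain ⟨M, h1, h2, h3⟩ := L.exists_nu E
    rw [← h3, ← card_Esw M]
    apply L.neg.card_le_nu (Esw_mono h1)
    intro e he f hf hef
    have he' : e.swap ∈ M := by
      have := mem_Esw.1 (Finset.mem_coe.1 he); exact this
    have hf' : f.swap ∈ M := by
      have := mem_Esw.1 (Finset.mem_coe.1 hf); exact this
    have := h2 he' hf' (fun h => hef (Prod.swap_injective h))
    have := (L.neg_Disj e.swap f.swap).2 this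
    simpa using this
  apply le_antisymm _ (key L E)
  have := key L.neg (Esw E)
  rwa [Esw_Esw, neg_neg] at this

end Lines

theorem Rneg_Rneg (R : Set (ℝ × ℝ)) : Rneg (Rneg R) = R := by
  ext ⟨t, y⟩; simp [Rneg]

theorem Rneg_inter (R S : Set (ℝ × ℝ)) : Rneg (R ∩ S) = Rneg R ∩ Rneg S := rfl

theorem Rneg_mono {R S : Set (ℝ × ℝ)} (h : R ⊆ S) : Rneg R ⊆ Rneg S := fun _ hp => h hp

theorem Rneg_disjoint {R S : Set (ℝ × ℝ)} (h : Disjoint R S) : Disjoint (Rneg R) (Rneg S) := by
  rw [Set.disjoint_left] at *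
  intro p hp hq
  exact h hp hq

/-! ### instances and cells -/

theorem Inst.mono {L : Lines ι} {E F : Finset (ι × ι)} (h : Inst L F) (hEF : E ⊆ F) :
    Inst L E := by
  have hU : A E ∪ B E ⊆ A F ∪ B F := Finset.union_subset_union (A_mono hEF) (B_mono hEF)
  refine ⟨fun a ha b hb => h.sep a (A_mono hEF ha) b (B_mono hEF hb), ?_, ?_⟩
  · exact h.inj.mono (by exact_mod_cast hU)
  · intro x hx y hy z hz
    exact h.gp x (hU hx) y (hU hy) z (hU hz)

theorem Inst.neg {L : Lines ι} {E : Finset (ι × ι)} (h : Inst L E) : Inst L.neg (Esw E) := by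
  refine ⟨?_, ?_, ?_⟩
  · intro a ha b hb
    rw [A_Esw] at ha
    rw [B_Esw] at hb
    have := h.sep b hb a ha
    rw [Lines.neg_v, Lines.neg_v]
    linarith
  · rw [A_Esw, B_Esw, Finset.union_comm]
    intro x hx y hy hxy
    rw [Lines.neg_v, Lines.neg_v] at hxy
    exact h.inj hx hy (by linarith)
  · rw [A_Esw, B_Esw, Finset.union_comm]
    intro x hx y hy z hz h1 h2 h3
    rw [Lines.neg_tm, Lines.neg_tm]
    exact h.gp x hx y hy z hz h1 h2 h3

theorem CellOK.mono {L : Lines ι} {R : Set (ℝ × ℝ)} {E F : Finset (ι × ι)} (h : CellOK L R F)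
    (hEF : E ⊆ F) : CellOK L R E := by
  have hA := A_mono hEF
  have hB := B_mono hEF
  have hU : A E ∪ B E ⊆ A F ∪ B F := Finset.union_subset_union hA hB
  exact
    { sep := fun a ha b hb => h.sep a (hA ha) b (hB hb)
      inj := h.inj.mono (by exact_mod_cast hU)
      mem := fun p hp => h.mem p (hEF hp)
      conn := fun x hx => h.conn x (hU hx)
      cloB := fun p hp b₀ hb => h.cloB p (hEF hp) b₀ (hB hb)
      cloA := fun p hp a₀ ha => h.cloA p (hEF hp) a₀ (hA ha)
      cmpB := fun b hb c hc => h.cmpB b (hB hb) c (hB hc)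
      cmpA := fun b hb c hc => h.cmpA b (hA hb) c (hA hc) }

theorem CellOK.neg {L : Lines ι} {R : Set (ℝ × ℝ)} {E : Finset (ι × ι)} (h : CellOK L R E) :
    CellOK L.neg (Rneg R) (Esw E) := by
  have hAB : ∀ a ∈ A E, ∀ b ∈ B E, L.v a ≠ L.v b := fun a ha b hb => (h.sep a ha b hb).ne
  have hinjA : ∀ a ∈ A E, ∀ c ∈ A E, a ≠ c → L.v a ≠ L.v c := fun a ha c hc hac hv =>
    hac (h.inj (by simp [ha]) (by simp [hc]) hv)
  have hinjB : ∀ a ∈ B E, ∀ c ∈ B E, a ≠ c → L.v a ≠ L.v c := fun a ha c hc hac hv =>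
    hac (h.inj (by simp [ha]) (by simp [hc]) hv)
  refine
    { sep := ?_
      inj := ?_
      mem := ?_
      conn := ?_
      cloB := ?_
      cloA := ?_
      cmpB := ?_
      cmpA := ?_ }
  · intro a ha b hb
    rw [A_Esw] at ha
    rw [B_Esw] at hb
    have := h.sep b hb a ha
    rw [Lines.neg_v, Lines.neg_v]
    linarith
  · rw [A_Esw, B_Esw, Finset.union_comm]
    intro x hx y hy hxy
    rw [Lines.neg_v, Lines.neg_v] at hxy
    exact h.inj hx hy (by linarith)
  · intro p hp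
    have hp' := mem_Esw.1 hp
    rw [Lines.neg_Meet]
    exact (L.Meet_comm (hAB _ (fst_mem_A hp') _ (snd_mem_B hp'))).1 (h.mem _ hp')
  · intro x hx
    rw [A_Esw, B_Esw, Finset.union_comm] at hx
    rw [Lines.neg_I]
    exact h.conn x hx
  · intro p hp b₀ hb hv hm
    have hp' := mem_Esw.1 hp
    rw [B_Esw] at hb
    rw [Lines.neg_v, Lines.neg_v] at hv
    rw [Lines.neg_Meet] at hm ⊢
    have := h.cloA _ hp' b₀ hb (by simpa using hv) hm
    exact (L.Meet_comm (hAB _ hb _ (snd_mem_B hp'))).1 this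
  · intro p hp a₀ ha hv hm
    have hp' := mem_Esw.1 hp
    rw [A_Esw] at ha
    rw [Lines.neg_v, Lines.neg_v] at hv
    rw [Lines.neg_Meet] at hm ⊢
    have := h.cloB _ hp' a₀ ha (by simpa using hv) hm
    exact (L.Meet_comm (hAB _ (fst_mem_A hp') _ ha)).1 this
  · intro b hb c hc hbc
    rw [B_Esw] at hb hc
    rw [Lines.neg_Meet, Lines.neg_Lt, Lines.neg_Lt]
    rcases h.cmpA b hb c hc hbc with h1 | h1 | h1
    · exact Or.inl h1
    · exact Or.inr (Or.inr h1)
    · exact Or.inr (Or.inl h1)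
  · intro b hb c hc hbc
    rw [A_Esw] at hb hc
    rw [Lines.neg_Meet, Lines.neg_Lt, Lines.neg_Lt]
    rcases h.cmpB b hb c hc hbc with h1 | h1 | h1
    · exact Or.inl h1
    · exact Or.inr (Or.inr h1)
    · exact Or.inr (Or.inl h1)

theorem Sys.neg {L : Lines ι} {E0 : Finset (ι × ι)} {κ : Type} {K : Finset κ}
    {R : κ → Set (ℝ × ℝ)} {E : κ → Finset (ι × ι)} (h : Sys L E0 K R E) :
    Sys L.neg (Esw E0) K (fun k => Rneg (R k)) (fun k => Esw (E k)) :=
  ⟨fun k hk => Esw_mono (h.sub k hk), fun k hk => (h.ok k hk).neg,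
    fun k hk l hl hkl => Rneg_disjoint (h.disj k hk l hl hkl)⟩

theorem tot_Esw {κ : Type} (K : Finset κ) (E : κ → Finset (ι × ι)) :
    tot K (fun k => Esw (E k)) = tot K E := by
  simp [tot, card_Esw]

end Pool.Agent.GG38
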