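import Pool.Agent.Lib.MP_38fd99_co.Spec

/-! # Cutting along fast lines: the pieces are cells -/

set_option autoImplicit false

namespace Pool.Agent.GG38

open Finset Classical

noncomputable section

theorem cutB1 (hI : StmtInhB) : StmtCutB1 := by
  intro ι L R E hcell l x _ hbl j
  apply hI ι L R E (E.filter (fun p => x p.2 = j)) _ _ hcell (filter_subset _ _)
  · intro σ hσ a ha
    have h1 : σ ∈ B E := by
      rcases mem_union.1 hσ with h | h
      · exact (mem_filter.1 h).1
      · exact (mem_filter.1 h).1
    exact hcell.sep a (A_mono (filter_subset _ _) ha) σ h1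
  · intro b hb t ht
    have hbB : b ∈ B E := B_mono (filter_subset _ _) hb
    have hxb : x b = j := by
      obtain ⟨a, hab⟩ := mem_B.1 hb
      exact (mem_filter.1 hab).2
    constructor
    · intro σ hσ
      obtain ⟨h1, h2⟩ := mem_filter.1 hσ
      exact hbl.lt σ h1 b hbB (by omega) t (Or.inr ht)
    · intro σ hσ
      obtain ⟨h1, h2⟩ := mem_filter.1 hσ
      exact hbl.lt b hbB σ h1 (by omega) t (Or.inl ht)

end

end Pool.Agent.GG38
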