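import Mathlib

/-!
# MP_38fd99_co : geometric graphs without `k` pairwise disjoint edges (dual model)

A point `(x, y)` of the plane is seen as the affine function (line) `t ↦ y + t x`.
Two edges `{a,b}`, `{c,d}` are disjoint segments as soon as at some time `t` both lines of one edge
are below both lines of the other edge.
-/

set_option autoImplicit false

namespace Pool.Agent.GG38

open Finset Classical

noncomputable section

/-- a family of lines `t ↦ h x + v x * t` -/
structure Lines (ι : Type) where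
  v : ι → ℝ
  h : ι → ℝ

variable {ι : Type}

namespace Lines

variable (L : Lines ι)

/-- height of the line `x` at time `t` -/
def H (x : ι) (t : ℝ) : ℝ := L.h x + L.v x * t

/-- meeting time of two lines -/
def tm (x y : ι) : ℝ := (L.h y - L.h x) / (L.v x - L.v y)

/-- times at which the line `x` is inside the region `R` -/
def I (R : Set (ℝ × ℝ)) (x : ι) : Set ℝ := {t | (t, L.H x t) ∈ R}

/-- `x` and `y` meet inside `R` -/
def Meet (R : Set (ℝ × ℝ)) (x y : ι) : Prop := (L.tm x y, L.H x (L.tm x y)) ∈ R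

/-- `x` is below `y` whenever one of them is inside `R` -/
def Lt (R : Set (ℝ × ℝ)) (x y : ι) : Prop := ∀ t ∈ L.I R x ∪ L.I R y, L.H x t < L.H y t

/-- at some time the edge `e` is strictly below the edge `f` -/
def Below (e f : ι × ι) : Prop :=
  ∃ t, L.H e.1 t < L.H f.1 t ∧ L.H e.1 t < L.H f.2 t ∧ L.H e.2 t < L.H f.1 t ∧ L.H e.2 t < L.H f.2 t

/-- separated edges (they are disjoint segments) -/
def Disj (e f : ι × ι) : Prop := L.Below e f ∨ L.Below f e

/-- maximal number of pairwise separated edges -/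
def nu (E : Finset (ι × ι)) : ℕ :=
  (E.powerset.filter (fun M : Finset (ι × ι) => (M : Set (ι × ι)).Pairwise L.Disj)).sup Finset.card

/-- reflection of the heights -/
def neg : Lines ι := ⟨fun x => - L.v x, fun x => - L.h x⟩

/-- region above all lines of `Lo` and below all lines of `Hi` -/
def strip (Lo Hi : Finset ι) : Set (ℝ × ℝ) :=
  {p | (∀ σ ∈ Lo, L.H σ p.1 < p.2) ∧ (∀ σ ∈ Hi, p.2 < L.H σ p.1)}

end Lines

/-- first ends of the edges (the slow lines) -/
def A (E : Finset (ι × ι)) : Finset ι := E.image Prod.fst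

/-- second ends of the edges (the fast lines) -/
def B (E : Finset (ι × ι)) : Finset ι := E.image Prod.snd

/-- the reflected region -/
def Rneg (R : Set (ℝ × ℝ)) : Set (ℝ × ℝ) := {p | (p.1, - p.2) ∈ R}

/-- edges with the ends exchanged -/
def Esw (E : Finset (ι × ι)) : Finset (ι × ι) := E.image Prod.swap

/-- A separated instance in general position: all first ends are slower than all second ends,
the velocities are distinct and no three lines meet in a point. -/
structure Inst (L : Lines ι) (E : Finset (ι × ι)) : Prop where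
  sep : ∀ a ∈ A E, ∀ b ∈ B E, L.v a < L.v b
  inj : Set.InjOn L.v (A E ∪ B E : Finset ι)
  gp : ∀ x ∈ A E ∪ B E, ∀ y ∈ A E ∪ B E, ∀ z ∈ A E ∪ B E, x ≠ y → x ≠ z → y ≠ z →
    L.tm x y ≠ L.tm x z

/-- A cell: a region `R` of the plane (time, height) and a set `E` of edges whose two lines meet
in `R`, with the closure properties used in the proof. -/
structure CellOK (L : Lines ι) (R : Set (ℝ × ℝ)) (E : Finset (ι × ι)) : Prop where
  sep : ∀ a ∈ A E, ∀ b ∈ B E, L.v a < L.v b
  inj : Set.InjOn L.v (A E ∪ B E : Finset ι)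
  mem : ∀ p ∈ E, L.Meet R p.1 p.2
  conn : ∀ x ∈ A E ∪ B E, (L.I R x).OrdConnected
  cloB : ∀ p ∈ E, ∀ b₀ ∈ B E, L.v p.2 < L.v b₀ → L.Meet R b₀ p.2 → L.Meet R p.1 b₀
  cloA : ∀ p ∈ E, ∀ a₀ ∈ A E, L.v a₀ < L.v p.1 → L.Meet R a₀ p.1 → L.Meet R a₀ p.2
  cmpB : ∀ b ∈ B E, ∀ c ∈ B E, b ≠ c → L.Meet R b c ∨ L.Lt R b c ∨ L.Lt R c b
  cmpA : ∀ a ∈ A E, ∀ c ∈ A E, a ≠ c → L.Meet R a c ∨ L.Lt R a c ∨ L.Lt R c a

/-- A system of cells with pairwise disjoint regions inside the instance `E0`. -/
structure Sys (L : Lines ι) (E0 : Finset (ι × ι)) {κ : Type} (K : Finset κ)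
    (R : κ → Set (ℝ × ℝ)) (E : κ → Finset (ι × ι)) : Prop where
  sub : ∀ k ∈ K, E k ⊆ E0
  ok : ∀ k ∈ K, CellOK L (R k) (E k)
  disj : ∀ k ∈ K, ∀ l ∈ K, k ≠ l → Disjoint (R k) (R l)

/-- total number of edges of a system -/
def tot {κ : Type} (K : Finset κ) (E : κ → Finset (ι × ι)) : ℕ := ∑ k ∈ K, (E k).card

/-- lines of `V` which are different from `b` and meet `b` inside `R` -/
def cr (L : Lines ι) (R : Set (ℝ × ℝ)) (V : Finset ι) (b : ι) : Finset ι :=
  V.filter (fun c => c ≠ b ∧ L.Meet R b c)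

/-- block functions: `x` splits the set `V`, ordered by `lt`, into consecutive blocks of size `l`
(all but the last one are full), elements of blocks at distance at least two are comparable. -/
structure Blocks {α : Type} (V : Finset α) (lt : α → α → Prop) (l : ℕ) (x : α → ℕ) : Prop where
  lt : ∀ b ∈ V, ∀ c ∈ V, x b + 2 ≤ x c → lt b c
  le : ∀ j, (V.filter (fun b => x b = j)).card ≤ l
  full : ∀ c ∈ V, ∀ j, j < x c → (V.filter (fun b => x b = j)).card = l

/-- the strip of the block number `j` -/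
def bstrip (L : Lines ι) (V : Finset ι) (x : ι → ℕ) (j : ℕ) : Set (ℝ × ℝ) :=
  L.strip (V.filter (fun σ => x σ + 2 ≤ j)) (V.filter (fun σ => j + 2 ≤ x σ))

end

end Pool.Agent.GG38
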