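import Pool.Agent.Lib.MP_38fd99_co.Spec

/-! # The fan lemma -/

set_option autoImplicit false

namespace Pool.Agent.GG38

open Finset Classical

namespace Fan

/-- Two disjoint order connected sets are separated. -/
theorem sepa {P Q : Set ℝ} (hP : P.OrdConnected) (hQ : Q.OrdConnected) (hd : Disjoint P Q)
    {s s' r r' : ℝ} (hs : s ∈ P) (hs' : s' ∈ P) (hr : r ∈ Q) (hr' : r' ∈ Q) (h : s < r) :
    s' < r' := by
  have h1 : s < r' := by
    by_contra hc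
    push Not at hc
    exact Set.disjoint_left.mp hd hs (hQ.out hr' hr ⟨hc, h.le⟩)
  by_contra hc
  push Not at hc
  exact Set.disjoint_left.mp hd (hP.out hs hs' ⟨h1.le, hc⟩) hr'

theorem below {ι : Type} (L : Lines ι) {b : ι} {p q : ι × ι}
    (hp1 : L.v p.1 < L.v b) (hp2 : L.v p.2 < L.v b) (hq1 : L.v q.1 < L.v b)
    (hq2 : L.v q.2 < L.v b)
    (h11 : L.tm p.1 b < L.tm q.1 b) (h12 : L.tm p.1 b < L.tm q.2 b)
    (h21 : L.tm p.2 b < L.tm q.1 b) (h22 : L.tm p.2 b < L.tm q.2 b) : L.Below p q := by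
  obtain ⟨t, ht1, ht2⟩ := exists_between
    (a₁ := max (L.tm p.1 b) (L.tm p.2 b)) (a₂ := min (L.tm q.1 b) (L.tm q.2 b))
    (max_lt (lt_min h11 h12) (lt_min h21 h22))
  have e1 : L.H p.1 t < L.H b t := (L.lt_iff hp1 t).2 ((le_max_left _ _).trans_lt ht1)
  have e2 : L.H p.2 t < L.H b t := (L.lt_iff hp2 t).2 ((le_max_right _ _).trans_lt ht1)
  have e3 : L.H b t < L.H q.1 t := (L.gt_iff hq1 t).2 (ht2.trans_le (min_le_left _ _))
  have e4 : L.H b t < L.H q.2 t := (L.gt_iff hq2 t).2 (ht2.trans_le (min_le_right _ _))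
  exact ⟨t, e1.trans e3, e1.trans e4, e2.trans e3, e2.trans e4⟩

end Fan

open Fan in
theorem fan : StmtFan := by
  intro ι L E0 κ K R E hS b₀ F hF hb
  refine L.sum_nu_le K F E0 (fun k hk => (hF k hk).trans (hS.sub k hk)) ?_
  -- the times at which the lines of an edge meet `b₀`
  have key : ∀ k ∈ K, ∀ p ∈ F k, L.v p.1 < L.v b₀ ∧ L.v p.2 < L.v b₀ ∧
      L.tm p.1 b₀ ∈ L.I (R k) b₀ ∧ L.tm p.2 b₀ ∈ L.I (R k) b₀ := by
    intro k hk p hp
    obtain ⟨h1, h2, h3⟩ := hb k hk p hp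
    have hpE := hF k hk hp
    have h4 := (hS.ok k hk).sep p.1 (fst_mem_A hpE) b₀ h1
    have h5 := (hS.ok k hk).cloB p hpE b₀ h1 h2 h3
    refine ⟨h4, h2, L.mem_I_of_Meet' h4.ne h5, ?_⟩
    rw [L.tm_comm]
    exact L.mem_I_of_Meet h3
  intro k hk l hl hkl p hp q hq
  obtain ⟨hp1, hp2, hp3, hp4⟩ := key k hk p hp
  obtain ⟨hq1, hq2, hq3, hq4⟩ := key l hl q hq
  have hbk : b₀ ∈ A (E k) ∪ B (E k) := Finset.mem_union_right _ (hb k hk p hp).1
  have hbl : b₀ ∈ A (E l) ∪ B (E l) := Finset.mem_union_right _ (hb l hl q hq).1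
  have ck := (hS.ok k hk).conn b₀ hbk
  have cl := (hS.ok l hl).conn b₀ hbl
  have hd : Disjoint (L.I (R k) b₀) (L.I (R l) b₀) := by
    rw [Set.disjoint_left]
    intro t h1 h2
    exact Set.disjoint_left.mp (hS.disj k hk l hl hkl) h1 h2
  rcases lt_trichotomy (L.tm p.1 b₀) (L.tm q.1 b₀) with h | h | h
  · left
    exact below L hp1 hp2 hq1 hq2 h (sepa ck cl hd hp3 hp3 hq3 hq4 h)
      (sepa ck cl hd hp3 hp4 hq3 hq3 h) (sepa ck cl hd hp3 hp4 hq3 hq4 h)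
  · exfalso
    rw [h] at hp3
    exact Set.disjoint_left.mp hd hp3 hq3
  · right
    exact below L hq1 hq2 hp1 hp2 h (sepa cl ck hd.symm hq3 hq3 hp3 hp4 h)
      (sepa cl ck hd.symm hq3 hq4 hp3 hp3 h) (sepa cl ck hd.symm hq3 hq4 hp3 hp4 h)

end Pool.Agent.GG38
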