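import Pool.Agent.Lib.MP_38fd99_co.Spec

/-!
# Geometric graphs in the plane, and the last statements
-/

set_option autoImplicit false

namespace Pool.Agent.GG38

open Finset Classical

noncomputable section

/-- a placement of the vertices `0, …, n-1` in general position: distinct points, no three collinear -/
def GenPos {n : ℕ} (pos : Fin n → ℝ × ℝ) : Prop :=
  Function.Injective pos ∧
    ∀ i j k : Fin n, i ≠ j → i ≠ k → j ≠ k → ¬ Collinear ℝ ({pos i, pos j, pos k} : Set (ℝ × ℝ))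

/-- the closed segment drawn for the edge `e` (convex hull of its two end points) -/
def seg {n : ℕ} (pos : Fin n → ℝ × ℝ) (e : Sym2 (Fin n)) : Set (ℝ × ℝ) :=
  convexHull ℝ (pos '' {i | i ∈ e})

/-- the geometric graph `(G, pos)` has `k` pairwise disjoint edges -/
def HasDisjointEdges {n : ℕ} (k : ℕ) (G : SimpleGraph (Fin n)) (pos : Fin n → ℝ × ℝ) : Prop :=
  ∃ S : Finset (Sym2 (Fin n)), (S : Set (Sym2 (Fin n))) ⊆ G.edgeSet ∧ S.card = k ∧
    (S : Set (Sym2 (Fin n))).Pairwise (fun e f => Disjoint (seg pos e) (seg pos f))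

/-- `e_k(n)`: the maximal number of edges of a geometric graph on `n` vertices without `k` pairwise
disjoint edges -/
def ek (k n : ℕ) : ℕ :=
  sSup {m : ℕ | ∃ (G : SimpleGraph (Fin n)) (pos : Fin n → ℝ × ℝ), GenPos pos ∧
    ¬ HasDisjointEdges k G pos ∧ G.edgeSet.ncard = m}

/-- the lines of a placement, after the shear `(x, y) ↦ (x + δ y, y)` -/
def linesOf {n : ℕ} (pos : Fin n → ℝ × ℝ) (δ : ℝ) : Lines (Fin n) :=
  ⟨fun i => (pos i).1 + δ * (pos i).2, fun i => (pos i).2⟩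

/-- SHEAR.  Proof.  For `i ≠ j` the set of `δ` with `x_i + δ y_i = x_j + δ y_j` has at most one element:
if `y_i ≠ y_j` then `δ = (x_j - x_i)/(y_i - y_j)`, and if `y_i = y_j` then `x_i ≠ x_j` and there is no such
`δ`.  A finite union of finite sets is not all of `ℝ` (`Set.Infinite`, `Set.Finite.exists_notMem`). -/
def StmtShear : Prop := ∀ (n : ℕ) (pos : Fin n → ℝ × ℝ), Function.Injective pos →
  ∃ δ : ℝ, Function.Injective (linesOf pos δ).v

/-- GENERAL POSITION in the dual model.  Proof.  Suppose `t = tm i j = tm i k`.  By `Lines.H_tm`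
(velocities are different) `H i t = H j t = H k t`.  `H x t = y + t (x + δ y) = t x + (1 + t δ) y` is a
linear functional `φ` of the point `(x, y)` with coefficients `(t, 1 + tδ) ≠ (0,0)`.  The three points are
in `{φ = c}`, hence of the form `pos i + u • (-(1 + tδ), t)`: collinear (`collinear_iff_of_mem`,
with `p₀ = pos i`).  Explicitly, if `t a + (1 + tδ) b = 0` then `(a, b) = u (-(1+tδ), t)` with
`u = (t b - (1 + tδ) a) / (t² + (1+tδ)²)`. -/
def StmtPlaneGP : Prop := ∀ (n : ℕ) (pos : Fin n → ℝ × ℝ) (δ : ℝ), GenPos pos →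
  Function.Injective (linesOf pos δ).v → ∀ i j k : Fin n, i ≠ j → i ≠ k → j ≠ k →
    (linesOf pos δ).tm i j ≠ (linesOf pos δ).tm i k

/-- SEPARATED EDGES ARE DISJOINT SEGMENTS.  Proof.  `Below e f` at time `t`; `φ(x,y) = t x + (1 + tδ) y`
is linear and `φ (pos i) = H i t`.  Let `c = max (H e.1 t) (H e.2 t)`.  `{φ ≤ c}` is convex and contains both
ends of `e`, so it contains `seg pos s(e.1,e.2)` (`convexHull_min`); `{c < φ}` is convex and contains
`seg pos s(f.1,f.2)`. -/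
def StmtPlaneDisj : Prop := ∀ (n : ℕ) (pos : Fin n → ℝ × ℝ) (δ : ℝ) (e f : Fin n × Fin n),
  (linesOf pos δ).Disj e f → Disjoint (seg pos s(e.1, e.2)) (seg pos s(f.1, f.2))

/-- THE MAIN THEOREM for geometric graphs.  Uses `StmtHalving`, `StmtShear`, `StmtPlaneGP`,
`StmtPlaneDisj`.
Proof.  Take `δ` from `StmtShear`, `L = linesOf pos δ`, `V = univ`,
`E = {(i,j) : G.Adj i j, L.v i < L.v j}`.  `|E| = G.edgeSet.ncard`: the map `(i,j) ↦ s(i,j)` is a
bijection from `E` onto `G.edgeSet` (the velocities of the ends are different).  `nu E < k`: otherwise take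
`M ⊆ E` pairwise separated with `|M| = nu E ≥ k` (`exists_nu`) and a subset `M'` of cardinality `k`; the
image of `M'` under `(i,j) ↦ s(i,j)` (injective on `E`) is a set of `k` pairwise disjoint edges
(`StmtPlaneDisj`).  Then `StmtHalving`: `|E| ≤ C n^(1+η) nu E ≤ C k n^(1+η)`. -/
def StmtMain : Prop := ∀ η : ℝ, 0 < η → η ≤ 1 → ∃ C : ℝ, 1 ≤ C ∧
  ∀ (n k : ℕ) (G : SimpleGraph (Fin n)) (pos : Fin n → ℝ × ℝ), GenPos pos →
    ¬ HasDisjointEdges k G pos → (G.edgeSet.ncard : ℝ) ≤ C * k * (n : ℝ) ^ (1 + η)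

/-- THE FINAL THEOREM.  Uses `StmtMain`.
(1) `csSup_le'`-type argument: every element of the set is `≤ C k n^(1+η)`; for `ε > 1` use `η = 1` and
`n^(2) ≤ n^(1+ε)` for `n ≥ 1`; `n = 0`: no edges.  (Use `Nat.sSup_mem` if the set is non-empty, bounded
above; or `csSup_le` in the non-empty case; the sup of the empty set is `0`.)
(2) Let `η = min 1 (ε / (2 c))`, so `c η ≤ ε/2`: for `n ≤ k^c`: `n^η ≤ k^(c η) ≤ k^(ε/2)` and
`ek k n ≤ C k n n^η ≤ C k^(1+ε/2) n ≤ k^(1+ε) n` as soon as `C ≤ k^(ε/2)`. -/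
def StmtFinal : Prop :=
  (∀ ε : ℝ, 0 < ε → ∃ C : ℝ, 0 < C ∧ ∀ k n : ℕ, (ek k n : ℝ) ≤ C * k * (n : ℝ) ^ (1 + ε)) ∧
  (∀ ε c : ℝ, 0 < ε → 0 < c → ∃ k₀ : ℕ, ∀ k ≥ k₀, ∀ n : ℕ, 1 ≤ n → (n : ℝ) ≤ (k : ℝ) ^ c →
    (ek k n : ℝ) ≤ (k : ℝ) ^ (1 + ε) * n)

end

end Pool.Agent.GG38
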