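import Pool.Agent.Lib.MP_38fd99_co.Plane

/-! General position of the dual lines. -/

set_option autoImplicit false

namespace Pool.Agent.GG38

open Finset Classical

namespace PlaneGP

/-- a vector in the kernel of `(a, b) ↦ t a + (1 + t δ) b` is a multiple of `(-(1 + t δ), t)` -/
theorem kernel (t δ a b : ℝ) (h : t * a + (1 + t * δ) * b = 0) :
    ∃ u : ℝ, a = u * (-(1 + t * δ)) ∧ b = u * t := by
  have hD : 0 < t ^ 2 + (1 + t * δ) ^ 2 := by
    rcases eq_or_ne t 0 with h0 | h0
    · subst h0
      norm_num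
    · have : 0 < t ^ 2 := by positivity
      have h2 : 0 ≤ (1 + t * δ) ^ 2 := sq_nonneg _
      linarith
  refine ⟨(t * b - (1 + t * δ) * a) / (t ^ 2 + (1 + t * δ) ^ 2), ?_, ?_⟩
  · rw [div_mul_eq_mul_div, eq_div_iff hD.ne']
    linear_combination (-t) * h + 2 * t * h
  · rw [div_mul_eq_mul_div, eq_div_iff hD.ne']
    linear_combination (1 + t * δ) * h

end PlaneGP

theorem planeGP : StmtPlaneGP := by
  intro n pos δ hgp hinj i j k hij hik hjk ht
  set L := linesOf pos δ with hL
  have hvij : L.v i ≠ L.v j := fun h => hij (hinj h)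
  have hvik : L.v i ≠ L.v k := fun h => hik (hinj h)
  set t := L.tm i j with hdt
  have e1 : L.H i t = L.H j t := L.H_tm hvij
  have e2 : L.H i t = L.H k t := by
    have := L.H_tm hvik
    rw [← ht] at this
    exact this
  have hH : ∀ x, L.H x t = (pos x).2 + ((pos x).1 + δ * (pos x).2) * t := fun x => rfl
  have key : ∀ x, L.H i t = L.H x t →
      ∃ u : ℝ, pos x = u • ((-(1 + t * δ), t) : ℝ × ℝ) +ᵥ pos i := by
    intro x hx
    rw [hH, hH] at hx
    obtain ⟨u, h1, h2⟩ := PlaneGP.kernel t δ ((pos x).1 - (pos i).1) ((pos x).2 - (pos i).2)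
      (by linear_combination -hx)
    refine ⟨u, ?_⟩
    apply Prod.ext
    · simp only [vadd_eq_add, Prod.smul_mk, smul_eq_mul, Prod.fst_add]
      linarith
    · simp only [vadd_eq_add, Prod.smul_mk, smul_eq_mul, Prod.snd_add]
      linarith
  apply hgp.2 i j k hij hik hjk
  rw [collinear_iff_of_mem (p₀ := pos i) (by simp)]
  refine ⟨(-(1 + t * δ), t), ?_⟩
  intro p hp
  simp only [Set.mem_insert_iff, Set.mem_singleton_iff] at hp
  rcases hp with rfl | rfl | rfl
  · exact key i rfl
  · exact key j e1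
  · exact key k e2

end Pool.Agent.GG38
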