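import Pool.Agent.Lib.MP_38fd99_co.Rev

/-!
# Statements of the modules (each docstring contains a complete proof)

MAIN THEOREM: for every `η > 0` there is `C` with `|E| ≤ C k n^(1+η)` for every geometric graph with
`n` vertices without `k` pairwise disjoint edges.

Notation: `nu E` = maximal number of pairwise separated edges of `E`.
`Lt R x y`: `x` is below `y` at all times at which one of them is in `R`.
-/

set_option autoImplicit false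

namespace Pool.Agent.GG38

open Finset Classical

noncomputable section

variable {ι' : Type}

/-! ## Part 1 : fans -/

/-- FAN LEMMA.  Proof.  Use `Lines.sum_nu_le` with the family `F`: the only thing to prove is that
for `k ≠ l` in `K`, `p ∈ F k`, `q ∈ F l` the edges `p`, `q` are separated.  Put `b = b₀`.
`b` is faster than `p.2` (hypothesis) and than `p.1` (`(ok k).sep`, `b₀ ∈ B (E k)`), it meets `p.2` in
`R k` (hypothesis) and meets `p.1` in `R k` (closure `cloB` for the edge `p`).  So the two times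
`t₁ = tm b p.2`, `t₂ = tm b p.1` are in `I (R k) b` (for the second: `Meet (R k) p.1 b`, use
`mem_I_of_Meet'`).  Same for `q` with times `t₃, t₄ ∈ I (R l) b`.
`I (R k) b` and `I (R l) b` are order connected (`conn`) and disjoint (because `R k`, `R l` are
disjoint), hence either all of `t₁, t₂` are `<` all of `t₃, t₄` or conversely.
(If e.g. `t₁ < t₃` and not `t₁ < t₄`, then `t₄ ≤ t₁ ≤ t₃`, so `t₁ ∈ I (R l) b` : contradiction; and so
on.)  In the first case take `t` strictly between `max t₁ t₂` and `min t₃ t₄`: `b` is faster than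
`p.1, p.2`, so at time `t` it is above both (`lt_iff`), and it is below `q.1, q.2` (`gt_iff`).  Hence
`Below p q` at time `t`.  In the second case `Below q p`. -/
def StmtFan : Prop := ∀ (ι : Type) (L : Lines ι) (E0 : Finset (ι × ι)) (κ : Type) (K : Finset κ)
  (R : κ → Set (ℝ × ℝ)) (E : κ → Finset (ι × ι)), Sys L E0 K R E →
  ∀ (b₀ : ι) (F : κ → Finset (ι × ι)), (∀ k ∈ K, F k ⊆ E k) →
    (∀ k ∈ K, ∀ p ∈ F k, b₀ ∈ B (E k) ∧ L.v p.2 < L.v b₀ ∧ L.Meet (R k) b₀ p.2) →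
    ∑ k ∈ K, L.nu (F k) ≤ L.nu E0

/-- the slower lines of `B E` met by `b` inside `R` -/
def slow (L : Lines ι') (R : Set (ℝ × ℝ)) (E : Finset (ι' × ι')) (b : ι') : Finset ι' :=
  (B E).filter (fun c => L.v c < L.v b ∧ L.Meet R b c)

/-- degree of the fast end `b` -/
def degB (E : Finset (ι' × ι')) (b : ι') : ℕ := (E.filter (fun p => p.2 = b)).card

/-- WEIGHTED COUNT OF CROSSINGS.  Uses `StmtFan`.
Proof.  Fix `b₀ ∈ B E0`.  For `k ∈ K` with `b₀ ∈ B (E k)` choose `W k ⊆ slow L (R k) (E k) b₀` with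
`|W k| = min |slow| w` (`Finset.exists_subset_card_eq`), and `W k = ∅` if `b₀ ∉ B (E k)`; put
`F k = (E k).filter (p.2 ∈ W k)`.  Then `|F k| = ∑_{c ∈ W k} degB (E k) c ≥ m k * |W k|`.
`B (F k) ⊆ W k` has at most `w` elements; for `p ∈ F k` the line `p.1` meets `b₀` in `R k` by closure
(`cloB`), so `A (F k) ⊆ (A (E k)).filter (Meet (R k) · b₀)` has at most `w` elements.  Hence
`|F k| ≤ M * nu (F k)` by the hypothesis `ih`, and `∑_k nu (F k) ≤ nu E0` by the fan lemma.  So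
`∑_k [b₀ ∈ B (E k)] m k * min |slow ..| w ≤ M * nu E0`.  Sum over `b₀ ∈ B E0` (`≤ s` elements,
`B (E k) ⊆ B E0`) and exchange the sums. -/
def StmtFanSum : Prop := ∀ (ι : Type) (L : Lines ι) (E0 : Finset (ι × ι)) (κ : Type) (K : Finset κ)
  (R : κ → Set (ℝ × ℝ)) (E : κ → Finset (ι × ι)), Sys L E0 K R E →
  ∀ (w s : ℕ) (M : ℝ), 0 ≤ M →
    (∀ k ∈ K, ∀ b ∈ B (E k), ((A (E k)).filter (fun a => L.Meet (R k) a b)).card ≤ w) →
    (B E0).card ≤ s →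
    (∀ E' ⊆ E0, (A E').card ≤ w → (B E').card ≤ w → (E'.card : ℝ) ≤ M * L.nu E') →
    ∀ m : κ → ℕ, (∀ k ∈ K, ∀ b ∈ B (E k), m k ≤ degB (E k) b) →
      ((∑ k ∈ K, m k * ∑ b ∈ B (E k), min (slow L (R k) (E k) b).card w : ℕ) : ℝ) ≤
        s * M * L.nu E0

/-- REGULARISATION of one cell.  Proof.  For `b ∈ B E`, `1 ≤ degB E b ≤ |A E| < 2^lg` so
`Nat.log 2 (degB E b) < lg`.  Choose `j < lg` maximizing the number of edges `p ∈ E` with
`Nat.log 2 (degB E p.2) = j` (pigeonhole: `∑_{j<lg}` of these numbers is `|E|`), let `E'` be the set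
of these edges, `m = 2^j`.  All edges of `E` at `b ∈ B E'` are in `E'`, so `degB E' b = degB E b`.
(If `E = ∅` take `m = 1`, `E' = ∅`.) -/
def StmtRegular : Prop := ∀ (ι : Type) (E : Finset (ι × ι)) (lg : ℕ), (A E).card < 2 ^ lg →
  ∃ E' ⊆ E, ∃ m : ℕ, 1 ≤ m ∧ E.card ≤ lg * E'.card ∧
    ∀ b ∈ B E', m ≤ degB E' b ∧ degB E' b ≤ 2 * m

/-- REMOVAL (pure graph statement).  Proof.  `W b c` = `c` is an out-neighbour of `b`.
Let `H = {b ∈ V : out(b) > δ}`; for `b ∈ H`, `min out(b) w ≥ δ` (as `δ ≤ w`), so `δ |H| ≤ q` where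
`q` is the sum on the right.  `V₂ = V \ H`; for `b ∈ V₂`, `out(b) ≤ δ ≤ w` so `min = out(b)`.  For
`c ∈ V₂` let `in(c) = #{b ∈ V₂ : W b c}`.  Double counting: `∑_{c∈V₂} in(c) ≤ ∑_{b∈V₂} out(b) ≤ q`.
`H' = {c ∈ V₂ : in(c) > δ}`: `δ |H'| ≤ q`.  `V' = V₂ \ H'`.  For `b ∈ V'` the set
`{c ∈ V' : W b c ∨ W c b}` has at most `out(b) + in(b) ≤ 2δ` elements. -/
def StmtRemoval : Prop := ∀ (α : Type) (V : Finset α) (W : α → α → Prop) (w δ : ℕ),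
  1 ≤ δ → δ ≤ w → ∃ V' ⊆ V,
    δ * (V \ V').card ≤ 2 * ∑ b ∈ V, min (V.filter (fun c => W b c)).card w ∧
    ∀ b ∈ V', (V'.filter (fun c => W b c ∨ W c b)).card ≤ 2 * δ

/-- CLEANING.  Uses `StmtFanSum`, `StmtRegular`, `StmtRemoval`.
Proof.  For every `k ∈ K` regularise `E k` (`lg`): get `E₁ k ⊆ E k`, `m k`, `|E k| ≤ lg |E₁ k|`.
(`(A (E k)).card ≤ (A E0).card < 2^lg`.)  Apply `StmtFanSum` to the system `E₁` (it is again a
system, `CellOK.mono`; the hypothesis on `w` is monotone):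
`∑_k m k q k ≤ s M nu E0`, `q k = ∑_{b ∈ B (E₁ k)} min (slow ..).card w`.
Apply `StmtRemoval` to `V = B (E₁ k)`, `W b c := v c < v b ∧ Meet (R k) b c` : get `V' k`,
`δ |V \ V' k| ≤ 2 q k`.  Put `E' k = (E₁ k).filter (p.2 ∈ V' k)`.  Every removed vertex has degree
`≤ 2 m k`, so `δ (|E₁ k| - |E' k|) ≤ 2 m k * δ |V \ V'| ≤ 4 m k q k`.  Sum:
`δ (∑|E₁ k| - ∑|E' k|) ≤ 4 s M nu E0 ≤ δ T / (2 lg)`, `T = tot K E`, and `∑|E₁ k| ≥ T / lg`, so
`∑|E' k| ≥ T / (2 lg)`.  Finally for `b ∈ B (E' k)` (`⊆ V' k`): a line `c ∈ cr L (R k) (B (E' k)) b` is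
different from `b`, so its velocity is different (`inj`), and `W b c` or `W c b` holds (the latter by
`Meet_comm`). -/
def StmtClean : Prop := ∀ (ι : Type) (L : Lines ι) (E0 : Finset (ι × ι)) (κ : Type) (K : Finset κ)
  (R : κ → Set (ℝ × ℝ)) (E : κ → Finset (ι × ι)), Sys L E0 K R E →
  ∀ (w s δ lg : ℕ) (M : ℝ), 0 ≤ M →
    (∀ k ∈ K, ∀ b ∈ B (E k), ((A (E k)).filter (fun a => L.Meet (R k) a b)).card ≤ w) →
    (B E0).card ≤ s → (A E0).card < 2 ^ lg →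
    (∀ E' ⊆ E0, (A E').card ≤ w → (B E').card ≤ w → (E'.card : ℝ) ≤ M * L.nu E') →
    1 ≤ δ → δ ≤ w → 8 * (lg : ℝ) * s * M * L.nu E0 ≤ δ * tot K E →
    ∃ E' : κ → Finset (ι × ι), (∀ k ∈ K, E' k ⊆ E k) ∧ tot K E ≤ 2 * lg * tot K E' ∧
      ∀ k ∈ K, ∀ b ∈ B (E' k), (cr L (R k) (B (E' k)) b).card ≤ 2 * δ

/-- CLEANING, slow lines.  Proof: apply `StmtClean` to `L.rev`, `Esw E0`, `Rrev (R k)`,
`Esw (E k)` (see `Rev.lean`: `Sys.rev`, `nu_rev`, `rev_Meet`, `rev_cr`, `A_Esw`, `B_Esw`, `tot_Esw`;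
the meeting conditions need `Meet_comm` with velocities different by `sep`), and put
`E' k := Esw (E'' k)`. -/
def StmtCleanA : Prop := ∀ (ι : Type) (L : Lines ι) (E0 : Finset (ι × ι)) (κ : Type) (K : Finset κ)
  (R : κ → Set (ℝ × ℝ)) (E : κ → Finset (ι × ι)), Sys L E0 K R E →
  ∀ (w s δ lg : ℕ) (M : ℝ), 0 ≤ M →
    (∀ k ∈ K, ∀ a ∈ A (E k), ((B (E k)).filter (fun b => L.Meet (R k) a b)).card ≤ w) →
    (A E0).card ≤ s → (B E0).card < 2 ^ lg →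
    (∀ E' ⊆ E0, (A E').card ≤ w → (B E').card ≤ w → (E'.card : ℝ) ≤ M * L.nu E') →
    1 ≤ δ → δ ≤ w → 8 * (lg : ℝ) * s * M * L.nu E0 ≤ δ * tot K E →
    ∃ E' : κ → Finset (ι × ι), (∀ k ∈ K, E' k ⊆ E k) ∧ tot K E ≤ 2 * lg * tot K E' ∧
      ∀ k ∈ K, ∀ a ∈ A (E' k), (cr L (R k) (A (E' k)) a).card ≤ 2 * δ

/-! ## Part 2 : orders and blocks -/

/-- TRANSITIVITY of `Lt R` on the fast lines of a cell.
Proof.  Every line of `B E` is in `R` at some time (its meeting time with a partner of `E`: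
`mem` and `mem_I_of_Meet'`).  Let `b < d < c` (`Lt`).  (i) `b ≠ c` (else at a time of `I b`:
`H b < H d < H b`).  (ii) `b`, `c` do not meet in `R`: if they meet at `(t, y) ∈ R`, `y = H b t = H c t`,
then `t ∈ I b ∩ I c`, `H d t > H b t = y` (`b < d`) and `y = H c t > H d t` (`d < c`), contradiction.
(iii) So by `cmpB`, `Lt b c` (done) or `Lt c b`.  Suppose `Lt c b`.  Take `tb ∈ I b`, `tc ∈ I c`,
`td ∈ I d`.  At `tb`: `H c < H b < H d`.  At `tc`: `H d < H c < H b`.  At `td`: `H b < H d < H c`.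
One of the three times is between the two others (weakly), say `tb` between `tc` and `td`: the
affine function `H c - H d` is positive at `tc` and at `td`, hence at `tb`; but `H c < H d` at `tb`.
Similarly in the other cases (`tc` between: `H b - H d` is negative at `tb`, `td`, but positive at `tc`;
`td` between: `H b - H c` is positive at `tb`, `tc`, negative at `td`). -/
def StmtTrans : Prop := ∀ (ι : Type) (L : Lines ι) (R : Set (ℝ × ℝ)) (E : Finset (ι × ι)),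
  CellOK L R E → (∀ b ∈ B E, ¬ L.Lt R b b) ∧
    ∀ b ∈ B E, ∀ d ∈ B E, ∀ c ∈ B E, L.Lt R b d → L.Lt R d c → L.Lt R b c

/-- BLOCK LEMMA (pure order statement).
Proof.  Let `n = |V|`.  There is `π : α → ℕ`, injective on `V`, with values in `[0,n)` on `V` (hence
onto `[0, n)`) and `lt b c → π b < π c` on `V` (linear extension: induction on `|V|`, removing an
element `b` which is not below any other one, `π b = n - 1`; such `b` exists by transitivity and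
irreflexivity).  Claim: if `b, c ∈ V`, `π b + 2Δ < π c + 1`... precisely if `π c ≥ π b + 2 Δ` and
`b ≠ c` then `lt b c`.  Otherwise `b`, `c` are incomparable (`lt c b` would give `π c < π b`; and
`π c = π b` is impossible).  The `π c - π b - 1` elements `z` with `π b < π z < π c` are each
incomparable to `b` or to `c` (`lt z b`, `lt c z` are impossible by `π`; `lt b z` and `lt z c` would give
`lt b c`).  The incomparables of `b` are at most `Δ`, one of them is `c`, so at most `Δ - 1` of the `z`;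
same for `c`: `π c - π b - 1 ≤ 2 Δ - 2`, i.e. `π c ≤ π b + 2Δ - 1`.  Put `x b = π b / l`.
(1) `x b + 2 ≤ x c` gives `π c ≥ l (x b + 2) > π b + l ≥ π b + 2Δ`.  (2) block `j` is `π⁻¹[lj, lj+l)`.
(3) if `j < x c` then `[lj, lj + l) ⊆ [0, π c) ⊆ [0,n)` so the block has exactly `l` elements. -/
def StmtBlock : Prop := ∀ (α : Type) (V : Finset α) (lt : α → α → Prop),
  (∀ b ∈ V, ¬ lt b b) → (∀ b ∈ V, ∀ d ∈ V, ∀ c ∈ V, lt b d → lt d c → lt b c) →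
  ∀ (Δ l : ℕ), 2 * Δ ≤ l → 1 ≤ l →
    (∀ b ∈ V, (V.filter (fun c => c ≠ b ∧ ¬ lt b c ∧ ¬ lt c b)).card ≤ Δ) →
    ∃ x : α → ℕ, Blocks V lt l x

/-- BLOCKS OF A CELL.  Uses `StmtTrans` (for the cell and for the time reversed cell, `CellOK.rev`,
`rev_Lt`) and `StmtBlock`.  Incomparable different lines of `B E` meet in `R` by `cmpB`, so their
number is at most `(cr L R (B E) b).card ≤ Δ`.  Same for `A E`. -/
def StmtSplit : Prop := ∀ (ι : Type) (L : Lines ι) (R : Set (ℝ × ℝ)) (E : Finset (ι × ι)),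
  CellOK L R E → ∀ (Δ l : ℕ), 2 * Δ ≤ l → 1 ≤ l →
    ((∀ b ∈ B E, (cr L R (B E) b).card ≤ Δ) → ∃ x : ι → ℕ, Blocks (B E) (L.Lt R) l x) ∧
    ((∀ a ∈ A E, (cr L R (A E) a).card ≤ Δ) → ∃ x : ι → ℕ, Blocks (A E) (L.Lt R) l x)

/-! ## Part 3 : cutting cells -/

/-- INHERITANCE.  Proof.  Put `S = L.strip Lo Hi`, `R' = R ∩ S`.
First some facts.  For `b ∈ B E'`: `I R' b = I R b` (hypothesis: `b` is inside the strip on `I R b`).
For `a ∈ A E'`: `I R' a = I R a ∩ {t : ∀ σ ∈ Lo, H σ t < H a t} ∩ {t : ∀ σ ∈ Hi, H a t < H σ t}`, and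
since the `σ` are faster than `a`: `H σ t < H a t ↔ t < tm a σ` (`gt_iff`) and
`H a t < H σ t ↔ tm a σ < t` (`lt_iff`): intersection of rays, so order connected.
`sep`, `inj`: restriction.  `mem`: `p ∈ E'`, meeting point in `R` and on the line `p.2 ∈ B E'` at a time of
`I R p.2`, so in the strip.  `cloB`: `p ∈ E'`, `b₀ ∈ B E'`; `Meet R' b₀ p.2 → Meet R b₀ p.2`, by `cloB` of
the cell `Meet R p.1 b₀`; the meeting point is on the line `b₀` at a time of `I R b₀`, so in the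
strip.  `cloA`: the conclusion `Meet R a₀ p.2` is a point of the line `p.2 ∈ B E'`, so in the strip.
`cmpB`: if `b, c ∈ B E'` meet in `R` then the point is in the strip; `Lt R b c → Lt R' b c` as
`I R' ⊆ I R`.  `cmpA`: let `a ≠ c` in `A E'`.  If `Lt R a c` or `Lt R c a`: done by monotonicity.  If
they meet in `R` at `(t₀,y₀)`, `t₀ = tm a c`: if the point is in the strip, done.  Otherwise there is
`σ ∈ Lo` with `y₀ ≤ H σ t₀` or `σ ∈ Hi` with `H σ t₀ ≤ y₀`.  Case `σ ∈ Lo`: `H a t₀ ≤ H σ t₀` and `σ` is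
faster, so `tm a σ ≤ t₀` and every `t ∈ I R' a` satisfies `t < tm a σ ≤ t₀`; same for `c`.  So all times
of `I R' a ∪ I R' c` are `< t₀ = tm a c`, and there the order of `a` and `c` is constant: if
`v a < v c` then `H c t < H a t` (`gt_iff`), i.e. `Lt R' c a`; if `v c < v a` then `Lt R' a c`.  Case
`σ ∈ Hi`: all times are `> t₀`, similarly. -/
def StmtInhB : Prop := ∀ (ι : Type) (L : Lines ι) (R : Set (ℝ × ℝ)) (E E' : Finset (ι × ι))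
  (Lo Hi : Finset ι), CellOK L R E → E' ⊆ E →
  (∀ σ ∈ Lo ∪ Hi, ∀ a ∈ A E', L.v a < L.v σ) →
  (∀ b ∈ B E', ∀ t ∈ L.I R b, (∀ σ ∈ Lo, L.H σ t < L.H b t) ∧ (∀ σ ∈ Hi, L.H b t < L.H σ t)) →
  CellOK L (R ∩ L.strip Lo Hi) E'

/-- INHERITANCE, slow separators.  Proof: `StmtInhB` for `L.rev`, `Rrev R`, `Esw E`, `Esw E'`, then
`CellOK.rev` once more with `rev_rev`, `Rrev_Rrev`, `Esw_Esw`, `rev_strip`, `Rrev_inter`. -/
def StmtInhA : Prop := ∀ (ι : Type) (L : Lines ι) (R : Set (ℝ × ℝ)) (E E' : Finset (ι × ι))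
  (Lo Hi : Finset ι), CellOK L R E → E' ⊆ E →
  (∀ σ ∈ Lo ∪ Hi, ∀ b ∈ B E', L.v σ < L.v b) →
  (∀ a ∈ A E', ∀ t ∈ L.I R a, (∀ σ ∈ Lo, L.H σ t < L.H a t) ∧ (∀ σ ∈ Hi, L.H a t < L.H σ t)) →
  CellOK L (R ∩ L.strip Lo Hi) E'

/-- CUTTING ALONG FAST LINES, (a).  Uses `StmtInhB`: apply it
with `Lo = {σ : x σ + 2 ≤ j}`, `Hi = {σ : j + 2 ≤ x σ}` (subsets of `B E`, so faster than
all of `A E`); for `b` with `x b = j`, `σ ∈ Lo`: `Lt R σ b` by `Blocks.lt`, so `H σ t < H b t` for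
`t ∈ I R b`; same for `Hi`. -/
def StmtCutB1 : Prop := ∀ (ι : Type) (L : Lines ι) (R : Set (ℝ × ℝ)) (E : Finset (ι × ι)),
  CellOK L R E → ∀ (l : ℕ) (x : ι → ℕ), 1 ≤ l → Blocks (B E) (L.Lt R) l x →
    ∀ j, CellOK L (R ∩ bstrip L (B E) x j) (E.filter (fun p => x p.2 = j))

/-- CUTTING, (b): strips of the same residue are disjoint.
Block `j + 2 < j'` is full (`Blocks.full` for an element of block `j'`), `l ≥ 1`, so it contains
some `σ`; a point `(t,y)` of both strips satisfies `y < H σ t` (as `j + 2 ≤ x σ`) and `H σ t < y` (as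
`x σ + 2 = j + 4 ≤ j'`).  (Used for `V = B E` and for `V = A E`.) -/
def StmtCutDisj : Prop := ∀ (ι : Type) (L : Lines ι) (V : Finset ι) (lt : ι → ι → Prop) (l : ℕ)
  (x : ι → ℕ), 1 ≤ l → Blocks V lt l x → ∀ j j', j + 4 ≤ j' → (∃ b ∈ V, x b = j') →
      Disjoint (bstrip L V x j) (bstrip L V x j')

/-- CUTTING, (c): number of the blocks visited by a slow line.
Let `J = {j : j % 4 = i, ∃ b, (a,b) ∈ E, x b = j}`, `j ∈ J` not the maximum of `J`, `j' = max J`, so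
`j + 4 ≤ j'`.  Every `σ ∈ B E` with `x σ = j + 2` meets `a` in `R`: let `(a,b), (a,b') ∈ E`,
`x b = j`, `x b' = j'`, `t = tm a b`, `t' = tm a b'`, both in `I R a`.  `Lt R b σ`, `Lt R σ b'`.  At `t`:
`H a = H b < H σ`.  At `t'`: `H a = H b' > H σ`.  `σ` is faster than `a`, so `tm a σ < t` and `t' < tm a σ`,
so `tm a σ ∈ I R a` (`conn`), i.e. `Meet R a σ`.  There are exactly `l` such `σ` for every such `j`
(`Blocks.full`), and they are different for different `j`: `l (|J| - 1) ≤ #{b ∈ B E : Meet R a b}`. -/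
def StmtCutB3 : Prop := ∀ (ι : Type) (L : Lines ι) (R : Set (ℝ × ℝ)) (E : Finset (ι × ι)),
  CellOK L R E → ∀ (l : ℕ) (x : ι → ℕ), 1 ≤ l → Blocks (B E) (L.Lt R) l x →
    ∀ i, ∀ a ∈ A E,
      l * (((E.filter (fun p => p.1 = a)).image (fun p => x p.2)).filter (fun j => j % 4 = i)).card ≤
        l + ((B E).filter (fun b => L.Meet R a b)).card

/-- CUTTING ALONG SLOW LINES, (a) and (c).  Uses `StmtCutB1`, `StmtCutB3`.
Proof: apply them to `L.rev`, `Rrev R`, `Esw E` and the same `x`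
(`Blocks (B (Esw E)) (L.rev.Lt (Rrev R)) l x` by `rev_Lt`, `B_Esw`), then reverse again
(`rev_bstrip`, `Rrev_inter`, `CellOK.rev`, `rev_rev`, `Rrev_Rrev`, `Esw_Esw`). -/
def StmtCutA : Prop := ∀ (ι : Type) (L : Lines ι) (R : Set (ℝ × ℝ)) (E : Finset (ι × ι)),
  CellOK L R E → ∀ (l : ℕ) (x : ι → ℕ), 1 ≤ l → Blocks (A E) (L.Lt R) l x →
    (∀ j, CellOK L (R ∩ bstrip L (A E) x j) (E.filter (fun p => x p.1 = j))) ∧
    (∀ i, ∀ b ∈ B E,
      l * (((E.filter (fun p => p.2 = b)).image (fun p => x p.1)).filter (fun j => j % 4 = i)).card ≤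
        l + ((A E).filter (fun a => L.Meet R b a)).card)

/-- the cells obtained by cutting along both families -/
def cutR (L : Lines ι') (R : Set (ℝ × ℝ)) (E : Finset (ι' × ι')) (xA xB : ι' → ℕ) (z : ℕ × ℕ) :
    Set (ℝ × ℝ) := R ∩ (bstrip L (A E) xA z.1 ∩ bstrip L (B E) xB z.2)

def cutE (E : Finset (ι' × ι')) (xA xB : ι' → ℕ) (z : ℕ × ℕ) : Finset (ι' × ι') :=
  E.filter (fun p => xA p.1 = z.1 ∧ xB p.2 = z.2)

def cutJ (E : Finset (ι' × ι')) (xA xB : ι' → ℕ) (i i' : ℕ) : Finset (ℕ × ℕ) :=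
  (E.image (fun p => (xA p.1, xB p.2))).filter (fun z => z.1 % 4 = i ∧ z.2 % 4 = i')

/-- CUTTING ALONG BOTH FAMILIES, (a).  Uses `StmtInhA`, `StmtCutB1`.
`StmtCutB1` gives `CellOK` for `(R ∩ bstrip (B E) xB z.2, E₁ = E.filter (xB p.2 = z.2))`; then apply
`StmtInhA` to it with `E' = cutE E xA xB z` and `Lo, Hi` = the finsets of `bstrip L (A E) xA z.1` (subsets of
`A E`, so slower than all of `B E`); for `a ∈ A E'`, `xA a = z.1`, `t ∈ I (R ∩ ..) a ⊆ I R a`: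
`H σ t < H a t` by `Blocks.lt`.  The region is rewritten with `Set.inter_assoc`, `Set.inter_comm`. -/
def StmtCutAB1 : Prop := ∀ (ι : Type) (L : Lines ι) (R : Set (ℝ × ℝ)) (E : Finset (ι × ι)),
  CellOK L R E → ∀ (l : ℕ) (xA xB : ι → ℕ), 1 ≤ l → Blocks (A E) (L.Lt R) l xA →
    Blocks (B E) (L.Lt R) l xB → ∀ z, CellOK L (cutR L R E xA xB z) (cutE E xA xB z)

/-- CUTTING ALONG BOTH FAMILIES, (b).  Uses `StmtCutDisj`.
`z ≠ z'` in `cutJ`: the components are equal or differ by at least 4 (same residues), blocks are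
non-empty: disjointness of the first or of the second strips. -/
def StmtCutAB2 : Prop := ∀ (ι : Type) (L : Lines ι) (R : Set (ℝ × ℝ)) (E : Finset (ι × ι)),
  ∀ (l : ℕ) (xA xB : ι → ℕ), 1 ≤ l → Blocks (A E) (L.Lt R) l xA →
    Blocks (B E) (L.Lt R) l xB →
    ∀ i i', ∀ z ∈ cutJ E xA xB i i', ∀ z' ∈ cutJ E xA xB i i', z ≠ z' →
      Disjoint (cutR L R E xA xB z) (cutR L R E xA xB z')

/-- CUTTING ALONG BOTH FAMILIES, (c): diagonals.
Let `z, z' ∈ cutJ` with `z.1 < z'.1` and `z.2 < z'.2` (so `+ 4 ≤`), `p ∈ cutE z`, `p' ∈ cutE z'`.  At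
the time `t = tm p.1 p.2` (in `I R p.1` and `I R p.2`): `H p.1 t = H p.2 t`, and `H p.1 t < H p'.1 t` as
`Lt R p.1 p'.1`, `H p.2 t < H p'.2 t`: `Below p p'`.  For `c ∈ A E`: `l * xA c ≤ |A E| ≤ r l`
(`Blocks.full`: the blocks `0..xA c - 1` are disjoint subsets of `A E` with `l` elements), so
`xA c ≤ r`, same for `xB`.  Group the `z ∈ cutJ` by `d = z.2 + r - z.1 ∈ [0, 2r]`: two different `z, z'` in
the same group differ in both components in the same direction, so their edges are separated and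
`∑_{z in group} nu (cutE z) ≤ nu E` (`sum_nu_le`).  Sum over the `2r+1` groups. -/
def StmtCutAB3 : Prop := ∀ (ι : Type) (L : Lines ι) (R : Set (ℝ × ℝ)) (E : Finset (ι × ι)),
  CellOK L R E → ∀ (l r : ℕ) (xA xB : ι → ℕ), 1 ≤ l → Blocks (A E) (L.Lt R) l xA →
    Blocks (B E) (L.Lt R) l xB → (A E).card ≤ r * l → (B E).card ≤ r * l →
    ∀ i i', ∑ z ∈ cutJ E xA xB i i', L.nu (cutE E xA xB z) ≤ (2 * r + 1) * L.nu E

/-- CUTTING ALONG BOTH FAMILIES, (d): pigeonhole.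
The sets `{p ∈ E : xA p.1 % 4 = i, xB p.2 % 4 = i'}`, `i,i' < 4`, cover `E`; the set with
indices `(i,i')` is the disjoint union of the `cutE z`, `z ∈ cutJ E xA xB i i'`. -/
def StmtCutAB4 : Prop := ∀ (ι : Type) (E : Finset (ι × ι)) (xA xB : ι → ℕ),
    ∃ i i', E.card ≤ 16 * ∑ z ∈ cutJ E xA xB i i', (cutE E xA xB z).card

/-! ## Part 4 : refining systems -/

/-- ONE SIDED REFINEMENT (fast lines).  Uses `StmtClean`, `StmtSplit`, `StmtCutB1`, `StmtCutDisj`,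
`StmtCutB3`.
Proof.  Clean with `δ`: `E₁ k`, all crossing degrees `≤ 2δ`.  `StmtSplit` with `Δ = 2δ`, `4δ ≤ l`: block
function `x k` for every `k ∈ K` (for the cell `(R k, E₁ k)`).  Choose the residue `i k < 4` with
`4 * #{p ∈ E₁ k : x k p.2 % 4 = i k} ≥ |E₁ k|`.  New index set:
`K' = {(k,j) : k ∈ K, j ∈ (E₁ k).image (x k p.2), j % 4 = i k}`,
`R' (k,j) = R k ∩ bstrip L (B (E₁ k)) (x k) j`, `E' (k,j) = (E₁ k).filter (x k p.2 = j)`.
System: `StmtCutB1`, `StmtCutDisj` and disjointness of the `R k`.  Sizes: `Blocks.le`.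
Total: `∑_j |E' (k,j)| = #{p ∈ E₁ k : x k p.2 % 4 = i k}`.
Fifth item: `b ∈ B (E' (k,j))` forces `j = x k b`.  Sixth item: `StmtCutB3`. -/
def StmtRefineB : Prop := ∀ (ι : Type) (L : Lines ι) (E0 : Finset (ι × ι)) (κ : Type) (K : Finset κ)
  (R : κ → Set (ℝ × ℝ)) (E : κ → Finset (ι × ι)), Sys L E0 K R E →
  ∀ (w s δ lg l : ℕ) (M : ℝ), 0 ≤ M →
    (∀ k ∈ K, ∀ b ∈ B (E k), ((A (E k)).filter (fun a => L.Meet (R k) a b)).card ≤ w) →
    (B E0).card ≤ s → (A E0).card < 2 ^ lg →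
    (∀ E' ⊆ E0, (A E').card ≤ w → (B E').card ≤ w → (E'.card : ℝ) ≤ M * L.nu E') →
    1 ≤ δ → δ ≤ w → 4 * δ ≤ l → 8 * (lg : ℝ) * s * M * L.nu E0 ≤ δ * tot K E →
    ∃ (K' : Finset (κ × ℕ)) (R' : κ × ℕ → Set (ℝ × ℝ)) (E' : κ × ℕ → Finset (ι × ι)),
      Sys L E0 K' R' E' ∧
      (∀ z ∈ K', z.1 ∈ K ∧ R' z ⊆ R z.1 ∧ E' z ⊆ E z.1) ∧
      (∀ z ∈ K', (B (E' z)).card ≤ l) ∧
      tot K E ≤ 8 * lg * tot K' E' ∧
      (∀ k ∈ K, ∀ b, (K'.filter (fun z => z.1 = k ∧ b ∈ B (E' z))).card ≤ 1) ∧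
      (∀ k ∈ K, ∀ a ∈ A (E k), l * (K'.filter (fun z => z.1 = k ∧ a ∈ A (E' z))).card ≤
        l + ((B (E k)).filter (fun b => L.Meet (R k) a b)).card)

/-- ONE SIDED REFINEMENT (slow lines).  Proof: `StmtRefineB` for the time reversed system
(`Sys.rev` etc. of `Rev.lean`; `Meet_comm` where the order of the two lines is exchanged), or word for
word the same proof with `StmtCleanA`, `StmtCutA`. -/
def StmtRefineA : Prop := ∀ (ι : Type) (L : Lines ι) (E0 : Finset (ι × ι)) (κ : Type) (K : Finset κ)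
  (R : κ → Set (ℝ × ℝ)) (E : κ → Finset (ι × ι)), Sys L E0 K R E →
  ∀ (w s δ lg l : ℕ) (M : ℝ), 0 ≤ M →
    (∀ k ∈ K, ∀ a ∈ A (E k), ((B (E k)).filter (fun b => L.Meet (R k) a b)).card ≤ w) →
    (A E0).card ≤ s → (B E0).card < 2 ^ lg →
    (∀ E' ⊆ E0, (A E').card ≤ w → (B E').card ≤ w → (E'.card : ℝ) ≤ M * L.nu E') →
    1 ≤ δ → δ ≤ w → 4 * δ ≤ l → 8 * (lg : ℝ) * s * M * L.nu E0 ≤ δ * tot K E →
    ∃ (K' : Finset (κ × ℕ)) (R' : κ × ℕ → Set (ℝ × ℝ)) (E' : κ × ℕ → Finset (ι × ι)),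
      Sys L E0 K' R' E' ∧
      (∀ z ∈ K', z.1 ∈ K ∧ R' z ⊆ R z.1 ∧ E' z ⊆ E z.1) ∧
      (∀ z ∈ K', (A (E' z)).card ≤ l) ∧
      tot K E ≤ 8 * lg * tot K' E' ∧
      (∀ k ∈ K, ∀ a, (K'.filter (fun z => z.1 = k ∧ a ∈ A (E' z))).card ≤ 1) ∧
      (∀ k ∈ K, ∀ b ∈ B (E k), l * (K'.filter (fun z => z.1 = k ∧ b ∈ B (E' z))).card ≤
        l + ((A (E k)).filter (fun a => L.Meet (R k) a b)).card)

/-- TWO SIDED REFINEMENT.  Uses `StmtClean`, `StmtCleanA`, `StmtSplit`, `StmtCutAB1`-`StmtCutAB4`.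
Proof.  `StmtCleanA` with `δ` (its hypothesis on `w` holds since `(B (E k)).card ≤ w`; the last
hypothesis `8 lg s M nu ≤ δ T` follows from `16 lg² s M nu ≤ δ T`, `lg ≥ 1` [if `lg = 0` then `A E0` is
empty and everything is trivial]) gives `E₁`, `T ≤ 2 lg T₁`; `StmtClean` for the system `E₁` (hypothesis
`8 lg s M nu ≤ δ T₁` as `T₁ ≥ T/(2 lg)`) gives `E₂ k ⊆ E₁ k`, `T₁ ≤ 2 lg T₂`.  For the cells
`(R k, E₂ k)` both crossing degrees are `≤ 2δ` (monotonicity of `cr` in the set).  `StmtSplit`: block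
functions `xA k`, `xB k`.  `StmtCutAB3` with `(A (E₂ k)).card ≤ w ≤ r l`; residues `i k`, `i' k` from
`StmtCutAB4`.
`K' = {(k, z) : k ∈ K, z ∈ cutJ (E₂ k) (xA k) (xB k) (i k) (i' k)}`.  Sizes by `Blocks.le`. -/
def StmtRefineAB : Prop := ∀ (ι : Type) (L : Lines ι) (E0 : Finset (ι × ι)) (κ : Type)
  (K : Finset κ) (R : κ → Set (ℝ × ℝ)) (E : κ → Finset (ι × ι)), Sys L E0 K R E →
  ∀ (w s δ lg l r : ℕ) (M : ℝ), 0 ≤ M →
    (∀ k ∈ K, (A (E k)).card ≤ w ∧ (B (E k)).card ≤ w) →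
    (A E0).card ≤ s → (B E0).card ≤ s → (A E0).card < 2 ^ lg → (B E0).card < 2 ^ lg →
    (∀ E' ⊆ E0, (A E').card ≤ w → (B E').card ≤ w → (E'.card : ℝ) ≤ M * L.nu E') →
    1 ≤ δ → δ ≤ w → 4 * δ ≤ l → w ≤ r * l →
    16 * (lg : ℝ) ^ 2 * s * M * L.nu E0 ≤ δ * tot K E →
    ∃ (K' : Finset (κ × (ℕ × ℕ))) (R' : κ × (ℕ × ℕ) → Set (ℝ × ℝ))
      (E' : κ × (ℕ × ℕ) → Finset (ι × ι)),
      Sys L E0 K' R' E' ∧
      (∀ z ∈ K', z.1 ∈ K ∧ (A (E' z)).card ≤ l ∧ (B (E' z)).card ≤ l) ∧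
      tot K E ≤ 64 * lg ^ 2 * tot K' E' ∧
      (∀ k ∈ K, ∑ z ∈ K'.filter (fun z => z.1 = k), L.nu (E' z) ≤ (2 * r + 1) * L.nu (E k))

/-! ## Part 5 : the rounds -/

/-- The standing assumptions of the main induction step. -/
structure Ctx (L : Lines ι') (E0 : Finset (ι' × ι')) (r s lg J q : ℕ) (M : ℕ → ℝ) : Prop where
  inst : Inst L E0
  card : (A E0 ∪ B E0).card ≤ s
  s1 : 1 ≤ s
  s_le : s ≤ r ^ (J + q)
  lg2 : s < 2 ^ lg
  J3 : 3 ≤ J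
  M0 : ∀ j, 0 ≤ M j
  ih : ∀ j, 1 ≤ j → j ≤ J → ∀ E' ⊆ E0, (A E').card ≤ r ^ j → (B E').card ≤ r ^ j →
    (E'.card : ℝ) ≤ M j * L.nu E'
  gap : ∀ j, 2 ≤ j → j ≤ J → (s : ℝ) * M j * L.nu E0 ≤ (r : ℝ) ^ (j - 2) * E0.card
  big : (400 * J * lg) ^ (2 * J + 8) ≤ r

/-- ROUNDS.  Uses `StmtRefineAB`.
Induction on `j`.  `j = 1`: every `E k` has at most `r²` edges (`card_le_mul`) and `nu (E k) ≥ 1` if
`E k` is non-empty.  Step `j-1 → j` (`j ≥ 2`): refine with `w = r^j`, `l = r^(j-1)`, `M j`,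
`δ = 16 lg² P r^(j-2)`: `4 δ = 64 lg² P r^(j-2) ≤ r^(j-1) = l` because `P (64 lg²)^j ≤ r`; `δ ≤ w`; `w = r l`;
`16 lg² s M_j nu ≤ 16 lg² r^(j-2) |E0| ≤ 16 lg² r^(j-2) P T = δ T` by `gap`.  New system with
`T ≤ 64 lg² T'`, so `|E0| ≤ P' T'` with `P' = 64 lg² P` and `P' (64 lg²)^(j-1) ≤ r`.  Induction:
`T' ≤ (192 lg²)^(j-2) r^j ∑ nu (E' z)`; `∑_z nu (E' z) ≤ (2r+1) ∑_k nu (E k) ≤ 3 r ∑_k nu (E k)` (group by
`z.1 ∈ K`).  So `T ≤ 64 lg² (192 lg²)^(j-2) r^j 3 r ∑ nu (E k)`. -/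
def StmtRounds : Prop := ∀ (ι : Type) (L : Lines ι) (E0 : Finset (ι × ι)) (r s lg J q : ℕ)
  (M : ℕ → ℝ), Ctx L E0 r s lg J q M → ∀ (j P : ℕ), 1 ≤ j → j ≤ J → 1 ≤ P →
    P * (64 * lg ^ 2) ^ j ≤ r →
    ∀ (κ : Type) (K : Finset κ) (R : κ → Set (ℝ × ℝ)) (E : κ → Finset (ι × ι)), Sys L E0 K R E →
      (∀ k ∈ K, (A (E k)).card ≤ r ^ j ∧ (B (E k)).card ≤ r ^ j) → E0.card ≤ P * tot K E →
      tot K E ≤ (192 * lg ^ 2) ^ (j - 1) * r ^ (j + 1) * ∑ k ∈ K, L.nu (E k)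

/-! ## Part 6 : time slabs -/

/-- all meeting times of the lines of `V` -/
def times (L : Lines ι') (V : Finset ι') : Finset ℝ := (V ×ˢ V).image (fun p => L.tm p.1 p.2)

/-- rank of a time -/
def rk (L : Lines ι') (V : Finset ι') (t : ℝ) : ℕ := ((times L V).filter (fun u => u < t)).card

/-- the slab number `j` of height `l` (times with `rk t / 2^l = j`) -/
def slabR (L : Lines ι') (V : Finset ι') (l j : ℕ) : Set (ℝ × ℝ) := {p | rk L V p.1 / 2 ^ l = j}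

/-- number of lines of `V` met by `x` during the slab `(l,j)` -/
def X (L : Lines ι') (V : Finset ι') (l j : ℕ) (x : ι') : ℕ :=
  (V.filter (fun y => y ≠ x ∧ rk L V (L.tm x y) / 2 ^ l = j)).card

/-- the height of the largest dyadic slab containing `t` during which `x` meets at most `w` lines -/
def lam (L : Lines ι') (V : Finset ι') (w Lv : ℕ) (x : ι') (t : ℝ) : ℕ :=
  Nat.findGreatest (fun l => X L V l (rk L V t / 2 ^ l) x ≤ w) Lv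

/-- SLABS ARE CELLS.  Let `S = {t | rk t / 2^l = j}`; `rk` is monotone so `S` is order connected, and
`I (slabR ..) x = S` for every line.  `sep`, `inj` from `Inst.mono`.  `mem`: hypothesis.  `conn`: clear.
`cloB`: `a = p.1`, `c = p.2`, `v a < v c < v b₀`: `tm a b₀` is between `tm a c ∈ S` and `tm c b₀ ∈ S`
(`Lines.between`).  `cloA`: `v a₀ < v a < v c`: `tm a₀ c` is between `tm a₀ a` and `tm a c`.
`cmpB`, `cmpA`: if `t₀ = tm b c ∉ S` then all `t ∈ S` are `< t₀` or all are `> t₀`, and the order of `b` and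
`c` is constant on each side (`lt_iff`, `gt_iff`). -/
def StmtSlabCell : Prop := ∀ (ι : Type) (L : Lines ι) (E0 E' : Finset (ι × ι)) (V : Finset ι)
  (l j : ℕ), Inst L E0 → E' ⊆ E0 → (∀ p ∈ E', rk L V (L.tm p.1 p.2) / 2 ^ l = j) →
  CellOK L (slabR L V l j) E'

/-- RANKS.  `|times| ≤ |V|² ≤ s² < 2^Lv`. -/
def StmtRk : Prop := ∀ (ι : Type) (L : Lines ι) (V : Finset ι) (s Lv : ℕ), V.card ≤ s →
  s * s < 2 ^ Lv → ∀ t, rk L V t < 2 ^ Lv

/-- WINDOWS 1.  At `l = 0` at most one line `y ∈ V`, `y ≠ x`, has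
`rk (tm x y) = j`: for `y ≠ z` the times `tm x y ≠ tm x z` (general position) are both in `times`, and
the rank is injective on `times`.  So `X L V 0 j x ≤ 1 ≤ w` and `Nat.findGreatest_spec` applies. -/
def StmtWin1 : Prop := ∀ (ι : Type) (L : Lines ι) (E0 : Finset (ι × ι)) (w Lv : ℕ),
  Inst L E0 → 1 ≤ w →
  ∀ x ∈ A E0 ∪ B E0, ∀ t, X L (A E0 ∪ B E0) (lam L (A E0 ∪ B E0) w Lv x t)
    (rk L (A E0 ∪ B E0) t / 2 ^ (lam L (A E0 ∪ B E0) w Lv x t)) x ≤ w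

/-- WINDOWS 2.  For `l ≤ Lv` and a finite set `S` of slab numbers such that every `j ∈ S` has a witness
time `t` with `rk t / 2^l = j` and `lam x t ≤ l`: `w |S| ≤ w + 2 Lv s`.  Proof: map `j ∈ S` with witness `t` to
the window `(l', j') = (lam x t, rk t / 2^(lam x t))`; this is injective since `j' / 2^(l - l') = j`
(`Nat.div_div_eq_div_mul`).  If `l' < Lv` then `X (l'+1) (j'/2) x > w` (maximality,
`Nat.findGreatest_is_greatest`; `rk t / 2^(l'+1) = j'/2`).  For fixed `l' < Lv` the number of `j''` with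
`X (l'+1) j'' x > w` times `w` is at most `∑_{j''} X (l'+1) j'' x ≤ |V| ≤ s`, and each `j''` has two `j'` with
`j'/2 = j''`, so `w #{j'} ≤ 2 s`.  If `l' = Lv` then `j' = 0` (`rk t < 2^Lv`).  Total:
`w |S| ≤ w + Lv * 2 s`. -/
def StmtWin2 : Prop := ∀ (ι : Type) (L : Lines ι) (V : Finset ι) (w s Lv : ℕ),
  V.card ≤ s → (∀ t, rk L V t < 2 ^ Lv) → ∀ (x : ι), ∀ l ≤ Lv, ∀ S : Finset ℕ,
    (∀ j ∈ S, ∃ t, rk L V t / 2 ^ l = j ∧ lam L V w Lv x t ≤ l) →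
    w * S.card ≤ w + 2 * Lv * s

/-- what the first step produces -/
def TopA (L : Lines ι') (E0 : Finset (ι' × ι')) (w s Lv : ℕ) : Prop :=
  ∃ (K : Finset ℕ) (R : ℕ → Set (ℝ × ℝ)) (E : ℕ → Finset (ι' × ι')), Sys L E0 K R E ∧
    E0.card ≤ 2 * (Lv + 1) * tot K E ∧
    (∀ k ∈ K, ∀ a ∈ A (E k), ((B (E k)).filter (fun b => L.Meet (R k) a b)).card ≤ w) ∧
    (∀ x ∈ A E0 ∪ B E0, w * (K.filter (fun k => x ∈ A (E k) ∪ B (E k))).card ≤ w + 2 * Lv * s) ∧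
    (∀ x ∈ A E0 ∪ B E0,
      ∑ k ∈ K, ((A E0 ∪ B E0).filter (fun y => y ≠ x ∧ L.Meet (R k) x y)).card ≤ s)

/-- FIRST STEP.  Uses `StmtSlabCell`, `StmtRk`, `StmtWin1`, `StmtWin2`.
Proof.  `V = A E0 ∪ B E0`, `lam x t` with `w`, `Lv`.  For an edge `p` put `t_p = tm p.1 p.2`.
CASE 1: at least half of the edges are in `E₁ = {p ∈ E0 : lam p.2 t_p ≤ lam p.1 t_p}`.  Then `TopA L E0`:
choose `l ≤ Lv` such that `E_l = {p ∈ E₁ : lam p.1 t_p = l}` has at least `|E₁|/(Lv+1)` elements.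
`K = range (2^Lv)`, `R j = slabR L V l j`, `E j = {p ∈ E_l : rk t_p / 2^l = j}`.  It is a system
(`StmtSlabCell`; slabs with different `j` are disjoint), `tot = |E_l|` because `rk t_p / 2^l < 2^Lv`.
Third item: `a ∈ A (E j)`: there is `p ∈ E j` with `p.1 = a`, `lam a t_p = l`, `rk t_p / 2^l = j`, so
`X L V l j a ≤ w` (`StmtWin1`), and `{b ∈ B (E j) : Meet (R j) a b} ⊆ {y ∈ V : y ≠ a, rk (tm a y)/2^l = j}` (`b ≠ a` by
`sep`).  Fourth item: `StmtWin2` with `S = {j ∈ K : x ∈ A (E j) ∪ B (E j)}`: if `x ∈ A (E j)` the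
witness is `t_p`, `p.1 = x`, `lam x t_p = l`; if `x ∈ B (E j)` then `p.2 = x`, `lam x t_p ≤ lam p.1 t_p = l`.
Fifth item: the sets `{y ∈ V : y ≠ x, Meet (R j) x y}`, i.e. `rk (tm x y)/2^l = j`, are disjoint for
different `j`, so the sum is `≤ |V| ≤ s`.
CASE 2: otherwise at least half of the edges satisfy `lam p.1 t_p ≤ lam p.2 t_p`.  The instance
`L.neg`, `Esw E0` has the same `V`, `tm` (`neg_tm`), hence the same `rk`, `X`, `lam`, and case 1 applies to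
it. -/
def StmtTopA : Prop := ∀ (ι : Type) (L : Lines ι) (E0 : Finset (ι × ι)) (w s Lv : ℕ),
  Inst L E0 → (A E0 ∪ B E0).card ≤ s → s * s < 2 ^ Lv → 1 ≤ w →
  TopA L E0 w s Lv ∨ TopA L.neg (Esw E0) w s Lv

/-- the balanced system -/
def TopB (L : Lines ι') (E0 : Finset (ι' × ι')) (r s lg J q : ℕ) : Prop :=
  ∃ (κ : Type) (K : Finset κ) (R : κ → Set (ℝ × ℝ)) (E : κ → Finset (ι' × ι')), Sys L E0 K R E ∧
    (∀ k ∈ K, (A (E k)).card ≤ r ^ (J - 1) ∧ (B (E k)).card ≤ r ^ (J - 1)) ∧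
    E0.card ≤ 384 * lg ^ 3 * tot K E ∧
    ∑ k ∈ K, ((A (E k)).card + (B (E k)).card) ≤ s * r ^ (q + 2)

/-- the intermediate system: only the slow side is small -/
def TopM (L : Lines ι') (E0 : Finset (ι' × ι')) (r s lg J q : ℕ) : Prop :=
  ∃ (K : Finset (ℕ × ℕ)) (R : ℕ × ℕ → Set (ℝ × ℝ)) (E : ℕ × ℕ → Finset (ι' × ι')),
    Sys L E0 K R E ∧ (∀ z ∈ K, (A (E z)).card ≤ r ^ (J - 1)) ∧
    E0.card ≤ 16 * lg * (2 * lg + 1) * tot K E ∧
    (∀ x ∈ B E0, (K.filter (fun z => x ∈ B (E z))).card ≤ r ^ (q + 2)) ∧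
    (∀ x ∈ A E0, ∑ z ∈ K.filter (fun z => x ∈ A (E z)),
      (r ^ (J - 1) + ((B (E z)).filter (fun b => L.Meet (R z) x b)).card) ≤ r ^ (J - 1) * r ^ (q + 2))

/-- BALANCING, slow side.  Uses `StmtRefineA`.
Proof.  `lg ≥ 1` because `1 ≤ s < 2^lg`.  System `TopA` with `w = r^J`, `T ≥ |E0|/(2(2lg+1))`.
Put `l = r^(J-1)`.  `StmtRefineA` with `w = r^J`, `M J`, `δ = 16 lg (2lg+1) r^(J-2)`: `4δ ≤ l` since
`64 lg (2lg+1) ≤ r` (`big`), `δ ≤ w`, `8 lg s M_J nu ≤ 8 lg r^(J-2) |E0| ≤ δ T` (`gap`).  New system `K'`, all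
`(A (E' z)).card ≤ l`, `T ≤ 8 lg T'`.
COUNT.  For `x ∈ V = A E0 ∪ B E0` let `N x = #{k ∈ K : x ∈ A (E k) ∪ B (E k)}`: `w N x ≤ w + 4 lg s`, and
`s ≤ r^(J+q) = r^q w` so `N x ≤ 1 + 4 lg r^q`.  Also `s ≤ r^(q+1) l`, and `1 + 4 lg r^q + r^(q+1) ≤ r^(q+2)`.
If `x ∈ B E0`: `l #{z ∈ K' : x ∈ B (E' z)} ≤ ∑_{k : x ∈ B (E k)} (l + #{a ∈ A (E k) : Meet (R k) a x})
≤ l N x + s ≤ l r^(q+2)` (sixth item of `StmtRefineA` and the fifth item of `TopA`, `Meet_comm`, the `a` are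
different from `x` by `sep`).
If `x ∈ A E0`: for every `k ∈ K` there is at most one `z ∈ K'` with `z.1 = k`, `x ∈ A (E' z)` (fifth item of
`StmtRefineA`), it requires `x ∈ A (E k)`, and `#{b ∈ B (E' z) : Meet (R' z) x b} ≤
#{y ∈ V : y ≠ x, Meet (R k) x y}` (`R' z ⊆ R k`, `B (E' z) ⊆ V`): so the sum is `≤ l N x + s` again. -/
def StmtTopM : Prop := ∀ (ι : Type) (L : Lines ι) (E0 : Finset (ι × ι)) (r s lg J q : ℕ)
  (M : ℕ → ℝ), Ctx L E0 r s lg J q M → TopA L E0 (r ^ J) s (2 * lg) → TopM L E0 r s lg J q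

/-- BALANCING, fast side.  Uses `StmtRefineB`.
Proof.  `StmtRefineB` for the system of `TopM` with `w = l = r^(J-1)` (the filter of `A (E z)` has at most
`l` elements), `M (J-1)`, `δ = 128 lg² (2lg+1) r^(J-3)`: `|E0| ≤ 16 lg (2lg+1) T`,
`8 lg s M_(J-1) nu ≤ 8 lg r^(J-3) |E0| ≤ δ T`, `4δ ≤ r^(J-2) ≤ l`, `δ ≤ l`, `δ ≥ 1`.
New system `K'` (index type `(ℕ × ℕ) × ℕ`) with both sizes `≤ l` (`E' z ⊆ E z.1` so `A` stays small),
`T ≤ 8 lg T'`; `|E0| ≤ 128 lg² (2lg+1) T' ≤ 384 lg³ T'`.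
COUNT.  `x ∈ B E0`: `#{z ∈ K' : x ∈ B (E' z)} ≤ #{z ∈ K : x ∈ B (E z)} ≤ r^(q+2)` (fifth item).
`x ∈ A E0`: `l #{z ∈ K' : x ∈ A (E' z)} ≤ ∑_{z ∈ K, x ∈ A (E z)} (l + #{b ∈ B (E z) : Meet (R z) x b})
≤ l r^(q+2)` (sixth item).  Finally `∑_z (|A (E' z)| + |B (E' z)|) = ∑_{x ∈ A E0} #{..} + ∑_{x ∈ B E0} #{..}
≤ (|A E0| + |B E0|) r^(q+2)`, and `|A E0| + |B E0| = |A E0 ∪ B E0| ≤ s` (disjoint by `sep`). -/
def StmtTopB : Prop := ∀ (ι : Type) (L : Lines ι) (E0 : Finset (ι × ι)) (r s lg J q : ℕ)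
  (M : ℕ → ℝ), Ctx L E0 r s lg J q M → TopM L E0 r s lg J q → TopB L E0 r s lg J q

/-- THE BALANCED SYSTEM EXISTS.  Uses `StmtTopA`, `StmtTopM`, `StmtTopB`.
Proof.  `Ctx L E0 ..` implies `Ctx L.neg (Esw E0) ..` (`Inst.neg`, `nu_neg`, `A_Esw`, `B_Esw`, `card_Esw`; for
`ih` apply the original one to `Esw E'`).  `s*s < 2^(2 lg)`, `1 ≤ r^J`.  By the three statements we have
`TopB L E0` or `TopB L.neg (Esw E0)`; in the second case `Sys.neg` (with `Lines.neg_neg`, `Esw_Esw`,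
`tot_Esw`, `card_Esw`) gives `TopB L E0` as well. -/
def StmtTop : Prop := ∀ (ι : Type) (L : Lines ι) (E0 : Finset (ι × ι)) (r s lg J q : ℕ)
  (M : ℕ → ℝ), Ctx L E0 r s lg J q M → TopB L E0 r s lg J q

/-- THE CORE.  Uses `StmtTop`, `StmtRounds`.
Proof.  Let `K, R, E` be the system of `TopB`.
For `1 ≤ j ≤ J-1` let `K_j` be the set of `k ∈ K` with `E k ≠ ∅`, `max |A| |B| ≤ r^j` and (`j = 1` or
`max |A| |B| > r^(j-1)`).  They cover the `k ∈ K` with `E k ≠ ∅` (least `j ≥ 1` with `max |A| |B| ≤ r^j`), so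
there is `j` with `tot K E ≤ J * tot K_j E`.  `|K_j| r^(j-1) ≤ ∑_{K_j} (|A| + |B|) ≤ s r^(q+2)`.  With
`P = 384 lg³ J`: `|E0| ≤ P tot K_j E`, and `P (64 lg²)^j ≤ (400 J lg)^(2J+8) ≤ r`, so `StmtRounds` gives
`tot K_j E ≤ (192 lg²)^(j-1) r^(j+1) ∑_{K_j} nu (E k) ≤ (192 lg²)^(j-1) r^(j+1) |K_j| nu E0
≤ (192 lg²)^(j-1) r² s r^(q+2) nu E0`.
Hence `|E0| ≤ 384 lg³ J (192 lg²)^J s r^(q+4) nu E0 ≤ s r^(q+5) nu E0` by `big`. -/
def StmtCore : Prop := ∀ (ι : Type) (L : Lines ι) (E0 : Finset (ι × ι)) (r s lg J q : ℕ)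
  (M : ℕ → ℝ), Ctx L E0 r s lg J q M → E0.card ≤ s * r ^ (q + 5) * L.nu E0

/-! ## Part 7 : induction -/

/-- CHOICE OF THE PARAMETERS (analysis).
Proof.  `q = ⌈3/η⌉`, `N ≥ (q+5)/η`, `N ≥ q + 3`, `J = N - q`.  For `s` large let `r = ⌈s^(1/N)⌉`, so
`s ≤ r^N` and `r^N ≤ s (1 + s^(-1/N))^N ≤ 2 s` for `s ≥ s₀`.
(b) `(400 J (log₂ s + 1))^(2J+8) ≤ s^(1/N) ≤ r` for large `s`.
(c) `2 r^J < s`: `s ≥ r^N/2 = r^J r^q / 2` and `r^q > 4`.
(d) `r^(q+5) ≤ r^(N η) ≤ (2s)^η ≤ 2 s^η` (`η ≤ 1`).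
(e) `(2 r^j)^(1+η) ≤ 4 r^j r^(jη)` and `s^η r^(j-2) ≥ (r^N/2)^η r^(j-2) ≥ r^(Nη) r^(j-2) / 2`; as
`(N - j) η ≥ q η ≥ 3` we have `r^(Nη) ≥ r^3 r^(jη) ≥ 8 r² r^(jη)` for `r ≥ 8`. -/
def StmtParam : Prop := ∀ η : ℝ, 0 < η → η ≤ 1 → ∃ J q s₀ : ℕ, 3 ≤ J ∧ 1 ≤ s₀ ∧
  ∀ s : ℕ, s₀ ≤ s → ∃ r : ℕ,
    s ≤ r ^ (J + q) ∧ (400 * J * (Nat.log 2 s + 1)) ^ (2 * J + 8) ≤ r ∧ 2 * r ^ J < s ∧
    (r : ℝ) ^ (q + 5) ≤ 2 * (s : ℝ) ^ η ∧
    ∀ j, 2 ≤ j → j ≤ J → (2 * (r : ℝ) ^ j) ^ (1 + η) ≤ (s : ℝ) ^ η * (r : ℝ) ^ (j - 2)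

/-- SEPARATED CASE.  Uses `StmtCore`, `StmtParam`.
Proof.  `C = max s₀ 2` (with `J, q, s₀` from `StmtParam`).  Strong induction on `s = |A E ∪ B E|`.
If `E = ∅` trivial.  If `s < s₀`: `|E| ≤ |A E| |B E| ≤ s² ≤ s₀ s ≤ C s^(1+η) nu E` (`nu ≥ 1`, `s ≥ 1`).
Let `s ≥ s₀` and suppose `|E| > C s^(1+η) nu E`.  Take `r` from `StmtParam`, `lg = Nat.log 2 s + 1`,
`M j = C (2 r^j)^(1+η)`.  `Ctx L E r s lg J q M` holds: `ih`: `E' ⊆ E`, `|A E'|, |B E'| ≤ r^j` gives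
`|A E' ∪ B E'| ≤ 2 r^j ≤ 2 r^J < s`, so by induction `|E'| ≤ C |..|^(1+η) nu E' ≤ M j nu E'`.  `gap`:
`s M_j nu E ≤ s C s^η r^(j-2) nu E = r^(j-2) C s^(1+η) nu E ≤ r^(j-2) |E|`.  `StmtCore`:
`|E| ≤ s r^(q+5) nu E ≤ 2 s^(1+η) nu E ≤ C s^(1+η) nu E`: contradiction. -/
def StmtSep : Prop := ∀ η : ℝ, 0 < η → η ≤ 1 → ∃ C : ℝ, 1 ≤ C ∧
  ∀ (ι : Type) (L : Lines ι) (E : Finset (ι × ι)), Inst L E →
    (E.card : ℝ) ≤ C * ((A E ∪ B E).card : ℝ) ^ (1 + η) * L.nu E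

/-- HALVING: from the separated case to all geometric graphs.  Uses `StmtSep`.
Proof.  `C' = 3 C`.  Strong induction on `n = |V|`.  `n ≤ 1`: `E = ∅` (no `p.1 ≠ p.2` in `V`).
`n ≥ 2`: the velocities are distinct on `V`, so there is a real `θ` such that
`V₁ = {x ∈ V : v x < θ}` and `V₂ = {x ∈ V : θ ≤ v x}` both have at most `(n+1)/2` elements (and are
proper subsets).  `E₁ = {p ∈ E : v p.2 < θ}`, `E₂ = {p ∈ E : θ ≤ v p.1}`, `E₃ = {p ∈ E : v p.1 < θ ≤ v p.2}`.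
`E₃` is a separated instance (`Inst L E₃`) with vertices in `V`, so `|E₃| ≤ C n^(1+η) nu E₃`.
Induction: `|E₁| ≤ C' ⌈n/2⌉^(1+η) nu E₁`, same for `E₂`.  `nu E₁ + nu E₂ ≤ nu E`: for `e ∈ E₁`,
`f ∈ E₂` all velocities of `e` are smaller than those of `f`, so for large `t` the edge `e` is below `f`
(take `t` larger than the four meeting times, `lt_iff`); use `sum_nu_le` with `κ = Bool`.
`⌈n/2⌉ ≤ 2n/3` for `n ≥ 2`, so `⌈n/2⌉^(1+η) ≤ (2/3) n^(1+η)` and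
`|E| ≤ C' (2/3) n^(1+η) nu E + C n^(1+η) nu E ≤ C' n^(1+η) nu E`. -/
def StmtHalving : Prop := ∀ η : ℝ, 0 < η → η ≤ 1 → ∃ C : ℝ, 1 ≤ C ∧
  ∀ (ι : Type) (L : Lines ι) (V : Finset ι) (E : Finset (ι × ι)), Set.InjOn L.v V →
    (∀ x ∈ V, ∀ y ∈ V, ∀ z ∈ V, x ≠ y → x ≠ z → y ≠ z → L.tm x y ≠ L.tm x z) →
    (∀ p ∈ E, p.1 ∈ V ∧ p.2 ∈ V ∧ L.v p.1 < L.v p.2) →
    (E.card : ℝ) ≤ C * (V.card : ℝ) ^ (1 + η) * L.nu E

end

end Pool.Agent.GG38
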