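import Pool.Agent.Lib.MP_38fd99_co.Basic

/-! Time reversal: exchanges the roles of the slow and of the fast lines and keeps the vertical
order.  All proved here. -/

set_option autoImplicit false

namespace Pool.Agent.GG38

open Finset Classical

variable {ι : Type}

/-- time reversal -/
noncomputable def Lines.rev (L : Lines ι) : Lines ι := ⟨fun x => - L.v x, L.h⟩

/-- the time reversed region -/
def Rrev (R : Set (ℝ × ℝ)) : Set (ℝ × ℝ) := {p | (- p.1, p.2) ∈ R}

namespace Lines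

variable (L : Lines ι)

theorem rev_v (x : ι) : L.rev.v x = - L.v x := rfl
theorem rev_h (x : ι) : L.rev.h x = L.h x := rfl

theorem rev_rev : L.rev.rev = L := by
  cases L; simp [rev]

theorem rev_H (x : ι) (t : ℝ) : L.rev.H x t = L.H x (-t) := by
  unfold H; rw [rev_v, rev_h]; ring

theorem rev_tm (x y : ι) : L.rev.tm x y = - L.tm x y := by
  unfold tm; rw [rev_v, rev_h, rev_v, rev_h, ← div_neg]
  congr 1; ring

theorem rev_I (R : Set (ℝ × ℝ)) (x : ι) (t : ℝ) :
    t ∈ L.rev.I (Rrev R) x ↔ - t ∈ L.I R x := by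
  simp [I, Rrev, rev_H]

theorem rev_Meet (R : Set (ℝ × ℝ)) (x y : ι) : L.rev.Meet (Rrev R) x y ↔ L.Meet R x y := by
  simp [Meet, Rrev, rev_H, rev_tm]

theorem rev_Lt (R : Set (ℝ × ℝ)) (x y : ι) : L.rev.Lt (Rrev R) x y ↔ L.Lt R x y := by
  simp only [Lt, Set.mem_union, rev_I, rev_H]
  constructor
  · intro h t ht
    have := h (-t) (by simpa using ht)
    simpa using this
  · intro h t ht
    exact h (-t) ht

theorem rev_Below (e f : ι × ι) : L.rev.Below e.swap f.swap ↔ L.Below e f := by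
  simp only [Below, rev_H, Prod.fst_swap, Prod.snd_swap]
  constructor
  · rintro ⟨t, h1, h2, h3, h4⟩
    exact ⟨-t, h4, h3, h2, h1⟩
  · rintro ⟨t, h1, h2, h3, h4⟩
    exact ⟨-t, by simpa using h4, by simpa using h3, by simpa using h2, by simpa using h1⟩

theorem rev_Disj (e f : ι × ι) : L.rev.Disj e.swap f.swap ↔ L.Disj e f := by
  unfold Disj
  rw [rev_Below, rev_Below]

theorem rev_strip (Lo Hi : Finset ι) : L.rev.strip Lo Hi = Rrev (L.strip Lo Hi) := by
  ext ⟨t, y⟩
  simp only [strip, Rrev, Set.mem_ofPred_eq, rev_H]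

theorem nu_rev (E : Finset (ι × ι)) : L.rev.nu (Esw E) = L.nu E := by
  have key : ∀ (L : Lines ι) (E : Finset (ι × ι)), L.nu E ≤ L.rev.nu (Esw E) := by
    intro L E
    obtain ⟨M, h1, h2, h3⟩ := L.exists_nu E
    rw [← h3, ← card_Esw M]
    apply L.rev.card_le_nu (Esw_mono h1)
    intro e he f hf hef
    have he' : e.swap ∈ M := by
      have := mem_Esw.1 (Finset.mem_coe.1 he); exact this
    have hf' : f.swap ∈ M := by
      have := mem_Esw.1 (Finset.mem_coe.1 hf); exact this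
    have := h2 he' hf' (fun h => hef (Prod.swap_injective h))
    have := (L.rev_Disj e.swap f.swap).2 this
    simpa using this
  apply le_antisymm _ (key L E)
  have := key L.rev (Esw E)
  rwa [Esw_Esw, rev_rev] at this

end Lines

theorem Rrev_Rrev (R : Set (ℝ × ℝ)) : Rrev (Rrev R) = R := by
  ext ⟨t, y⟩; simp [Rrev]

theorem Rrev_inter (R S : Set (ℝ × ℝ)) : Rrev (R ∩ S) = Rrev R ∩ Rrev S := rfl

theorem Rrev_mono {R S : Set (ℝ × ℝ)} (h : R ⊆ S) : Rrev R ⊆ Rrev S := fun _ hp => h hp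

theorem Rrev_disjoint {R S : Set (ℝ × ℝ)} (h : Disjoint R S) : Disjoint (Rrev R) (Rrev S) := by
  rw [Set.disjoint_left] at *
  intro p hp hq
  exact h hp hq

theorem rev_bstrip (L : Lines ι) (V : Finset ι) (x : ι → ℕ) (j : ℕ) :
    bstrip L.rev V x j = Rrev (bstrip L V x j) := by
  unfold bstrip; rw [Lines.rev_strip]

theorem Inst.rev {L : Lines ι} {E : Finset (ι × ι)} (h : Inst L E) : Inst L.rev (Esw E) := by
  refine ⟨?_, ?_, ?_⟩
  · intro a ha b hb
    rw [A_Esw] at ha
    rw [B_Esw] at hb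
    have := h.sep b hb a ha
    rw [Lines.rev_v, Lines.rev_v]
    linarith
  · rw [A_Esw, B_Esw, Finset.union_comm]
    intro x hx y hy hxy
    rw [Lines.rev_v, Lines.rev_v] at hxy
    exact h.inj hx hy (by linarith)
  · rw [A_Esw, B_Esw, Finset.union_comm]
    intro x hx y hy z hz h1 h2 h3
    rw [Lines.rev_tm, Lines.rev_tm]
    exact fun h4 => h.gp x hx y hy z hz h1 h2 h3 (neg_injective h4)

theorem CellOK.rev {L : Lines ι} {R : Set (ℝ × ℝ)} {E : Finset (ι × ι)} (h : CellOK L R E) :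
    CellOK L.rev (Rrev R) (Esw E) := by
  have hAB : ∀ a ∈ A E, ∀ b ∈ B E, L.v a ≠ L.v b := fun a ha b hb => (h.sep a ha b hb).ne
  refine
    { sep := ?_
      inj := ?_
      mem := ?_
      conn := ?_
      cloB := ?_
      cloA := ?_
      cmpB := ?_
      cmpA := ?_ }
  · intro a ha b hb
    rw [A_Esw] at ha
    rw [B_Esw] at hb
    have := h.sep b hb a ha
    rw [Lines.rev_v, Lines.rev_v]
    linarith
  · rw [A_Esw, B_Esw, Finset.union_comm]
    intro x hx y hy hxy
    rw [Lines.rev_v, Lines.rev_v] at hxy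
    exact h.inj hx hy (by linarith)
  · intro p hp
    have hp' := mem_Esw.1 hp
    rw [Lines.rev_Meet]
    exact (L.Meet_comm (hAB _ (fst_mem_A hp') _ (snd_mem_B hp'))).1 (h.mem _ hp')
  · intro x hx
    rw [A_Esw, B_Esw, Finset.union_comm] at hx
    refine ⟨fun s hs t ht u hu => ?_⟩
    rw [Lines.rev_I] at hs ht ⊢
    exact (h.conn x hx).out ht hs ⟨by linarith [hu.2], by linarith [hu.1]⟩
  · intro p hp b₀ hb hv hm
    have hp' := mem_Esw.1 hp
    rw [B_Esw] at hb
    rw [Lines.rev_v, Lines.rev_v] at hv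
    rw [Lines.rev_Meet] at hm ⊢
    have := h.cloA _ hp' b₀ hb (by simpa using hv) hm
    exact (L.Meet_comm (hAB _ hb _ (snd_mem_B hp'))).1 this
  · intro p hp a₀ ha hv hm
    have hp' := mem_Esw.1 hp
    rw [A_Esw] at ha
    rw [Lines.rev_v, Lines.rev_v] at hv
    rw [Lines.rev_Meet] at hm ⊢
    have := h.cloB _ hp' a₀ ha (by simpa using hv) hm
    exact (L.Meet_comm (hAB _ (fst_mem_A hp') _ ha)).1 this
  · intro b hb c hc hbc
    rw [B_Esw] at hb hc
    rw [Lines.rev_Meet, Lines.rev_Lt, Lines.rev_Lt]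
    exact h.cmpA b hb c hc hbc
  · intro b hb c hc hbc
    rw [A_Esw] at hb hc
    rw [Lines.rev_Meet, Lines.rev_Lt, Lines.rev_Lt]
    exact h.cmpB b hb c hc hbc

theorem Sys.rev {L : Lines ι} {E0 : Finset (ι × ι)} {κ : Type} {K : Finset κ}
    {R : κ → Set (ℝ × ℝ)} {E : κ → Finset (ι × ι)} (h : Sys L E0 K R E) :
    Sys L.rev (Esw E0) K (fun k => Rrev (R k)) (fun k => Esw (E k)) :=
  ⟨fun k hk => Esw_mono (h.sub k hk), fun k hk => (h.ok k hk).rev,
    fun k hk l hl hkl => Rrev_disjoint (h.disj k hk l hl hkl)⟩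

theorem rev_cr (L : Lines ι) (R : Set (ℝ × ℝ)) (V : Finset ι) (b : ι) :
    cr L.rev (Rrev R) V b = cr L R V b := by
  unfold cr
  simp only [Lines.rev_Meet]

theorem neg_cr (L : Lines ι) (R : Set (ℝ × ℝ)) (V : Finset ι) (b : ι) :
    cr L.neg (Rneg R) V b = cr L R V b := by
  unfold cr
  simp only [Lines.neg_Meet]

end Pool.Agent.GG38
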