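import Pool.Agent.Lib.MP_38fd99_co.Spec

/-! Slabs are cells: `StmtSlabCell`. -/

set_option autoImplicit false

namespace Pool.Agent.GG38

open Finset Classical

namespace SlabCell

variable {ι : Type}

theorem rk_mono (L : Lines ι) (V : Finset ι) {t t' : ℝ} (h : t ≤ t') : rk L V t ≤ rk L V t' := by
  apply Finset.card_le_card
  intro u hu
  have := Finset.mem_filter.1 hu
  exact Finset.mem_filter.2 ⟨this.1, lt_of_lt_of_le this.2 h⟩

theorem conn (L : Lines ι) (V : Finset ι) (l j : ℕ) {t1 t2 t : ℝ} (h1 : rk L V t1 / 2 ^ l = j)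
    (h2 : rk L V t2 / 2 ^ l = j) (ht1 : t1 ≤ t) (ht2 : t ≤ t2) : rk L V t / 2 ^ l = j := by
  apply le_antisymm
  · rw [← h2]
    exact Nat.div_le_div_right (rk_mono L V ht2)
  · rw [← h1]
    exact Nat.div_le_div_right (rk_mono L V ht1)

/-- all times of the slab are on one side of a time outside -/
theorem side (L : Lines ι) (V : Finset ι) (l j : ℕ) (t₀ : ℝ) (h : rk L V t₀ / 2 ^ l ≠ j) :
    (∀ t, rk L V t / 2 ^ l = j → t < t₀) ∨ (∀ t, rk L V t / 2 ^ l = j → t₀ < t) := by
  by_contra hc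
  push Not at hc
  obtain ⟨⟨t, ht, h1⟩, ⟨t', ht', h2⟩⟩ := hc
  exact h (conn L V l j ht' ht h2 h1)

theorem cmp_aux (L : Lines ι) (V : Finset ι) (l j : ℕ) {x y : ι} (hv : L.v x < L.v y)
    (h : rk L V (L.tm x y) / 2 ^ l ≠ j) :
    L.Lt (slabR L V l j) x y ∨ L.Lt (slabR L V l j) y x := by
  rcases side L V l j _ h with h1 | h1
  · right
    intro t ht
    have ht' : rk L V t / 2 ^ l = j := by
      rcases ht with ht | ht <;> exact ht
    exact (L.gt_iff hv t).2 (h1 t ht')
  · left
    intro t ht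
    have ht' : rk L V t / 2 ^ l = j := by
      rcases ht with ht | ht <;> exact ht
    exact (L.lt_iff hv t).2 (h1 t ht')

theorem cmp_full (L : Lines ι) (V : Finset ι) (l j : ℕ) {x y : ι} (hv : L.v x ≠ L.v y) :
    L.Meet (slabR L V l j) x y ∨ L.Lt (slabR L V l j) x y ∨ L.Lt (slabR L V l j) y x := by
  by_cases h : rk L V (L.tm x y) / 2 ^ l = j
  · left
    exact h
  · right
    rcases lt_or_gt_of_ne hv with h1 | h1
    · exact cmp_aux L V l j h1 h
    · have h' : rk L V (L.tm y x) / 2 ^ l ≠ j := by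
        rw [L.tm_comm]
        exact h
      exact (cmp_aux L V l j h1 h').symm

end SlabCell

open SlabCell in
theorem slabCell : StmtSlabCell := by
  intro ι L E0 E' V l j hI hE hr
  have hI' := hI.mono hE
  refine
    { sep := hI'.sep
      inj := hI'.inj
      mem := hr
      conn := ?_
      cloB := ?_
      cloA := ?_
      cmpB := ?_
      cmpA := ?_ }
  · intro x _
    constructor
    intro t1 h1 t2 h2 t ht
    exact conn L V l j h1 h2 ht.1 ht.2
  · intro p hp b₀ hb₀ hv hm
    have h1 : rk L V (L.tm p.1 p.2) / 2 ^ l = j := hr p hp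
    have h2 : rk L V (L.tm p.2 b₀) / 2 ^ l = j := by
      rw [L.tm_comm]
      exact hm
    have h3 : L.v p.1 < L.v p.2 := hI'.sep _ (fst_mem_A hp) _ (snd_mem_B hp)
    change rk L V (L.tm p.1 b₀) / 2 ^ l = j
    rcases L.between h3 hv with h | h
    · exact conn L V l j h1 h2 h.1 h.2
    · exact conn L V l j h2 h1 h.1 h.2
  · intro p hp a₀ ha₀ hv hm
    have h1 : rk L V (L.tm p.1 p.2) / 2 ^ l = j := hr p hp
    have h2 : rk L V (L.tm a₀ p.1) / 2 ^ l = j := hm
    have h3 : L.v p.1 < L.v p.2 := hI'.sep _ (fst_mem_A hp) _ (snd_mem_B hp)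
    change rk L V (L.tm a₀ p.2) / 2 ^ l = j
    rcases L.between hv h3 with h | h
    · exact conn L V l j h2 h1 h.1 h.2
    · exact conn L V l j h1 h2 h.1 h.2
  · intro b hb c hc hbc
    apply cmp_full
    intro hv
    exact hbc (hI'.inj (by simp [hb]) (by simp [hc]) hv)
  · intro b hb c hc hbc
    apply cmp_full
    intro hv
    exact hbc (hI'.inj (by simp [hb]) (by simp [hc]) hv)

end Pool.Agent.GG38
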